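import Pool.Agent.H40.EL.Down

set_option autoImplicit false

/-!
# Logarithms and remainders in unary
-/

namespace Pool.Agent.H40.EL

open Pool.Agent.H88.RO Pool.Agent.H88.RO.Tr Pool.Agent.H65.TS

variable {O : List Bool → Bool}

/-! ### logarithms -/

/-- one step; states are `node (node cur cnt) v` -/
def lgstep (s : Tr) : Tr :=
  cs (dropU (snd s) (addU (fst (fst s)) (ulen (fst (fst s)))))
    (node (node (addU (fst (fst s)) (ulen (fst (fst s)))) (node leaf (snd (fst s)))) (snd s)) s

/-- the logarithm of `len v` to the base two, rounded down, in unary -/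
def lgT (v : Tr) : Tr := snd (fst (lgstep^[len v] (node (node (num 1) leaf) v)))

theorem lgstep_def (s : Tr) : lgstep s =
    cs (dropU (snd s) (addU (fst (fst s)) (ulen (fst (fst s)))))
    (node (node (addU (fst (fst s)) (ulen (fst (fst s)))) (node leaf (snd (fst s)))) (snd s)) s :=
  rfl

theorem lgstep_eq (m c : ℕ) (v : Tr) : lgstep (node (node (num m) (num c)) v) =
    if 2 * m ≤ len v then node (node (num (2 * m)) (num (c + 1))) v
    else node (node (num m) (num c)) v := by
  rw [lgstep_def]
  simp only [fst_node, snd_node, ulen_eq, addU_num', len_num]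
  split_ifs with h
  · rw [cs_pos _ _ (by rw [dropU_eq_leaf, len_num]; omega), two_mul]
    rfl
  · rw [cs_neg _ _ (by rw [ne_eq, dropU_eq_leaf, len_num]; omega)]

theorem lgstep_iter (v : Tr) (hv : len v ≠ 0) (n : ℕ) :
    lgstep^[n] (node (node (num 1) leaf) v) =
      node (node (num (2 ^ min n (Nat.log 2 (len v)))) (num (min n (Nat.log 2 (len v))))) v := by
  induction n with
  | zero => simp [num]
  | succ n ih =>
    rw [Function.iterate_succ_apply', ih, lgstep_eq]
    have h1 := Nat.pow_log_le_self 2 hv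
    have h2 := Nat.lt_pow_succ_log_self (b := 2) (by norm_num) (len v)
    rcases Nat.lt_or_ge n (Nat.log 2 (len v)) with h | h
    · rw [min_eq_left h.le, min_eq_left (by omega : n + 1 ≤ Nat.log 2 (len v))]
      have h3 : 2 ^ (n + 1) ≤ 2 ^ Nat.log 2 (len v) := Nat.pow_le_pow_right (by norm_num) h
      have e : 2 ^ (n + 1) = 2 * 2 ^ n := by rw [pow_succ]; ring
      rw [if_pos (by omega), e]
    · rw [min_eq_right h, min_eq_right (by omega : Nat.log 2 (len v) ≤ n + 1)]
      have e : 2 ^ (Nat.log 2 (len v) + 1) = 2 * 2 ^ Nat.log 2 (len v) := by rw [pow_succ]; ring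
      rw [if_neg (by omega)]

theorem lgT_eq (v : Tr) : lgT v = num (Nat.log 2 (len v)) := by
  by_cases hv : len v = 0
  · rw [lgT, hv]; simp [num]
  · rw [lgT, lgstep_iter v hv, fst_node, snd_node, min_eq_right (Nat.log_le_self 2 _)]

theorem lgstep_bound (x : Tr) (i : ℕ) : snd (lgstep^[i] x) = snd x ∧
    size (fst (fst (lgstep^[i] x))) ≤ 2 * size x + 1 ∧
    size (snd (fst (lgstep^[i] x))) ≤ size x + 2 * i ∧
    size (lgstep^[i] x) ≤ 4 * size x + 2 * i + 5 := by
  induction i with
  | zero =>
    have h1 := size_fst_le x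
    have h2 := size_fst_le (fst x)
    have h3 := size_snd_le (fst x)
    simp only [Function.iterate_zero, id, true_and]
    refine ⟨by omega, by omega, by omega⟩
  | succ i ih =>
    obtain ⟨h1, h2, h3, h4⟩ := ih
    rw [Function.iterate_succ_apply', lgstep_def, h1]
    by_cases h : dropU (snd x) (addU (fst (fst (lgstep^[i] x)))
        (ulen (fst (fst (lgstep^[i] x))))) = leaf
    · rw [cs_pos _ _ h]
      rw [dropU_eq_leaf, ulen_eq, addU_num', len_num] at h
      have h5 := len_le_size (snd x)
      have h6 := size_snd_le x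
      simp only [fst_node, snd_node, ulen_eq, addU_num', size, size_num]
      refine ⟨trivial, by omega, by omega, by omega⟩
    · rw [cs_neg _ _ h]
      exact ⟨h1, h2, by omega, by omega⟩

theorem FP.lgT' {F : Tr → Tr} (hF : FP O F) : FP O (fun v => lgT (F v)) := by
  have hd : FP O lgstep := by
    have h1 : FP O (fun v => fst (fst v)) := FP.fst' (FP.fst' FP.id')
    have h2 : FP O (fun v => snd v) := FP.snd' FP.id'
    have h3 : FP O (fun v => snd (fst v)) := FP.snd' (FP.fst' FP.id')
    have h4 := FP.cs' (FP.dropU' h2 (FP.addU' h1 (FP.ulen' h1)))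
      (FP.node' (FP.node' (FP.addU' h1 (FP.ulen' h1)) (FP.node' FP.leaf' h3)) h2) FP.id'
    exact h4
  refine FP.snd' (FP.fst' (FP.iterate' hd hF (FP.node' (FP.node' (FP.const' _) FP.leaf') hF)
    ⟨4 * Polynomial.X + 5, fun n x i hi => ?_⟩))
  simp only [Polynomial.eval_add, Polynomial.eval_mul, Polynomial.eval_ofNat, Polynomial.eval_X]
  have h1 := (lgstep_bound x i).2.2.2
  have h2 := len_le_size n
  omega

/-! ### remainders -/

/-- one step; states are `node r M` -/
def mdstep (s : Tr) : Tr :=
  cs (dropU (node leaf (fst s)) (snd s)) (node leaf (snd s)) (node (node leaf (fst s)) (snd s))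

/-- the remainder of `len v` modulo `len M`, in unary -/
def mdT (v M : Tr) : Tr := fst (mdstep^[len v] (node leaf M))

theorem mdT_eq (v M : Tr) (hM : len M ≠ 0) : mdT v M = num (len v % len M) := by
  have key : ∀ n, mdstep^[n] (node leaf M) = node (num (n % len M)) M := by
    intro n
    induction n with
    | zero => simp [num]
    | succ n ih =>
      rw [Function.iterate_succ_apply', ih]
      have h1 := Nat.mod_lt n (Nat.pos_of_ne_zero hM)
      have h2 : (n + 1) % len M = if n % len M + 1 = len M then 0 else n % len M + 1 := by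
        rw [Nat.add_mod, ]
        split_ifs with h
        · rcases Nat.lt_or_ge 1 (len M) with h3 | h3
          · rw [Nat.mod_eq_of_lt h3, h, Nat.mod_self]
          · have : len M = 1 := by omega
            rw [this]
            omega
        · have h3 : 1 < len M := by omega
          rw [Nat.mod_eq_of_lt h3, Nat.mod_eq_of_lt (by omega)]
      show cs (dropU (node leaf (num (n % len M))) M) (node leaf M)
        (node (node leaf (num (n % len M))) M) = _
      rw [h2]
      split_ifs with h
      · rw [cs_pos _ _ (by rw [dropU_eq_leaf]; simp only [len, len_num]; omega)]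
        rfl
      · rw [cs_neg _ _ (by rw [ne_eq, dropU_eq_leaf]; simp only [len, len_num]; omega)]
        rfl
  rw [mdT, key, fst_node]

theorem FP.mdT' {F G : Tr → Tr} (hF : FP O F) (hG : FP O G) : FP O (fun v => mdT (F v) (G v)) := by
  have hd : FP O mdstep := by
    have h1 : FP O (fun v => fst v) := FP.fst' FP.id'
    have h2 : FP O (fun v => snd v) := FP.snd' FP.id'
    have h3 := FP.cs' (FP.dropU' (FP.node' FP.leaf' h1) h2) (FP.node' FP.leaf' h2)
      (FP.node' (FP.node' FP.leaf' h1) h2)
    exact h3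
  refine FP.fst' (FP.iterate_add hd hF (FP.node' FP.leaf' hG) 4 (fun x => ?_))
  show size (cs (dropU (node leaf (fst x)) (snd x)) (node leaf (snd x))
    (node (node leaf (fst x)) (snd x))) ≤ _
  have h1 := size_pair_le x
  have h2 := size_pos (fst x)
  unfold cs
  split_ifs <;> simp only [size] <;> omega

/-! ### the double logarithm -/

/-- the double logarithm of `n + 2` -/
def lam (n : ℕ) : ℕ := Nat.log 2 (Nat.log 2 (n + 2))

theorem lam_bounds (n : ℕ) : 2 ^ 2 ^ lam n ≤ n + 2 ∧ n + 2 < 2 ^ 2 ^ (lam n + 1) := by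
  have h1 := Nat.pow_log_le_self 2 (x := n + 2) (by omega)
  have h2 := Nat.lt_pow_succ_log_self (b := 2) (by norm_num) (n + 2)
  have h0 : 1 ≤ Nat.log 2 (n + 2) := by
    by_contra hcon
    have h3 : Nat.log 2 (n + 2) = 0 := by omega
    rw [h3] at h2
    norm_num at h2
    omega
  have h3 := Nat.pow_log_le_self 2 (x := Nat.log 2 (n + 2)) (by omega)
  have h4 := Nat.lt_pow_succ_log_self (b := 2) (by norm_num) (Nat.log 2 (n + 2))
  unfold lam
  constructor
  · exact (Nat.pow_le_pow_right (by norm_num) h3).trans h1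
  · exact h2.trans_le (Nat.pow_le_pow_right (by norm_num) h4)

/-- program for the double logarithm -/
def lamT (n : Tr) : Tr := lgT (lgT (node leaf (node leaf n)))

theorem lamT_eq (n : Tr) : lamT n = num (lam (len n)) := by
  rw [lamT, lgT_eq, lgT_eq, len_num]
  rfl

theorem FP.lamT' {F : Tr → Tr} (hF : FP O F) : FP O (fun v => lamT (F v)) :=
  FP.lgT' (FP.lgT' (FP.node' FP.leaf' (FP.node' FP.leaf' hF)))

theorem log_log (l : ℕ) : Nat.log 2 (Nat.log 2 (2 ^ 2 ^ l)) = l := by
  rw [Nat.log_pow (by norm_num), Nat.log_pow (by norm_num)]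

/-- test for numbers of the form `2^(2^l)` -/
def ppT (K : Tr) : Tr := andT (p2T K) (p2T (lgT K))

theorem ppT_spec (K : Tr) : ppT K ≠ leaf ↔ ∃ l, len K = 2 ^ 2 ^ l := by
  rw [ppT, andT_spec, p2T_spec, p2T_spec, lgT_eq, len_num]
  constructor
  · rintro ⟨⟨a, ha⟩, ⟨l, hl⟩⟩
    rw [ha, Nat.log_pow (by norm_num)] at hl
    exact ⟨l, by rw [ha, hl]⟩
  · rintro ⟨l, hl⟩
    rw [hl, Nat.log_pow (by norm_num)]
    exact ⟨⟨_, rfl⟩, ⟨_, rfl⟩⟩

theorem FP.ppT' {F : Tr → Tr} (hF : FP O F) : FP O (fun v => ppT (F v)) :=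
  FP.andT' (FP.p2T' hF) (FP.p2T' (FP.lgT' hF))

/-- polynomials are bounded by powers of `n + 2` -/
theorem exists_pow_bound' (P : Polynomial ℕ) :
    ∃ d0, ∀ d, d0 ≤ d → ∀ n, P.eval n ≤ (n + 2) ^ d := by
  obtain ⟨d0, h⟩ := exists_pow_bound P
  refine ⟨2 * d0, fun d hd n => ?_⟩
  refine (h d0 le_rfl n).trans ?_
  unfold ell
  calc (2 * (n + 1)) ^ d0 ≤ ((n + 2) ^ 2) ^ d0 := by
        apply Nat.pow_le_pow_left
        nlinarith
    _ = (n + 2) ^ (2 * d0) := by rw [← pow_mul]
    _ ≤ (n + 2) ^ d := Nat.pow_le_pow_right (by omega) hd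

end Pool.Agent.H40.EL
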