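import Pool.Agent.H65.TS.Large

set_option autoImplicit false

/-!
# The instances at which a Turing reduction to a total problem fails form a set in NP
-/

namespace Pool.Agent.H40.EL

open Pool.Agent.H88.RO Pool.Agent.H88.RO.Tr Pool.Agent.H65.TS

variable {O : List Bool → Bool}

/-- the reduction with queries computed by `cf` and solutions computed by `cg`, with time
bound `r` and `s` queries to `T`, is correct at `x` for the set of solutions `Sol` -/
def RedAt (T : TFNP O) (cf cg : Prog) (r s : Polynomial ℕ) (x : List Bool)
    (Sol : List Bool → Prop) : Prop :=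
  ∀ h, Hist T cf x h →
    (len h < s.eval x.length →
      ∃ q, ∃ t ≤ r.eval x.length, Eval O cf (node (enc x) h) (enc q) t) ∧
    (len h = s.eval x.length →
      ∃ w, ∃ t ≤ r.eval x.length, Eval O cg (node (enc x) h) (enc w) t ∧ Sol w)

theorem not_bad_at {T : TFNP O} {cf cg : Prog} {r s : Polynomial ℕ} {x : List Bool}
    {Sol : List Bool → Prop} (hred : RedAt T cf cg r s x Sol) {κ : Cand}
    (hκ : ∀ x y, CSol O κ x y ↔ T.IsSol x y) :
    ¬ Bad O κ (code cf) (code cg) ((rclk cf cg r).eval x.length) (s.eval x.length) x Sol := by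
  set K := (rclk cf cg r).eval x.length with hK
  rw [rclk_eval] at hK
  have runf : ∀ h, Hist T cf x h → len h < s.eval x.length → ∃ q, ∃ t,
      Eval O cf (node (enc x) h) (enc q) t ∧
      U O (code cf) (node (enc x) h) K = node leaf (enc q) := by
    intro h hh hl
    obtain ⟨q, t, ht, he⟩ := (hred h hh).1 hl
    refine ⟨q, t, he, U_eq he ?_⟩
    rw [hK]
    exact Nat.add_le_add_right (Nat.mul_le_mul (by omega) ht) _
  have key : ∀ h, HU O κ (code cf) K x h → len h ≤ s.eval x.length → Hist T cf x h := by
    intro h hh
    induction hh with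
    | nil => intro _; exact Hist.nil
    | @cons h y hh hq hy ih =>
      intro hl
      simp only [len] at hl
      have h1 := ih (by omega)
      obtain ⟨q, t, he, hU⟩ := runf h h1 (by omega)
      rw [hU, snd_node, dec_enc] at hy
      exact Hist.cons h1 he ((hκ _ _).mp hy)
  rintro ⟨h, h1, h2⟩
  rcases h2 with ⟨h2, h3⟩ | ⟨h2, h3⟩
  · obtain ⟨q, t, he, hU⟩ := runf h (key h h1 h2.le) h2
    rw [hU] at h3
    cases h3
  · obtain ⟨w, t, ht, he, hw⟩ := (hred h (key h h1 h2.le)).2 h2
    have hU : U O (code cg) (node (enc x) h) K = node leaf (enc w) := by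
      refine U_eq he ?_
      rw [hK]
      exact Nat.add_le_add_right (Nat.mul_le_mul (by omega) ht) _
    rw [hU, snd_node, dec_enc] at h3
    rcases h3 with h3 | h3
    · cases h3
    · exact h3 hw

open Classical in
/-- If a Turing reduction to `T` is correct at all `x` with `G x`, then there is a set in NP
which contains no `x` with `G x` and all `x` without solutions. -/
theorem exists_bad (T : TFNP O) {R : List Bool → List Bool → Bool} (hR : PolyTimeRel O R)
    (p : Polynomial ℕ) {cf cg : Prog} {r s : Polynomial ℕ} {G : List Bool → Prop}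
    (hred : ∀ x, G x → RedAt T cf cg r s x (fun y => y.length ≤ p.eval x.length ∧ R x y = true)) :
    ∃ B : Set (List Bool), InNP O B ∧ ∀ x : List Bool, (G x → x ∉ B) ∧
      ((∀ y : List Bool, ¬ (y.length ≤ p.eval x.length ∧ R x y = true)) → x ∈ B) := by
  obtain ⟨κ, hκ⟩ := exists_cand T
  obtain ⟨Pk, hk1, hk2⟩ := exists_polyT κ.k
  obtain ⟨Pn, hn1, hn2⟩ := exists_polyT κ.n
  obtain ⟨P, hP1, hP2⟩ := exists_polyT p
  obtain ⟨PK, hK1, hK2⟩ := exists_polyT (rclk cf cg r)
  obtain ⟨PS, hS1, hS2⟩ := exists_polyT s
  refine ⟨{x | Bad O κ (code cf) (code cg) ((rclk cf cg r).eval x.length) (s.eval x.length) x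
    (fun y => y.length ≤ p.eval x.length ∧ R x y = true)}, ?_, fun x => ⟨fun hx hB => ?_,
      fun hx => ?_⟩⟩
  · have hx : FP O (fun v => fst v) := FP.fst' FP.id'
    have hz : FP O (fun v => snd v) := FP.snd' FP.id'
    have hF := FP.badΩ (Ω := fun _ => O) (FPO.const O) κ (hk2 O) (hn2 O)
      (SF := qT R P) (fun F G hF hG => FP.qT' hR (hP2 O) hF hG) (code cf) (code cg)
      (θ := fun _ => leaf) (K := fun v => PK (fst v)) (S := fun v => PS (fst v))
      (X := fun v => fst v) (σ := fun v => fst v) (c := fun v => decodeT (snd v))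
      FP.leaf' (hK2 O _ hx) (hS2 O _ hx) hx hx (FP.decodeT' hz)
    have hRel := polyTimeRel_of_FP hF (R := fun x z => decide (badT κ Pk Pn (qT R P) (code cf)
      (code cg) (fun _ => O) leaf (PK (enc x)) (PS (enc x)) (enc x) (enc x)
      (decodeT (enc z)) ≠ leaf)) (fun x y => by rw [decide_eq_true_eq]; rfl)
    refine ⟨_, s * (4 * κ.n.comp (rclk cf cg r) + 2) + 2, hRel, fun x => ?_⟩
    have hSF : ∀ t, qT R P (enc x) t ≠ leaf ↔
        (fun y : List Bool => y.length ≤ p.eval x.length ∧ R x y = true) (dec t) := by
      intro t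
      rw [qT_spec hP1, dec_enc]
    have e1 : len (PK (enc x)) = (rclk cf cg r).eval x.length := by
      rw [hK1, len_num, len_enc]
    have e2 : len (PS (enc x)) = s.eval x.length := by
      rw [hS1, len_num, len_enc]
    rw [Set.mem_ofPred_eq, ← e1, ← e2]
    simp only [decide_eq_true_eq]
    constructor
    · intro hB
      obtain ⟨c, hc1, hc2⟩ := badT_complete hk1 hn1 hSF (code cf) (code cg) (fun _ => O)
        leaf (PK (enc x)) (PS (enc x)) x hB
      refine ⟨rpn c, ?_, ?_⟩
      · rw [rpn_length]
        rw [e1, e2] at hc1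
        simp only [Polynomial.eval_add, Polynomial.eval_mul, Polynomial.eval_comp,
          Polynomial.eval_ofNat]
        exact hc1
      · rw [decodeT_enc, decode_rpn]
        exact hc2
    · rintro ⟨z, _, hz2⟩
      exact badT_sound hk1 hn1 hSF (code cf) (code cg) (fun _ => O) leaf (PK (enc x))
        (PS (enc x)) x _ hz2
  · exact not_bad_at (hred x hx) hκ hB
  · exact bad_of_no_sol (fun q => by
      obtain ⟨y, hy⟩ := T.total q
      exact ⟨y, (hκ q y).mpr hy⟩) _ _ _ _ _ hx

/-- many-one reductions are Turing reductions -/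
theorem redAt_of_manyOne (T : TFNP O) {f : List Bool → List Bool}
    {g : List Bool → List Bool → List Bool} (hf : PolyTimeFun O f) (hg : PolyTimeFun₂ O g) :
    ∃ (cf cg : Prog) (r s : Polynomial ℕ), ∀ (x : List Bool) (Sol : List Bool → Prop),
      (∀ y, T.IsSol (f x) y → Sol (g x y)) → RedAt T cf cg r s x Sol := by
  obtain ⟨cf, qf, hf⟩ := hf
  obtain ⟨cg, qg, hg⟩ := hg
  -- size of the queries
  have hlen : ∀ x, (f x).length ≤ 2 * qf.eval x.length := by
    intro x
    obtain ⟨t, ht, he⟩ := hf x
    have h1 := he.size_le
    have h2 := len_le_size (enc (f x))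
    rw [len_enc] at h2
    omega
  let P : Polynomial ℕ := T.p.comp (2 * qf)
  refine ⟨Prog.comp cf Prog.fst, Prog.comp cg (Prog.pair Prog.fst (Prog.comp Prog.fst Prog.snd)),
    qf + qg.comp (Polynomial.X + P) + 40 * Polynomial.X + 40 * P + 100, 1, ?_⟩
  intro x Sol hred h hh
  have hr : (qf + qg.comp (Polynomial.X + P) + 40 * Polynomial.X + 40 * P + 100).eval x.length =
      qf.eval x.length + qg.eval (x.length + P.eval x.length) + 40 * x.length +
        40 * P.eval x.length + 100 := by
    simp
  rw [hr, Polynomial.eval_one]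
  have hx := size_enc_le x
  constructor
  · intro h1
    have h2 : len h = 0 := by omega
    rw [len_eq_zero] at h2
    subst h2
    obtain ⟨t, ht, he⟩ := hf x
    refine ⟨f x, _, ?_, Eval.comp (Eval.fst (node (enc x) leaf)) he⟩
    simp only [size]
    omega
  · intro h1
    cases hh with
    | nil => simp [len] at h1
    | @cons h' q y t hh' he hy =>
      simp only [len] at h1
      have h2 : len h' = 0 := by omega
      rw [len_eq_zero] at h2
      subst h2
      -- the query was `f x`
      obtain ⟨t1, ht1, he1⟩ := hf x
      have hq : q = f x := by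
        have e1 := U_eq he (K := (size (code (Prog.comp cf Prog.fst)) + 10) *
          (t + (t1 + (size (node (enc x) leaf) + 1) + size (node (enc x) leaf) + 1)) + 10) (by
            have := Nat.mul_le_mul_left (size (code (Prog.comp cf Prog.fst)) + 10)
              (show t ≤ t + (t1 + (size (node (enc x) leaf) + 1) + size (node (enc x) leaf) + 1)
                by omega)
            omega)
        have e2 := U_eq (Eval.comp (Eval.fst (node (enc x) leaf)) he1)
          (K := (size (code (Prog.comp cf Prog.fst)) + 10) *
          (t + (t1 + (size (node (enc x) leaf) + 1) + size (node (enc x) leaf) + 1)) + 10) (by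
            have := Nat.mul_le_mul_left (size (code (Prog.comp cf Prog.fst)) + 10)
              (show (size (node (enc x) leaf) + 1) + t1 + size (node (enc x) leaf) + 1 ≤
                t + (t1 + (size (node (enc x) leaf) + 1) + size (node (enc x) leaf) + 1)
                by omega)
            omega)
        rw [e1] at e2
        have e3 : enc q = enc (f x) := by
          injection e2
        have := congrArg dec e3
        simpa using this
      subst hq
      have hy' : y.length ≤ P.eval x.length := by
        have h3 := hy.1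
        have h4 := poly_mono T.p (hlen x)
        simp only [P, Polynomial.eval_comp, Polynomial.eval_mul, Polynomial.eval_ofNat]
        omega
      obtain ⟨t2, ht2, he2⟩ := hg x y
      have hqg : qg.eval (x.length + y.length) ≤ qg.eval (x.length + P.eval x.length) :=
        poly_mono qg (by omega)
      have hys := size_enc_le y
      refine ⟨g x y, _, ?_, Eval.comp (Eval.pair (Eval.fst (node (enc x) (node (enc y) leaf)))
        (Eval.comp (Eval.snd (node (enc x) (node (enc y) leaf)))
          (Eval.fst (node (enc y) leaf)))) he2, hred y hy⟩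
      simp only [size]
      omega

end Pool.Agent.H40.EL
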