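import Pool.Agent.H65.TS.Large

set_option autoImplicit false

/-!
# Powers of two in unary
-/

namespace Pool.Agent.H40.EL

open Pool.Agent.H88.RO Pool.Agent.H88.RO.Tr Pool.Agent.H65.TS

variable {O : List Bool → Bool}

theorem size_pair_le (x : Tr) : size (fst x) + size (snd x) ≤ size x + 1 := by
  cases x with
  | leaf => simp [size]
  | node a b => simp only [fst_node, snd_node, size]; omega

/-! ### the largest power of two below a number -/

/-- one doubling step -/
def lpstep (s : Tr) : Tr :=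
  cs (dropU (snd s) (addU (fst s) (ulen (fst s)))) (node (addU (fst s) (ulen (fst s))) (snd s)) s

/-- the largest power of two which is at most `len v` (`1` if `len v = 0`), in unary -/
def lpT (v : Tr) : Tr := fst (lpstep^[len v] (node (num 1) v))

theorem lpstep_def (s : Tr) : lpstep s = cs (dropU (snd s) (addU (fst s) (ulen (fst s))))
    (node (addU (fst s) (ulen (fst s))) (snd s)) s := rfl

theorem lpstep_eq (m : ℕ) (v : Tr) :
    lpstep (node (num m) v) = node (num (if 2 * m ≤ len v then 2 * m else m)) v := by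
  unfold lpstep
  simp only [fst_node, snd_node, ulen_eq, addU_num', len_num]
  split_ifs with h
  · rw [cs_pos _ _ (by rw [dropU_eq_leaf, len_num]; omega), two_mul]
  · rw [cs_neg _ _ (by rw [ne_eq, dropU_eq_leaf, len_num]; omega)]

theorem lpstep_iter (v : Tr) (hv : len v ≠ 0) (n : ℕ) :
    lpstep^[n] (node (num 1) v) = node (num (2 ^ min n (Nat.log 2 (len v)))) v := by
  induction n with
  | zero => simp
  | succ n ih =>
    rw [Function.iterate_succ_apply', ih, lpstep_eq]
    congr 2
    have h1 := Nat.pow_log_le_self 2 hv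
    have h2 := Nat.lt_pow_succ_log_self (b := 2) (by norm_num) (len v)
    rcases Nat.lt_or_ge n (Nat.log 2 (len v)) with h | h
    · rw [min_eq_left h.le, min_eq_left (by omega : n + 1 ≤ Nat.log 2 (len v))]
      have h3 : 2 ^ (n + 1) ≤ 2 ^ Nat.log 2 (len v) := Nat.pow_le_pow_right (by norm_num) h
      have e : 2 ^ (n + 1) = 2 * 2 ^ n := by rw [pow_succ]; ring
      rw [if_pos (by omega), e]
    · rw [min_eq_right h, min_eq_right (by omega : Nat.log 2 (len v) ≤ n + 1)]
      have e : 2 ^ (Nat.log 2 (len v) + 1) = 2 * 2 ^ Nat.log 2 (len v) := by rw [pow_succ]; ring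
      rw [if_neg (by omega)]

theorem lpT_eq (v : Tr) : lpT v = num (2 ^ Nat.log 2 (len v)) := by
  by_cases hv : len v = 0
  · rw [lpT, hv]; rfl
  · rw [lpT, lpstep_iter v hv, fst_node, min_eq_right (Nat.log_le_self 2 _)]

theorem lpstep_bound (x : Tr) (i : ℕ) : snd (lpstep^[i] x) = snd x ∧
    (lpstep^[i] x = x ∨ ∃ m, m ≤ len (snd x) ∧ lpstep^[i] x = node (num m) (snd x)) := by
  induction i with
  | zero => exact ⟨rfl, Or.inl rfl⟩
  | succ i ih =>
    obtain ⟨h1, h2⟩ := ih
    rw [Function.iterate_succ_apply', lpstep_def, h1]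
    by_cases h : dropU (snd x) (addU (fst (lpstep^[i] x)) (ulen (fst (lpstep^[i] x)))) = leaf
    · rw [cs_pos _ _ h]
      refine ⟨rfl, Or.inr ⟨2 * len (fst (lpstep^[i] x)), ?_, ?_⟩⟩
      · rw [dropU_eq_leaf, ulen_eq, addU_num', len_num] at h
        omega
      · rw [ulen_eq, addU_num', two_mul]
    · rw [cs_neg _ _ h]
      exact ⟨h1, h2⟩

theorem FP.lpT' {F : Tr → Tr} (hF : FP O F) : FP O (fun v => lpT (F v)) := by
  have hd : FP O lpstep := by
    have h1 : FP O (fun v => fst v) := FP.fst' FP.id'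
    have h2 : FP O (fun v => snd v) := FP.snd' FP.id'
    have h3 := FP.cs' (FP.dropU' h2 (FP.addU' h1 (FP.ulen' h1)))
      (FP.node' (FP.addU' h1 (FP.ulen' h1)) h2) FP.id'
    exact h3
  refine FP.fst' (FP.iterate' hd hF (FP.node' (FP.const' _) hF)
    ⟨3 * Polynomial.X + 10, fun n x i _ => ?_⟩)
  simp only [Polynomial.eval_add, Polynomial.eval_mul, Polynomial.eval_ofNat, Polynomial.eval_X]
  rcases (lpstep_bound x i).2 with h | ⟨m, hm, h⟩
  · rw [h]; omega
  · rw [h]
    simp only [size, size_num]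
    have h3 := size_snd_le x
    have h4 := len_le_size (snd x)
    omega

/-- test for powers of two -/
def p2T (v : Tr) : Tr := eqL (lpT v) v

theorem p2T_spec (v : Tr) : p2T v ≠ leaf ↔ ∃ i, len v = 2 ^ i := by
  rw [p2T, eqL_spec, lpT_eq, len_num]
  constructor
  · intro h; exact ⟨_, h.symm⟩
  · rintro ⟨i, hi⟩
    rw [hi, Nat.log_pow (by norm_num)]

theorem FP.p2T' {F : Tr → Tr} (hF : FP O F) : FP O (fun v => p2T (F v)) :=
  FP.eqL' (FP.lpT' hF) hF

/-! ### iterated squaring with a cap -/

/-- one squaring step; states are `node m cap` -/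
def sqst (s : Tr) : Tr :=
  cs (dropU (snd s) (mulU (fst s) (fst s))) (node (mulU (fst s) (fst s)) (snd s))
    (node (node leaf (ulen (snd s))) (snd s))

/-- test for `a ^ (2 ^ e) = c` -/
def sqT (a e c : Tr) : Tr := eqL (fst (sqst^[len e] (node a c))) c

theorem sqst_def (s : Tr) : sqst s = cs (dropU (snd s) (mulU (fst s) (fst s)))
    (node (mulU (fst s) (fst s)) (snd s)) (node (node leaf (ulen (snd s))) (snd s)) := rfl

theorem sqst_eq (m c : Tr) :
    sqst (node m c) = node (num (min (len m * len m) (len c + 1))) c := by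
  unfold sqst
  simp only [fst_node, snd_node, ulen_eq, mulU_eq]
  have e : node leaf (num (len c)) = num (len c + 1) := rfl
  rcases Nat.lt_or_ge (len c) (len m * len m) with h | h
  · rw [cs_neg _ _ (by rw [ne_eq, dropU_eq_leaf, len_num]; omega), e, min_eq_right (by omega)]
  · rw [cs_pos _ _ (by rw [dropU_eq_leaf, len_num]; exact h), min_eq_left (by omega)]

theorem sqst_iter (a c : Tr) (n : ℕ) : ∃ m, sqst^[n] (node a c) = node m c ∧
    min (len m) (len c + 1) = min (len a ^ (2 ^ n)) (len c + 1) := by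
  induction n with
  | zero => exact ⟨a, rfl, by simp⟩
  | succ n ih =>
    obtain ⟨m, h1, h2⟩ := ih
    rw [Function.iterate_succ_apply', h1, sqst_eq]
    refine ⟨_, rfl, ?_⟩
    rw [len_num, min_assoc, min_self]
    have e : len a ^ (2 ^ (n + 1)) = len a ^ (2 ^ n) * len a ^ (2 ^ n) := by
      rw [pow_succ, mul_two, pow_add]
    rw [e]
    set X := len a ^ (2 ^ n)
    set M := len m
    set C := len c + 1 with hC
    rcases Nat.lt_or_ge M C with hM | hM
    · rcases Nat.lt_or_ge X C with hX | hX
      · rw [min_eq_left hM.le, min_eq_left hX.le] at h2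
        rw [h2]
      · rw [min_eq_left hM.le, min_eq_right hX] at h2
        omega
    · rcases Nat.lt_or_ge X C with hX | hX
      · rw [min_eq_right hM, min_eq_left hX.le] at h2
        omega
      · have h3 : C ≤ M * M := hM.trans (Nat.le_mul_of_pos_left _ (by omega))
        have h4 : C ≤ X * X := hX.trans (Nat.le_mul_of_pos_left _ (by omega))
        rw [min_eq_right h3, min_eq_right h4]

theorem sqT_spec (a e c : Tr) : sqT a e c ≠ leaf ↔ len a ^ (2 ^ len e) = len c := by
  obtain ⟨m, h1, h2⟩ := sqst_iter a c (len e)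
  rw [sqT, eqL_spec, h1, fst_node]
  set X := len a ^ (2 ^ len e)
  rcases Nat.lt_or_ge (len m) (len c + 1) with hM | hM
  · rcases Nat.lt_or_ge X (len c + 1) with hX | hX
    · rw [min_eq_left hM.le, min_eq_left hX.le] at h2
      rw [h2]
    · rw [min_eq_left hM.le, min_eq_right hX] at h2
      omega
  · rcases Nat.lt_or_ge X (len c + 1) with hX | hX
    · rw [min_eq_right hM, min_eq_left hX.le] at h2
      omega
    · omega

theorem FP.sqT' {F G H : Tr → Tr} (hF : FP O F) (hG : FP O G) (hH : FP O H) :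
    FP O (fun v => sqT (F v) (G v) (H v)) := by
  have hd : FP O sqst := by
    have h1 : FP O (fun v => fst v) := FP.fst' FP.id'
    have h2 : FP O (fun v => snd v) := FP.snd' FP.id'
    have h3 := FP.cs' (FP.dropU' h2 (FP.mulU' h1 h1)) (FP.node' (FP.mulU' h1 h1) h2)
      (FP.node' (FP.node' FP.leaf' (FP.ulen' h2)) h2)
    exact h3
  refine FP.eqL' (FP.fst' (FP.iterate' hd hG (FP.node' hF hH)
    ⟨3 * Polynomial.X + 10, fun n x i _ => ?_⟩)) hH
  simp only [Polynomial.eval_add, Polynomial.eval_mul, Polynomial.eval_ofNat, Polynomial.eval_X]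
  have key : ∀ i, snd (sqst^[i] x) = snd x ∧ (sqst^[i] x = x ∨ ∃ m, m ≤ len (snd x) + 1 ∧
      sqst^[i] x = node (num m) (snd x)) := by
    intro i
    induction i with
    | zero => exact ⟨rfl, Or.inl rfl⟩
    | succ i ih =>
      obtain ⟨h1, _⟩ := ih
      rw [Function.iterate_succ_apply', sqst_def, h1]
      by_cases h : dropU (snd x) (mulU (fst (sqst^[i] x)) (fst (sqst^[i] x))) = leaf
      · rw [cs_pos _ _ h]
        refine ⟨rfl, Or.inr ⟨len (fst (sqst^[i] x)) * len (fst (sqst^[i] x)), ?_, ?_⟩⟩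
        · rw [dropU_eq_leaf, mulU_eq, len_num] at h
          omega
        · rw [mulU_eq]
      · rw [cs_neg _ _ h]
        refine ⟨rfl, Or.inr ⟨len (snd x) + 1, le_rfl, ?_⟩⟩
        rw [ulen_eq]
        rfl
  rcases (key i).2 with h | ⟨m, hm, h⟩
  · rw [h]; omega
  · rw [h]
    simp only [size, size_num]
    have h3 := size_snd_le x
    have h4 := len_le_size (snd x)
    omega

end Pool.Agent.H40.EL
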