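import Pool.Agent.H65.TS.Large

set_option autoImplicit false

/-!
# Placing unary items at lengths `(2 (n + 1)) ^ d`
-/

namespace Pool.Agent.H40.EL

open Pool.Agent.H88.RO

/-- the length of the instances for the item `1^n` -/
def ell (d n : ℕ) : ℕ := (2 * (n + 1)) ^ d

theorem exists_pow_bound (P : Polynomial ℕ) : ∃ d0, ∀ d, d0 ≤ d → ∀ n, P.eval n ≤ ell d n := by
  induction P using Polynomial.induction_on' with
  | add p q hp hq =>
    obtain ⟨d1, h1⟩ := hp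
    obtain ⟨d2, h2⟩ := hq
    refine ⟨max d1 d2 + 1, fun d hd n => ?_⟩
    obtain ⟨e, rfl⟩ : ∃ e, d = e + 1 := ⟨d - 1, by omega⟩
    have h3 := h1 e (by omega) n
    have h4 := h2 e (by omega) n
    rw [Polynomial.eval_add]
    have h5 : ell (e + 1) n = ell e n * (2 * (n + 1)) := pow_succ _ _
    have h6 : ell e n * 2 ≤ ell e n * (2 * (n + 1)) := Nat.mul_le_mul_left _ (by omega)
    omega
  | monomial k c =>
    refine ⟨c + k, fun d hd n => ?_⟩
    rw [Polynomial.eval_monomial]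
    have h1 : c ≤ (2 * (n + 1)) ^ c :=
      (Nat.lt_two_pow_self).le.trans (Nat.pow_le_pow_left (by omega) c)
    have h2 : n ^ k ≤ (2 * (n + 1)) ^ k := Nat.pow_le_pow_left (by omega) k
    calc c * n ^ k ≤ (2 * (n + 1)) ^ c * (2 * (n + 1)) ^ k := Nat.mul_le_mul h1 h2
      _ = (2 * (n + 1)) ^ (c + k) := (pow_add _ _ _).symm
      _ ≤ (2 * (n + 1)) ^ d := Nat.pow_le_pow_right (by omega) hd

theorem ell_strictMono {d : ℕ} (hd : d ≠ 0) : StrictMono (ell d) := by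
  intro a b hab
  exact Nat.pow_lt_pow_left (by omega) hd

/-- For two different powers of two the lengths are far apart. -/
theorem ell_far (C : ℕ) : ∃ d0, ∀ d, d0 ≤ d → ∀ i j : ℕ, i < j →
    C * ell d (2 ^ i) < ell d (2 ^ j) := by
  refine ⟨2 * C + 2, fun d hd i j hij => ?_⟩
  have h1 : 3 * (2 * (2 ^ i + 1)) ≤ 2 * (2 * (2 ^ j + 1)) := by
    have h2 : 2 ^ (i + 1) ≤ 2 ^ j := Nat.pow_le_pow_right (by norm_num) hij
    have h3 : 2 ^ (i + 1) = 2 * 2 ^ i := by rw [pow_succ]; ring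
    have h4 : 1 ≤ 2 ^ i := Nat.one_le_two_pow
    omega
  have h2 : 3 ^ d * ell d (2 ^ i) ≤ 2 ^ d * ell d (2 ^ j) := by
    unfold ell
    rw [← mul_pow, ← mul_pow]
    exact Nat.pow_le_pow_left h1 d
  have h3 : C * 2 ^ d < 3 ^ d := by
    -- `(3/2)^d >= 1 + d/2`
    have key : ∀ d : ℕ, (d + 2) * 2 ^ d ≤ 2 * 3 ^ d := by
      intro d
      induction d with
      | zero => norm_num
      | succ d ih =>
        have e1 : (2 : ℕ) ^ (d + 1) = 2 * 2 ^ d := by rw [pow_succ]; ring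
        have e2 : (3 : ℕ) ^ (d + 1) = 3 * 3 ^ d := by rw [pow_succ]; ring
        rw [e1, e2]
        have h5 : (d + 1 + 2) * (2 * 2 ^ d) = 2 * ((d + 2) * 2 ^ d) + 2 * 2 ^ d := by ring
        have h6 : 2 * 2 ^ d ≤ (d + 2) * 2 ^ d := Nat.mul_le_mul_right _ (by omega)
        omega
    have h4 := key d
    have h5 : (2 * C + 1) * 2 ^ d ≤ (d + 2) * 2 ^ d := Nat.mul_le_mul_right _ (by omega)
    have h6 : (2 * C + 1) * 2 ^ d = 2 * (C * 2 ^ d) + 2 ^ d := by ring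
    have h7 : 1 ≤ 2 ^ d := Nat.one_le_two_pow
    omega
  have h4 : 0 < ell d (2 ^ i) := by unfold ell; positivity
  have h5 : C * 2 ^ d * ell d (2 ^ i) < 3 ^ d * ell d (2 ^ i) := Nat.mul_lt_mul_of_pos_right h3 h4
  have h6 : 2 ^ d * (C * ell d (2 ^ i)) < 2 ^ d * ell d (2 ^ j) := by
    calc 2 ^ d * (C * ell d (2 ^ i)) = C * 2 ^ d * ell d (2 ^ i) := by ring
      _ < 3 ^ d * ell d (2 ^ i) := h5
      _ ≤ _ := h2
  exact Nat.lt_of_mul_lt_mul_left h6

/-- the lengths as a polynomial -/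
noncomputable def ellP (d : ℕ) : Polynomial ℕ := (2 * (Polynomial.X + 1)) ^ d

theorem ellP_eval (d n : ℕ) : (ellP d).eval n = ell d n := by
  simp [ellP, ell]

end Pool.Agent.H40.EL
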