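import Pool.Agent.H65.NU.Pair
import Pool.Agent.H40.EL.Arith
import Pool.Agent.H40.EL.Place

set_option autoImplicit false

/-!
# From a problem which is complete for windows to sets in coNP
-/

namespace Pool.Agent.H40.EL

open Pool.Agent.H88.RO Pool.Agent.H88.RO.Tr Pool.Agent.H65.TS Pool.Agent.H65.NU

variable {O : List Bool → Bool}

theorem parse_none {w : List Bool} : parse w = none ↔ w = List.replicate w.length true := by
  induction w with
  | nil => simp [parse]
  | cons b w ih =>
    cases b with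
    | false => simp [parse, List.replicate_succ]
    | true =>
      simp only [parse, Option.map_eq_none_iff, List.length_cons, List.replicate_succ,
        List.cons.injEq, true_and]
      exact ih

/-- test for strings without ones -/
def zerT (w : Tr) : Tr := snd (snd (parseT w))

theorem zerT_spec (w : List Bool) : zerT (enc w) = leaf ↔ w = List.replicate w.length true := by
  rw [zerT, parseT_enc, ← parse_none]
  rcases parse w with _ | ⟨m, v⟩ <;> simp

theorem FP.zerT' {F : Tr → Tr} (hF : FP O F) : FP O (fun v => zerT (F v)) :=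
  FP.snd' (FP.snd' (FP.parseT' hF))

/-- conjunction -/
def andT (a b : Tr) : Tr := cs a leaf b

theorem andT_spec (a b : Tr) : andT a b ≠ leaf ↔ a ≠ leaf ∧ b ≠ leaf := by
  unfold andT
  by_cases h : a = leaf
  · rw [cs_pos _ _ h]; simp [h]
  · rw [cs_neg _ _ h]; simp [h]

theorem FP.andT' {F G : Tr → Tr} (hF : FP O F) (hG : FP O G) :
    FP O (fun v => andT (F v) (G v)) := FP.cs' hF FP.leaf' hG

/-- implication -/
def impT (a b : Tr) : Tr := cs a tt b

theorem impT_spec (a b : Tr) : impT a b ≠ leaf ↔ (a ≠ leaf → b ≠ leaf) := by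
  unfold impT
  by_cases h : a = leaf
  · rw [cs_pos _ _ h]; simp [h]
  · rw [cs_neg _ _ h]; simp [h]

theorem FP.impT' {F G : Tr → Tr} (hF : FP O F) (hG : FP O G) :
    FP O (fun v => impT (F v) (G v)) := FP.cs' hF (FP.const' _) hG

/-- the item coded in an instance -/
def itN (x : List Bool) : ℕ := (prs x).1
/-- the universally quantified string coded in an instance -/
def itU (x : List Bool) : List Bool := (prs (prs x).2).2

/-- program for `itN` -/
def itNT (x : Tr) : Tr := fst (parseT x)
/-- program for `itU` -/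
def itUT (x : Tr) : Tr := fst (snd (parseT (fst (snd (parseT x)))))

theorem itNT_enc (x : List Bool) : itNT (enc x) = num (itN x) := by
  rw [itNT, fst_parseT, itN]
theorem itUT_enc (x : List Bool) : itUT (enc x) = enc (itU x) := by
  rw [itUT, snd_parseT, snd_parseT, itU]
theorem FP.itNT' {F : Tr → Tr} (hF : FP O F) : FP O (fun v => itNT (F v)) :=
  FP.fst' (FP.parseT' hF)
theorem FP.itUT' {F : Tr → Tr} (hF : FP O F) : FP O (fun v => itUT (F v)) :=
  FP.fst' (FP.snd' (FP.parseT' (FP.fst' (FP.snd' (FP.parseT' hF)))))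

theorem it_le (x : List Bool) : itN x + (itU x).length ≤ x.length := by
  have h1 := prs_le x
  have h2 := prs_le (prs x).2
  unfold itN itU
  omega

section

variable (S : Set ℕ) (d : ℕ) (p1 r : Polynomial ℕ) (Q : List Bool → List Bool → Bool)

/-- the instance `x` is of the form which we use -/
def Cnd (x : List Bool) : Prop :=
  itN x ∈ S ∧ x.length = ell d (itN x) ∧ (itU x).length ≤ p1.eval (itN x)

/-- the relation of the search problem -/
def RelD (x y : List Bool) : Prop :=
  Cnd S d p1 x → y.length ≤ r.eval (pr (List.replicate (itN x) true) (itU x)).length ∧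
    Q (pr (List.replicate (itN x) true) (itU x)) y = true

/-- program for `RelD` -/
def relDT (ST Pe Pp Pr : Tr → Tr) (x y : Tr) : Tr :=
  impT (andT (ST (itNT x)) (andT (eqL x (Pe (itNT x))) (cs (dropU (Pp (itNT x)) (itUT x)) tt leaf)))
    (qT Q Pr (prT (onesPre (itNT x) leaf) (itUT x)) y)

theorem relDT_spec {ST Pe Pp Pr : Tr → Tr} (hS : ∀ v, ST v ≠ leaf ↔ len v ∈ S)
    (he : ∀ v, Pe v = num ((ellP d).eval (len v))) (hp : ∀ v, Pp v = num (p1.eval (len v)))
    (hr : ∀ v, Pr v = num (r.eval (len v))) (x y : List Bool) :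
    relDT Q ST Pe Pp Pr (enc x) (enc y) ≠ leaf ↔ RelD S d p1 r Q x y := by
  unfold relDT RelD Cnd
  rw [impT_spec, andT_spec, andT_spec, itNT_enc, itUT_enc, hS, eqL_spec, he, ellP_eval, len_num,
    len_num, len_enc, onesPre_leaf, len_num, prT_enc, qT_spec hr, dec_enc, dec_enc]
  have h1 : cs (dropU (Pp (num (itN x))) (enc (itU x))) tt leaf ≠ leaf ↔
      (itU x).length ≤ p1.eval (itN x) := by
    by_cases h : (itU x).length ≤ p1.eval (itN x)
    · rw [cs_pos _ _ (by rw [dropU_eq_leaf, hp, len_num, len_num, len_enc]; exact h)]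
      simp [h]
    · rw [cs_neg _ _ (by rw [ne_eq, dropU_eq_leaf, hp, len_num, len_num, len_enc]; exact h)]
      simp [h]
  rw [h1]

theorem FP_relDT {Q : List Bool → List Bool → Bool} (hQ : PolyTimeRel O Q)
    {ST Pe Pp Pr : Tr → Tr} (hS : ∀ F, FP O F → FP O (fun v => ST (F v)))
    (he : ∀ F, FP O F → FP O (fun v => Pe (F v))) (hp : ∀ F, FP O F → FP O (fun v => Pp (F v)))
    (hr : ∀ F, FP O F → FP O (fun v => Pr (F v))) {F G : Tr → Tr} (hF : FP O F) (hG : FP O G) :
    FP O (fun v => relDT Q ST Pe Pp Pr (F v) (G v)) := by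
  have h1 := FP.itNT' hF
  have h2 := FP.itUT' hF
  have h3 := FP.impT' (FP.andT' (hS _ h1) (FP.andT' (FP.eqL' hF (he _ h1))
    (FP.cs' (FP.dropU' (hp _ h1) h2) (FP.const' tt) FP.leaf')))
    (FP.qT' hQ hr (FP.prT' (FP.onesPre' h1 FP.leaf') h2) hG)
  exact h3

end

open Classical in
/-- The core of the step down.  `hB` is what a Turing reduction to a total problem, correct on
the windows `W`, gives us. -/
theorem down_core {W : List Bool → Set (List Bool)}
    (hB : ∀ (R : List Bool → List Bool → Bool) (p : Polynomial ℕ), PolyTimeRel O R →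
      ∃ B : Set (List Bool), InNP O B ∧ ∀ x : List Bool,
        ((∀ x' ∈ W x, ∃ y : List Bool, y.length ≤ p.eval x'.length ∧ R x' y = true) → x ∉ B) ∧
        ((∀ y : List Bool, ¬ (y.length ≤ p.eval x.length ∧ R x y = true)) → x ∈ B))
    {S : Set ℕ} {ST : Tr → Tr} (hS : ∀ v, ST v ≠ leaf ↔ len v ∈ S)
    (hST : ∀ F, FP O F → FP O (fun v => ST (F v)))
    (hW : ∃ d0, ∀ d, d0 ≤ d → ∀ n ∈ S, ∀ n' ∈ S, ∀ x x' : List Bool, x.length = ell d n →
      x'.length = ell d n' → x' ∈ W x → n' = n)
    {L : Set (List Bool)} (hL : InPi2 O L) :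
    InNP O {w | ¬ (w ∈ L ∧ w = List.replicate w.length true ∧ w.length ∈ S)} := by
  obtain ⟨M, p1, ⟨Q, r, hQ, hM⟩, hLc⟩ := hL
  obtain ⟨d0, hd0⟩ := hW
  obtain ⟨d1, hd1⟩ := exists_pow_bound (p1 + Polynomial.X + 2)
  obtain ⟨d, hdd0, hdd1⟩ : ∃ d, d0 ≤ d ∧ d1 ≤ d := ⟨max d0 d1, le_max_left _ _, le_max_right _ _⟩
  replace hd0 := hd0 d hdd0
  replace hd1 := hd1 d hdd1
  obtain ⟨Pe, he1, he2⟩ := exists_polyT (ellP d)
  obtain ⟨Pp, hp1, hp2⟩ := exists_polyT p1
  obtain ⟨Pr, hr1, hr2⟩ := exists_polyT r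
  have hR : PolyTimeRel O (fun x y => decide (RelD S d p1 r Q x y)) := by
    have hx : FP O (fun v => fst v) := FP.fst' FP.id'
    have hy : FP O (fun v => snd v) := FP.snd' FP.id'
    exact polyTimeRel_of_FP (FP_relDT hQ hST (he2 O) (hp2 O) (hr2 O) hx hy) (fun x y => by
      rw [fst_node, snd_node, relDT_spec S d p1 r Q hS he1 hp1 hr1, decide_eq_true_eq])
  obtain ⟨B, ⟨RB, pB, hRB, hBB⟩, hB2⟩ := hB _ (r.comp (3 * Polynomial.X + 1)) hR
  -- members of `L`
  have hin : ∀ n ∈ S, List.replicate n true ∈ L → ∀ x : List Bool, x.length = ell d n →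
      x ∉ B := by
    intro n hn hnL x hx
    refine (hB2 x).1 (fun x' hx' => ?_)
    by_cases hc : Cnd S d p1 x'
    · obtain ⟨h1, h2, h3⟩ := hc
      have h4 : itN x' = n := hd0 n hn (itN x') h1 x x' hx h2 hx'
      have h5 : ∃ y : List Bool, y.length ≤
          r.eval (pr (List.replicate (itN x') true) (itU x')).length ∧
          Q (pr (List.replicate (itN x') true) (itU x')) y = true := by
        by_contra hcon
        have h6 : pr (List.replicate (itN x') true) (itU x') ∈ M := by
          by_contra h7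
          exact hcon ((hM _).mp h7)
        rw [h4] at h6 h3
        exact (hLc _).mpr ⟨itU x', by rw [List.length_replicate]; exact h3, h6⟩ hnL
      obtain ⟨y, hy1, hy2⟩ := h5
      refine ⟨y, hy1.trans ?_, by rw [decide_eq_true_eq]; exact fun _ => ⟨hy1, hy2⟩⟩
      simp only [Polynomial.eval_comp, Polynomial.eval_add, Polynomial.eval_mul,
        Polynomial.eval_ofNat, Polynomial.eval_X, Polynomial.eval_one]
      apply poly_mono
      rw [pr_length, List.length_replicate]
      have := it_le x'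
      omega
    · exact ⟨[], by simp, by rw [decide_eq_true_eq]; exact fun h => absurd h hc⟩
  -- strings outside `L`
  have hout : ∀ n ∈ S, List.replicate n true ∉ L → ∃ x : List Bool, x.length = ell d n ∧
      x ∈ B := by
    intro n hn hnL
    obtain ⟨u, hu1, hu2⟩ := (hLc _).mp hnL
    rw [List.length_replicate] at hu1
    have h1 := hd1 n
    simp only [Polynomial.eval_add, Polynomial.eval_X, Polynomial.eval_ofNat] at h1
    obtain ⟨a, ha⟩ : ∃ a, n + 1 + (a + 1 + u.length) = ell d n :=
      ⟨ell d n - (n + 2 + u.length), by omega⟩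
    set x : List Bool := List.replicate n true ++ false :: (List.replicate a true ++ false :: u)
      with hx
    have hxl : x.length = ell d n := by
      rw [hx, ← ha]
      simp
      ring
    have hxN : itN x = n := by rw [itN, hx, prs_ones]
    have hxU : itU x = u := by rw [itU, hx, prs_ones, prs_ones]
    refine ⟨x, hxl, (hB2 x).2 (fun y hy => ?_)⟩
    have h2 : RelD S d p1 r Q x y := by
      have := hy.2
      rwa [decide_eq_true_eq] at this
    have h3 := h2 ⟨by rw [hxN]; exact hn, by rw [hxN]; exact hxl, by rw [hxN, hxU]; exact hu1⟩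
    rw [hxN, hxU] at h3
    exact (hM _).mpr ⟨y, h3⟩ hu2
  -- the set is in NP
  obtain ⟨PB, hPB1, hPB2⟩ := exists_polyT pB
  refine ⟨fun w c => decide (¬ (w = List.replicate w.length true ∧ w.length ∈ S) ∨
    ((un1 c).length = ell d w.length ∧ (un2 c).length ≤ pB.eval (un1 c).length ∧
      RB (un1 c) (un2 c) = true)), 2 * ellP d + 1 + pB.comp (ellP d), ?_, fun w => ?_⟩
  · have hx : FP O (fun v => fst v) := FP.fst' FP.id'
    have hy : FP O (fun v => snd v) := FP.snd' FP.id'
    have h1 := FP.impT' (FP.andT' (FP.cs' (FP.zerT' hx) (FP.const' tt) FP.leaf') (hST _ hx))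
      (FP.andT' (FP.eqL' (FP.un1T' hy) (he2 O _ hx))
        (FP.qT' hRB (hPB2 O) (FP.un1T' hy) (FP.un2T' hy)))
    refine polyTimeRel_of_FP h1 (fun w c => ?_)
    simp only [fst_node, snd_node]
    rw [impT_spec, andT_spec, andT_spec, hS, eqL_spec, he1, ellP_eval, un1T_enc, un2T_enc,
      len_num, len_enc, len_enc, qT_spec hPB1, dec_enc, dec_enc, decide_eq_true_eq]
    have h2 : cs (zerT (enc w)) tt leaf ≠ leaf ↔ w = List.replicate w.length true := by
      rw [← zerT_spec]
      by_cases h : zerT (enc w) = leaf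
      · rw [cs_pos _ _ h]; simp [h]
      · rw [cs_neg _ _ h]; simp [h]
    rw [h2, imp_iff_not_or]
  · simp only [decide_eq_true_eq, Set.mem_ofPred_eq]
    constructor
    · intro hw
      by_cases hf : w = List.replicate w.length true ∧ w.length ∈ S
      · obtain ⟨x, hx1, hx2⟩ := hout w.length hf.2 (by
          rw [← hf.1]
          exact fun hwL => hw ⟨hwL, hf⟩)
        obtain ⟨c, hc1, hc2⟩ := (hBB x).mp hx2
        refine ⟨pr x c, ?_, Or.inr ?_⟩
        · rw [pr_length]
          simp only [Polynomial.eval_add, Polynomial.eval_mul, Polynomial.eval_ofNat,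
            Polynomial.eval_one, Polynomial.eval_comp, ellP_eval]
          rw [hx1] at hc1 ⊢
          omega
        · rw [un1_pr, un2_pr]
          exact ⟨hx1, hc1, hc2⟩
      · exact ⟨[], by simp, Or.inl hf⟩
    · rintro ⟨c, _, h⟩ ⟨hwL, hw1, hw2⟩
      rcases h with h | ⟨h1, h2, h3⟩
      · exact h ⟨hw1, hw2⟩
      · exact hin w.length hw2 (by rw [← hw1]; exact hwL) (un1 c) h1
          ((hBB _).mpr ⟨un2 c, h2, h3⟩)

/-- The general step down. -/
theorem down_general {W : List Bool → Set (List Bool)}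
    (hB : ∀ (R : List Bool → List Bool → Bool) (p : Polynomial ℕ), PolyTimeRel O R →
      ∃ B : Set (List Bool), InNP O B ∧ ∀ x : List Bool,
        ((∀ x' ∈ W x, ∃ y : List Bool, y.length ≤ p.eval x'.length ∧ R x' y = true) → x ∉ B) ∧
        ((∀ y : List Bool, ¬ (y.length ≤ p.eval x.length ∧ R x y = true)) → x ∈ B))
    {S : Set ℕ} {ST : Tr → Tr} (hS : ∀ v, ST v ≠ leaf ↔ len v ∈ S)
    (hST : ∀ F, FP O F → FP O (fun v => ST (F v)))
    (hW : ∃ d0, ∀ d, d0 ≤ d → ∀ n ∈ S, ∀ n' ∈ S, ∀ x x' : List Bool, x.length = ell d n →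
      x'.length = ell d n' → x' ∈ W x → n' = n)
    {L : Set (List Bool)} (hLS : ∀ w ∈ L, ∃ n ∈ S, w = List.replicate n true)
    (hL : InPi2 O L) : InNP O Lᶜ := by
  have h1 := down_core hB hS hST hW hL
  have e : Lᶜ = {w | ¬ (w ∈ L ∧ w = List.replicate w.length true ∧ w.length ∈ S)} := by
    ext w
    simp only [Set.mem_compl_iff, Set.mem_ofPred_eq]
    constructor
    · intro h2 h3
      exact h2 h3.1
    · intro h2 h3
      obtain ⟨n, hn, rfl⟩ := hLS w h3
      exact h2 ⟨h3, by rw [List.length_replicate], by rw [List.length_replicate]; exact hn⟩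
  rw [e]
  exact h1

/-- windows are the strings of the same length -/
theorem down_length (hB : ∀ (R : List Bool → List Bool → Bool) (p : Polynomial ℕ),
      PolyTimeRel O R → ∃ B : Set (List Bool), InNP O B ∧ ∀ x : List Bool,
        ((∀ x' : List Bool, x'.length = x.length →
          ∃ y : List Bool, y.length ≤ p.eval x'.length ∧ R x' y = true) → x ∉ B) ∧
        ((∀ y : List Bool, ¬ (y.length ≤ p.eval x.length ∧ R x y = true)) → x ∈ B))
    {L : Set (List Bool)} (hLS : ∀ w ∈ L, ∃ n : ℕ, w = List.replicate n true)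
    (hL : InPi2 O L) : InNP O Lᶜ := by
  refine down_general (W := fun x => {x' | x'.length = x.length}) hB (S := Set.univ)
    (ST := fun _ => tt) (fun v => by simp) (fun F hF => FP.const' tt)
    ⟨1, fun d hd n _ n' _ x x' hx hx' hxx => ?_⟩ (fun w hw => ?_) hL
  · apply (ell_strictMono (d := d) (by omega)).injective
    rw [← hx, ← hx']
    exact hxx
  · obtain ⟨n, hn⟩ := hLS w hw
    exact ⟨n, trivial, hn⟩

/-- windows are the strings of the same length, up to a constant factor -/
theorem down_factor (C : ℕ) (hB : ∀ (R : List Bool → List Bool → Bool) (p : Polynomial ℕ),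
      PolyTimeRel O R → ∃ B : Set (List Bool), InNP O B ∧ ∀ x : List Bool,
        ((∀ x' : List Bool, x.length ≤ C * x'.length → x'.length ≤ C * x.length →
          ∃ y : List Bool, y.length ≤ p.eval x'.length ∧ R x' y = true) → x ∉ B) ∧
        ((∀ y : List Bool, ¬ (y.length ≤ p.eval x.length ∧ R x y = true)) → x ∈ B))
    {L : Set (List Bool)} (hLS : ∀ w ∈ L, ∃ i : ℕ, w = List.replicate (2 ^ i) true)
    (hL : InPi2 O L) : InNP O Lᶜ := by
  obtain ⟨d0, hd0⟩ := ell_far C
  refine down_general (W := fun x => {x' | x.length ≤ C * x'.length ∧ x'.length ≤ C * x.length})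
    (fun R p hR => ?_) (S := {n | ∃ i, n = 2 ^ i}) (ST := p2T) (fun v => p2T_spec v)
    (fun F hF => FP.p2T' hF) ⟨d0, fun d hd n hn n' hn' x x' hx hx' hxx => ?_⟩ (fun w hw => ?_) hL
  · obtain ⟨B, h1, h2⟩ := hB R p hR
    exact ⟨B, h1, fun x => ⟨fun h => (h2 x).1 (fun x' h3 h4 => h x' ⟨h3, h4⟩), (h2 x).2⟩⟩
  · obtain ⟨i, rfl⟩ := hn
    obtain ⟨j, rfl⟩ := hn'
    obtain ⟨h1, h2⟩ := hxx
    rw [hx, hx'] at h1 h2
    rcases lt_trichotomy i j with h | h | h
    · have := hd0 d hd i j h
      omega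
    · rw [h]
    · have := hd0 d hd j i h
      omega
  · obtain ⟨i, hi⟩ := hLS w hw
    exact ⟨2 ^ i, ⟨i, rfl⟩, hi⟩

end Pool.Agent.H40.EL
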