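import Pool.Agent.H65.NU.Pair

set_option autoImplicit false

/-!
# The clocked universal machine is monotone in the clock
-/

namespace Pool.Agent.H40.EL

open Pool.Agent.H88.RO Pool.Agent.H88.RO.Tr Pool.Agent.H65.TS Pool.Agent.H65.NU

variable {O : List Bool → Bool}

theorem cstep_iter_leaf (K n : ℕ) : (cstep O K)^[n] leaf = leaf := by
  induction n with
  | zero => rfl
  | succ n ih =>
    rw [Function.iterate_succ_apply]
    have : cstep O K leaf = leaf := by
      unfold cstep
      split_ifs
      · simp [step]
      · rfl
    rw [this, ih]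

theorem cstep_iter_mono {K K' : ℕ} (hK : K ≤ K') (n : ℕ) : ∀ s : Tr,
    (cstep O K)^[n] s ≠ leaf → (cstep O K')^[n] s = (cstep O K)^[n] s := by
  induction n with
  | zero => intro s _; rfl
  | succ n ih =>
    intro s hs
    rw [Function.iterate_succ_apply] at hs ⊢
    rw [Function.iterate_succ_apply]
    by_cases h : size s ≤ K
    · have e1 : cstep O K s = step O s := by rw [cstep, if_pos h]
      have e2 : cstep O K' s = step O s := by rw [cstep, if_pos (h.trans hK)]
      rw [e1] at hs
      rw [e1, e2]
      exact ih _ hs
    · exfalso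
      apply hs
      have e1 : cstep O K s = leaf := by rw [cstep, if_neg h]
      rw [e1, cstep_iter_leaf]

/-- The clocked universal machine is monotone in the clock. -/
theorem U_mono {K K' : ℕ} (hK : K ≤ K') {c v w : Tr} (h : U O c v K = node leaf w) :
    U O c v K' = node leaf w := by
  unfold U at h ⊢
  set s := (cstep O K)^[K] (node c (node v leaf)) with hs
  have hsl : s ≠ leaf := by
    intro h0
    rw [h0] at h
    unfold out at h
    split_ifs at h with h1 h2
    exact h2 rfl
  have e1 := cstep_iter_mono (O := O) hK K (node c (node v leaf)) hsl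
  rw [← hs] at e1
  unfold out at h
  split_ifs at h with h1 h2 h3
  have hstep : step O s = s := by rw [step, if_pos h2, if_pos h3]
  have hfix : ∀ m, (cstep O K')^[m] s = s := by
    intro m
    induction m with
    | zero => rfl
    | succ m ih =>
      rw [Function.iterate_succ_apply']
      rw [ih, cstep, if_pos (h1.trans hK), hstep]
  obtain ⟨m, rfl⟩ : ∃ m, K' = m + K := ⟨K' - K, by omega⟩
  rw [Function.iterate_add_apply, e1, hfix, out, if_pos (h1.trans hK), if_neg hsl, if_pos h2,
    if_pos h3]
  exact h

/-- every relation computable in polynomial time, with a polynomial bound on the solutions, is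
computed by a numbered machine; too small clocks do no harm -/
theorem exists_index_mono {R : List Bool → List Bool → Bool} (hR : PolyTimeRel O R)
    (p : Polynomial ℕ) : ∃ (i : ℕ) (k : Polynomial ℕ),
      (∀ (K : ℕ) (x y : List Bool), Usol O i K K x y →
        y.length ≤ p.eval x.length ∧ R x y = true) ∧
      ∀ (K : ℕ) (x y : List Bool), k.eval x.length ≤ K →
        y.length ≤ p.eval x.length → R x y = true → Usol O i K K x y := by
  obtain ⟨P, hP1, hP2⟩ := exists_polyT p
  have hR' : PolyTimeRel O (fun x y => decide (y.length ≤ p.eval x.length ∧ R x y = true)) := by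
    have hx : FP O (fun v => fst v) := FP.fst' FP.id'
    have hy : FP O (fun v => snd v) := FP.snd' FP.id'
    refine polyTimeRel_of_FP (FP.qT' hR (hP2 O) hx hy) (fun x y => ?_)
    rw [fst_node, snd_node, qT_spec hP1, dec_enc, dec_enc, decide_eq_true_eq]
  obtain ⟨i, k, hik⟩ := exists_index_rel hR'
  refine ⟨i, p + k.comp (Polynomial.X + p), fun K x y h => ?_, fun K x y hK hy hxy => ?_⟩
  · obtain ⟨_, h2⟩ := h
    rcases U_cases (O := O) (mach i) (node (enc x) (enc y)) K with h3 | ⟨w, h3⟩
    · rw [h3] at h2
      exact absurd rfl h2
    · have h4 := U_mono (le_max_left K (k.eval (x.length + y.length))) h3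
      have h5 := (hik x y _ (le_max_right K (k.eval (x.length + y.length)))).mp (by
        rw [h4]
        rw [h3] at h2
        exact h2)
      rw [decide_eq_true_eq] at h5
      exact h5
  · simp only [Polynomial.eval_add, Polynomial.eval_comp, Polynomial.eval_X] at hK
    refine ⟨by omega, (hik x y K ?_).mpr ?_⟩
    · have := poly_mono k (show x.length + y.length ≤ x.length + p.eval x.length by omega)
      omega
    · rw [decide_eq_true_eq]
      exact ⟨hy, hxy⟩

end Pool.Agent.H40.EL
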