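import Pool.Agent.H13.EL.Orb

set_option autoImplicit false

/-!
# Examples of nice growth functions: `n + 1`, `c n`, `n ^ k`
-/

namespace Pool.Agent.H40.EL

open Pool.Agent.H88.RO Pool.Agent.H88.RO.Tr Pool.Agent.H65.TS Pool.Agent.H65.NU
open Pool.Agent.H13.EL

variable {O : List Bool → Bool}

theorem polyTime_ones (p : Polynomial ℕ) :
    PolyTimeFun O (fun x => List.replicate (p.eval x.length) true) := by
  obtain ⟨P, hP1, hP2⟩ := exists_polyT p
  refine polyTimeFun_of_FP (F := fun v => onesPre (P v) leaf)
    (FP.onesPre' (hP2 O _ FP.id') FP.leaf') (fun x => ?_)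
  rw [onesPre_leaf, hP1, len_num, len_enc]

/-- The growth function `n + 1`. -/
theorem nice_succ : Nice O (fun n => n + 1) where
  mono := fun a b h => Nat.add_le_add_right h 1
  lt := fun n _ => Nat.lt_succ_self n
  pow := by
    intro n d _ hd
    obtain ⟨d, rfl⟩ : ∃ e, d = e + 1 := ⟨d - 1, by omega⟩
    clear hd
    show n ^ (d + 1) + 1 ≤ (n + 1) ^ (d + 1)
    induction d with
    | zero => simp
    | succ d ih =>
      have e1 : n ^ (d + 1 + 1) = n ^ (d + 1) * n := pow_succ _ _
      have e2 : (n + 1) ^ (d + 1 + 1) = (n + 1) ^ (d + 1) * (n + 1) := pow_succ _ _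
      rw [e1, e2]
      have h1 := Nat.mul_le_mul_right (n + 1) ih
      have h2 : (n ^ (d + 1) + 1) * (n + 1) = n ^ (d + 1) * n + n ^ (d + 1) + n + 1 := by ring
      omega
  polyTime := by
    have h := polyTime_ones (O := O) (Polynomial.X + 1)
    refine Eq.mp ?_ h
    congr 1
    funext x
    simp

/-- The growth functions `c n` for `c ≥ 2`. -/
theorem nice_mul {c : ℕ} (hc : 2 ≤ c) : Nice O (fun n => c * n) where
  mono := fun a b h => Nat.mul_le_mul_left c h
  lt := fun n hn => by
    show n < c * n
    have := Nat.mul_le_mul_right n hc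
    omega
  pow := by
    intro n d _ hd
    show c * n ^ d ≤ (c * n) ^ d
    rw [mul_pow]
    exact Nat.mul_le_mul_right _ (Nat.le_self_pow (by omega) c)
  polyTime := by
    have h := polyTime_ones (O := O) (Polynomial.C c * Polynomial.X)
    refine Eq.mp ?_ h
    congr 1
    funext x
    simp

/-- The growth functions `n ^ k` for `k ≥ 2`. -/
theorem nice_pow {k : ℕ} (hk : 2 ≤ k) : Nice O (fun n => n ^ k) where
  mono := fun a b h => Nat.pow_le_pow_left h k
  lt := fun n hn => by
    show n < n ^ k
    calc n = n ^ 1 := (pow_one n).symm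
      _ < n ^ k := Nat.pow_lt_pow_right (by omega) (by omega)
  pow := by
    intro n d _ _
    show (n ^ d) ^ k ≤ (n ^ k) ^ d
    rw [← pow_mul, ← pow_mul, mul_comm]
  polyTime := by
    have h := polyTime_ones (O := O) (Polynomial.X ^ k)
    refine Eq.mp ?_ h
    congr 1
    funext x
    simp

/-- The windows for `n + 1` are the strings of the same length. -/
theorem window_succ (x : List Bool) : window (fun n => n + 1) x = sameLength x := by
  ext x'
  simp only [window, sameLength, Set.mem_ofPred_eq]
  omega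

theorem iterate_succ_two (i : ℕ) : (fun n => n + 1)^[i] 2 = i + 2 := by
  induction i with
  | zero => rfl
  | succ i ih => rw [Function.iterate_succ_apply', ih]

theorem iterate_two_mul (i : ℕ) : (fun n => 2 * n)^[i] 2 = 2 ^ (i + 1) := by
  induction i with
  | zero => rfl
  | succ i ih => rw [Function.iterate_succ_apply', ih, pow_succ 2 (i + 1), mul_comm]

theorem iterate_sq (i : ℕ) : (fun n => n ^ 2)^[i] 2 = 2 ^ 2 ^ i := by
  induction i with
  | zero => rfl
  | succ i ih => rw [Function.iterate_succ_apply', ih, ← pow_mul, ← pow_succ]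

/-- The slowness condition holds for `n + 1` and `2 n`. -/
theorem slow_succ (i : ℕ) : (fun n => n + 1)^[2 * i] 2 ≤ ((fun n => n + 1)^[i] 2) ^ 2 := by
  rw [iterate_succ_two, iterate_succ_two]
  nlinarith

theorem slow_two_mul (i : ℕ) : (fun n => 2 * n)^[2 * i] 2 ≤ ((fun n => 2 * n)^[i] 2) ^ 2 := by
  rw [iterate_two_mul, iterate_two_mul, ← pow_mul]
  exact Nat.pow_le_pow_right (by norm_num) (by omega)

end Pool.Agent.H40.EL
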