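import Pool.Agent.H40.EL.Clock
import Pool.Agent.H40.EL.Down
import Pool.Agent.H65.TS.Self

set_option autoImplicit false

/-!
# From sets in coNP to a problem which is complete for windows
-/

namespace Pool.Agent.H40.EL

open Pool.Agent.H88.RO Pool.Agent.H88.RO.Tr Pool.Agent.H65.TS Pool.Agent.H65.NU

variable {O : List Bool → Bool}

open Classical in
/-- A polynomial time relation `V` which has solutions at every `z` with `c z ∈ L`, where the
complement of `L` is in NP, gives a total problem. -/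
theorem exists_TFNP {V : List Bool → List Bool → Bool} (hV : PolyTimeRel O V)
    (pV : Polynomial ℕ) {c : List Bool → List Bool} {cT : Tr → Tr}
    (hc : ∀ z, cT (enc z) = enc (c z)) (hcT : ∀ F, FP O F → FP O (fun v => cT (F v)))
    {L : Set (List Bool)} (hL : InNP O Lᶜ)
    (hLV : ∀ z, c z ∈ L → ∃ y : List Bool, y.length ≤ pV.eval z.length ∧ V z y = true) :
    ∃ T : TFNP O, ∀ z y : List Bool, T.IsSol z y → c z ∈ L →
      y.tail.length ≤ pV.eval z.length ∧ V z y.tail = true := by
  obtain ⟨R, p, hR, hLR⟩ := hL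
  obtain ⟨P1, h11, h12⟩ := exists_polyT pV
  obtain ⟨P2, h21, h22⟩ := exists_polyT p
  -- the program
  let prog : Tr → Tr → Tr := fun z y =>
    cs y leaf (cs (fst y) (qT V P1 z (snd y)) (qT R P2 (cT z) (snd y)))
  have hprog : ∀ z y : List Bool, prog (enc z) (enc y) ≠ leaf ↔
      ∃ b y', y = b :: y' ∧ ((b = false ∧ y'.length ≤ pV.eval z.length ∧ V z y' = true) ∨
        (b = true ∧ y'.length ≤ p.eval (c z).length ∧ R (c z) y' = true)) := by
    intro z y
    show cs (enc y) leaf (cs (fst (enc y)) (qT V P1 (enc z) (snd (enc y)))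
      (qT R P2 (cT (enc z)) (snd (enc y)))) ≠ leaf ↔ _
    cases y with
    | nil => simp [enc]
    | cons b y =>
      rw [cs_neg _ _ (by simp [enc]), ex_cons]
      have e1 : fst (enc (b :: y)) = bit b := rfl
      have e2 : snd (enc (b :: y)) = enc y := rfl
      rw [e1, e2]
      cases b with
      | false =>
        rw [bit_false, cs_leaf, qT_spec h11, dec_enc, dec_enc]
        simp
      | true =>
        rw [bit_true, cs_tt, hc, qT_spec h21, dec_enc, dec_enc]
        simp
  have hFP : FP O (fun v => prog (fst v) (snd v)) := by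
    have hz : FP O (fun v => fst v) := FP.fst' FP.id'
    have hy : FP O (fun v => snd v) := FP.snd' FP.id'
    exact FP.cs' hy FP.leaf' (FP.cs' (FP.fst' hy) (FP.qT' hV (h12 O) hz (FP.snd' hy))
      (FP.qT' hR (h22 O) (hcT _ hz) (FP.snd' hy)))
  -- the length of `c z`
  obtain ⟨qc, hqc⟩ := (hcT _ FP.id').size_bound
  have hcl : ∀ z : List Bool, (c z).length ≤ (qc.comp (4 * Polynomial.X + 1)).eval z.length := by
    intro z
    have h1 := hqc (enc z)
    rw [hc] at h1
    have h2 := len_le_size (enc (c z))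
    rw [len_enc] at h2
    have h3 := poly_mono qc (size_enc_le z)
    simp only [Polynomial.eval_comp, Polynomial.eval_add, Polynomial.eval_mul,
      Polynomial.eval_ofNat, Polynomial.eval_X, Polynomial.eval_one]
    omega
  let T : TFNP O :=
    { R := fun z y => decide (prog (enc z) (enc y) ≠ leaf)
      p := pV + p.comp (qc.comp (4 * Polynomial.X + 1)) + 1
      polyTime := polyTimeRel_of_FP hFP (fun z y => by
        rw [decide_eq_true_eq, fst_node, snd_node])
      total := by
        intro z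
        simp only [decide_eq_true_eq, hprog]
        rw [Polynomial.eval_add, Polynomial.eval_add, Polynomial.eval_one, Polynomial.eval_comp]
        by_cases hz : c z ∈ L
        · obtain ⟨y, hy1, hy2⟩ := hLV z hz
          refine ⟨false :: y, ?_, false, y, rfl, Or.inl ⟨rfl, hy1, hy2⟩⟩
          rw [List.length_cons]
          omega
        · obtain ⟨y, hy1, hy2⟩ := (hLR (c z)).mp hz
          refine ⟨true :: y, ?_, true, y, rfl, Or.inr ⟨rfl, hy1, hy2⟩⟩
          rw [List.length_cons]
          have := poly_mono p (hcl z)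
          omega }
  refine ⟨T, fun z y hy hz => ?_⟩
  have h1 : prog (enc z) (enc y) ≠ leaf := of_decide_eq_true hy.2
  obtain ⟨b, y', rfl, h2⟩ := (hprog z y).mp h1
  rw [List.tail_cons]
  rcases h2 with ⟨_, h2⟩ | ⟨_, h2⟩
  · exact h2
  · exact absurd hz ((hLR (c z)).mpr ⟨y', h2⟩)

section

variable (S : Set ℕ) (va : ℕ → ℕ → ℕ → ℕ → Prop) (cd : ℕ → ℕ → ℕ → ℕ → ℕ)

/-- the numbers of the total machines -/
def TotS (O : List Bool → Bool) : Set (List Bool) :=
  {w | (w = List.replicate w.length true ∧ w.length ∈ S) ∧ ∀ (K s i : ℕ) (x : List Bool),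
    va K s i x.length → cd K s i x.length = w.length → ∃ y, Usol O i K K x y}

/-- the code of an instance -/
def cdz (z : List Bool) : ℕ := cd (zK z) (zN z) (zi z) (zx z).length
/-- the validity of an instance -/
def vaz (z : List Bool) : Prop := va (zK z) (zN z) (zi z) (zx z).length

end

open Classical in
theorem inPi2_TotS {S : Set ℕ} {ST : Tr → Tr} (hS : ∀ v, ST v ≠ leaf ↔ len v ∈ S)
    (hST : ∀ F, FP O F → FP O (fun v => ST (F v)))
    {va : ℕ → ℕ → ℕ → ℕ → Prop} {vaT : Tr → Tr → Tr → Tr → Tr}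
    (hva : ∀ K s i n, vaT K s i n ≠ leaf ↔ va (len K) (len s) (len i) (len n))
    (hvaT : ∀ F G H J, FP O F → FP O G → FP O H → FP O J →
      FP O (fun v => vaT (F v) (G v) (H v) (J v)))
    {cd : ℕ → ℕ → ℕ → ℕ → ℕ} {cdT : Tr → Tr → Tr → Tr → Tr}
    (hcd : ∀ K s i n, cdT K s i n = num (cd (len K) (len s) (len i) (len n)))
    (hcdT : ∀ F G H J, FP O F → FP O G → FP O H → FP O J →
      FP O (fun v => cdT (F v) (G v) (H v) (J v)))
    (hb : ∀ K s i n, va K s i n → K + s + i + n ≤ 4 * cd K s i n) :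
    InPi2 O (TotS S va cd O) := by
  refine ⟨{v | ¬ (un1 v = List.replicate (un1 v).length true ∧ (un1 v).length ∈ S) ∨
    (vaz va (un2 v) ∧ cdz cd (un2 v) = (un1 v).length ∧
      ∀ y, ¬ Usol O (zi (un2 v)) (zK (un2 v)) (zK (un2 v)) (zx (un2 v)) y)},
    4 * Polynomial.X + 3, ?_, fun w => ?_⟩
  · refine ⟨fun v y => decide ((un1 v = List.replicate (un1 v).length true ∧
      (un1 v).length ∈ S) ∧ (vaz va (un2 v) ∧ cdz cd (un2 v) = (un1 v).length →
        Usol O (zi (un2 v)) (zK (un2 v)) (zK (un2 v)) (zx (un2 v)) y)), Polynomial.X, ?_,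
        fun v => ?_⟩
    · have hv : FP O (fun v => fst v) := FP.fst' FP.id'
      have hy : FP O (fun v => snd v) := FP.snd' FP.id'
      have hw := FP.un1T' hv
      have hu := FP.un2T' hv
      have hK := FP.tK' hu
      have hN := FP.tN' hu
      have hi := FP.ti' hu
      have hx := FP.tx' hu
      have h1 := FP.andT' (FP.andT' (FP.cs' (FP.zerT' hw) (FP.const' tt) FP.leaf') (hST _ hw))
        (FP.impT' (FP.andT' (hvaT _ _ _ _ hK hN hi hx) (FP.eqL' (hcdT _ _ _ _ hK hN hi hx) hw))
          (FP.usT' hi hK hK hx hy))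
      refine polyTimeRel_of_FP h1 (fun v y => ?_)
      simp only [fst_node, snd_node]
      rw [decide_eq_true_eq, andT_spec, andT_spec, impT_spec, andT_spec]
      rw [un1T_enc, un2T_enc, tK_enc, tN_enc, ti_enc, tx_enc]
      rw [hS, hva, eqL_spec, hcd, usT_spec]
      simp only [len_num, len_enc]
      have h2 : cs (zerT (enc (un1 v))) tt leaf ≠ leaf ↔
          un1 v = List.replicate (un1 v).length true := by
        rw [← zerT_spec]
        by_cases h : zerT (enc (un1 v)) = leaf
        · rw [cs_pos _ _ h]; simp [h]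
        · rw [cs_neg _ _ h]; simp [h]
      rw [h2]
      exact Iff.rfl
    · simp only [Polynomial.eval_X, decide_eq_true_eq, Set.mem_compl_iff, Set.mem_ofPred_eq]
      constructor
      · intro h
        push Not at h
        obtain ⟨h1, h2⟩ := h
        by_cases h3 : vaz va (un2 v) ∧ cdz cd (un2 v) = (un1 v).length
        · obtain ⟨y, hy⟩ := h2 h3.1 h3.2
          refine ⟨y, ?_, h1, fun _ => hy⟩
          have h4 := hy.1
          have h5 := z_le (un2 v)
          have h6 := un2_length v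
          omega
        · exact ⟨[], by simp, h1, fun h4 => absurd h4 h3⟩
      · rintro ⟨y, _, h1, h2⟩ h3
        rcases h3 with h3 | ⟨h3, h4, h5⟩
        · exact h3 h1
        · exact h5 y (h2 ⟨h3, h4⟩)
  · simp only [Set.mem_compl_iff, Set.mem_ofPred_eq, un1_pr, un2_pr, TotS]
    simp only [Polynomial.eval_add, Polynomial.eval_mul, Polynomial.eval_ofNat,
      Polynomial.eval_X]
    constructor
    · intro h
      by_cases h1 : w = List.replicate w.length true ∧ w.length ∈ S
      · have h2 : ∃ (K s i : ℕ) (x : List Bool), va K s i x.length ∧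
            cd K s i x.length = w.length ∧ ∀ y, ¬ Usol O i K K x y := by
          by_contra hcon
          push Not at hcon
          exact h ⟨h1, hcon⟩
        obtain ⟨K, s, i, x, h3, h4, h5⟩ := h2
        refine ⟨ins K s i x, ?_, Or.inr ⟨?_, ?_, ?_⟩⟩
        · rw [ins_length]
          have := hb K s i x.length h3
          omega
        · unfold vaz
          simp only [zK_ins, zN_ins, zi_ins, zx_ins]
          exact h3
        · unfold cdz
          simp only [zK_ins, zN_ins, zi_ins, zx_ins]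
          exact h4
        · simp only [zK_ins, zi_ins, zx_ins]
          exact h5
      · exact ⟨[], by simp, Or.inl h1⟩
    · rintro ⟨u, _, h1⟩ ⟨h2, h3⟩
      rcases h1 with h1 | ⟨h4, h5, h6⟩
      · exact h1 h2
      · obtain ⟨y, hy⟩ := h3 _ _ _ _ h4 h5
        exact h6 y hy

open Classical in
/-- The core of the step up: one total problem for all machines `i` and parameters `s` for
which there are clocks `Kf`. -/
theorem up_core {S : Set ℕ} {ST : Tr → Tr} (hS : ∀ v, ST v ≠ leaf ↔ len v ∈ S)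
    (hST : ∀ F, FP O F → FP O (fun v => ST (F v)))
    {va : ℕ → ℕ → ℕ → ℕ → Prop} {vaT : Tr → Tr → Tr → Tr → Tr}
    (hva : ∀ K s i n, vaT K s i n ≠ leaf ↔ va (len K) (len s) (len i) (len n))
    (hvaT : ∀ F G H J, FP O F → FP O G → FP O H → FP O J →
      FP O (fun v => vaT (F v) (G v) (H v) (J v)))
    {cd : ℕ → ℕ → ℕ → ℕ → ℕ} {cdT : Tr → Tr → Tr → Tr → Tr}
    (hcd : ∀ K s i n, cdT K s i n = num (cd (len K) (len s) (len i) (len n)))
    (hcdT : ∀ F G H J, FP O F → FP O G → FP O H → FP O J →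
      FP O (fun v => cdT (F v) (G v) (H v) (J v)))
    (hb : ∀ K s i n, va K s i n → K + s + i + n ≤ 4 * cd K s i n)
    (hcS : ∀ K s i n, va K s i n → cd K s i n ∈ S)
    {Wn : ℕ → ℕ → ℕ → ℕ → Prop}
    (hinj : ∀ K s i n K' s' i' n', va K s i n → va K' s' i' n' →
      cd K s i n = cd K' s' i' n' → K = K' ∧ i = i' ∧ Wn s i n n')
    (h : ∀ L : Set (List Bool), (∀ w ∈ L, ∃ n ∈ S, w = List.replicate n true) →
      InPi2 O L → InNP O Lᶜ) :
    ∃ T : TFNP O, ∀ (R : List Bool → List Bool → Bool) (p : Polynomial ℕ) (i : ℕ)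
      (k : Polynomial ℕ),
      (∀ (K : ℕ) (x y : List Bool), Usol O i K K x y → y.length ≤ p.eval x.length ∧ R x y = true) →
      (∀ (K : ℕ) (x y : List Bool), k.eval x.length ≤ K →
        y.length ≤ p.eval x.length → R x y = true → Usol O i K K x y) →
      ∀ (s : ℕ) (Kf : ℕ → ℕ) (KT : Tr → Tr),
      (∀ v, KT v = num (Kf (len v))) → (∀ F, FP O F → FP O (fun v => KT (F v))) →
      (∀ n, va (Kf n) s i n ∧ ∀ s' n', va (Kf n) s' i n' →
        cd (Kf n) s i n = cd (Kf n) s' i n' → k.eval n' ≤ Kf n) →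
      ∃ (f : List Bool → List Bool) (g : List Bool → List Bool → List Bool),
        PolyTimeFun O f ∧ PolyTimeFun₂ O g ∧ ∀ x : List Bool,
        (∀ x' : List Bool, Wn s i x.length x'.length →
          ∃ y : List Bool, y.length ≤ p.eval x'.length ∧ R x' y = true) →
        ∀ y, T.IsSol (f x) y → (g x y).length ≤ p.eval x.length ∧ R x (g x y) = true := by
  have hLc := h (TotS S va cd O)
    (fun w hw => ⟨w.length, hw.1.2, hw.1.1⟩) (inPi2_TotS hS hST hva hvaT hcd hcdT hb)
  -- the relation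
  have hV : PolyTimeRel O (fun z y => decide (vaz va z → Usol O (zi z) (zK z) (zK z) (zx z) y)) := by
    have hz : FP O (fun v => fst v) := FP.fst' FP.id'
    have hy : FP O (fun v => snd v) := FP.snd' FP.id'
    have h1 := FP.impT' (hvaT _ _ _ _ (FP.tK' hz) (FP.tN' hz) (FP.ti' hz) (FP.tx' hz))
      (FP.usT' (FP.ti' hz) (FP.tK' hz) (FP.tK' hz) (FP.tx' hz) hy)
    refine polyTimeRel_of_FP h1 (fun z y => ?_)
    simp only [fst_node, snd_node]
    rw [decide_eq_true_eq, impT_spec, tK_enc, tN_enc, ti_enc, tx_enc, hva, usT_spec]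
    simp only [len_num, len_enc]
    exact Iff.rfl
  -- the code
  obtain ⟨T, hT⟩ := exists_TFNP (c := fun z => List.replicate (cdz cd z) true)
    (cT := fun z => onesPre (cdT (tK z) (tN z) (ti z) (tx z)) leaf) hV Polynomial.X
    (fun z => by
      simp only [tK_enc, tN_enc, ti_enc, tx_enc]
      rw [onesPre_leaf, hcd]
      simp only [len_num, len_enc]
      rfl)
    (fun F hF => FP.onesPre' (hcdT _ _ _ _ (FP.tK' hF) (FP.tN' hF) (FP.ti' hF) (FP.tx' hF))
      FP.leaf') hLc
    (fun z hz => by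
      by_cases hvz : vaz va z
      · obtain ⟨y, hy⟩ := hz.2 (zK z) (zN z) (zi z) (zx z) hvz (by
          rw [List.length_replicate]; rfl)
        refine ⟨y, ?_, by rw [decide_eq_true_eq]; exact fun _ => hy⟩
        rw [Polynomial.eval_X]
        have h1 := hy.1
        have h2 := z_le z
        omega
      · exact ⟨[], by simp, by rw [decide_eq_true_eq]; exact fun h' => absurd h' hvz⟩)
  refine ⟨T, fun R p i k hsnd hcmp s Kf KT hK1 hK2 hK3 => ?_⟩
  refine ⟨fun x => ins (Kf x.length) s i x, fun _ y => y.tail, ?_, ?_, fun x hx y hy => ?_⟩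
  · refine polyTimeFun_of_FP (F := fun v => insT (KT v) (num s) (num i) v)
      (FP.insT' (hK2 _ FP.id') (FP.const' _) (FP.const' _) FP.id') (fun x => ?_)
    rw [insT_eq, hK1, len_num, len_num, len_num, len_enc]
  · exact polyTimeFun₂_of_FP (F := fun v => snd (snd v)) (FP.snd' (FP.snd' FP.id'))
      (fun x y => by rw [snd_node, snd_enc])
  · obtain ⟨h1, h2⟩ := hK3 x.length
    have hmem : List.replicate (cdz cd (ins (Kf x.length) s i x)) true ∈ TotS S va cd O := by
      have e : cdz cd (ins (Kf x.length) s i x) = cd (Kf x.length) s i x.length := by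
        unfold cdz
        simp only [zK_ins, zN_ins, zi_ins, zx_ins]
      rw [e]
      refine ⟨⟨by rw [List.length_replicate], by
        rw [List.length_replicate]; exact hcS _ _ _ _ h1⟩, fun K s' i' x' h3 h4 => ?_⟩
      rw [List.length_replicate] at h4
      obtain ⟨rfl, rfl, h5⟩ := hinj _ _ _ _ _ _ _ _ h1 h3 h4.symm
      obtain ⟨y', hy1, hy2⟩ := hx x' h5
      exact ⟨y', hcmp _ _ _ (h2 s' _ h3 h4.symm) hy1 hy2⟩
    obtain ⟨_, h4⟩ := hT _ y hy hmem
    rw [decide_eq_true_eq] at h4
    have h5 := h4 (by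
      unfold vaz
      simp only [zK_ins, zN_ins, zi_ins, zx_ins]
      exact h1)
    simp only [zK_ins, zi_ins, zx_ins] at h5
    exact hsnd _ _ _ h5

/-- The general step up. -/
theorem up_general {S : Set ℕ} {ST : Tr → Tr} (hS : ∀ v, ST v ≠ leaf ↔ len v ∈ S)
    (hST : ∀ F, FP O F → FP O (fun v => ST (F v)))
    {va : ℕ → ℕ → ℕ → ℕ → Prop} {vaT : Tr → Tr → Tr → Tr → Tr}
    (hva : ∀ K s i n, vaT K s i n ≠ leaf ↔ va (len K) (len s) (len i) (len n))
    (hvaT : ∀ F G H J, FP O F → FP O G → FP O H → FP O J →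
      FP O (fun v => vaT (F v) (G v) (H v) (J v)))
    {cd : ℕ → ℕ → ℕ → ℕ → ℕ} {cdT : Tr → Tr → Tr → Tr → Tr}
    (hcd : ∀ K s i n, cdT K s i n = num (cd (len K) (len s) (len i) (len n)))
    (hcdT : ∀ F G H J, FP O F → FP O G → FP O H → FP O J →
      FP O (fun v => cdT (F v) (G v) (H v) (J v)))
    (hb : ∀ K s i n, va K s i n → K + s + i + n ≤ 4 * cd K s i n)
    (hcS : ∀ K s i n, va K s i n → cd K s i n ∈ S)
    {Wn : ℕ → ℕ → Prop}
    (hinj : ∀ K s i n K' s' i' n', va K s i n → va K' s' i' n' →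
      cd K s i n = cd K' s' i' n' → K = K' ∧ i = i' ∧ Wn n n')
    (hex : ∀ (i : ℕ) (k : Polynomial ℕ), ∃ (s : ℕ) (Kf : ℕ → ℕ) (KT : Tr → Tr),
      (∀ v, KT v = num (Kf (len v))) ∧ (∀ F, FP O F → FP O (fun v => KT (F v))) ∧
      ∀ n, va (Kf n) s i n ∧ ∀ s' n', va (Kf n) s' i n' →
        cd (Kf n) s i n = cd (Kf n) s' i n' → k.eval n' ≤ Kf n)
    (h : ∀ L : Set (List Bool), (∀ w ∈ L, ∃ n ∈ S, w = List.replicate n true) →
      InPi2 O L → InNP O Lᶜ) :
    ∃ T : TFNP O, ∀ (R : List Bool → List Bool → Bool) (p : Polynomial ℕ), PolyTimeRel O R →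
      ∃ (f : List Bool → List Bool) (g : List Bool → List Bool → List Bool),
        PolyTimeFun O f ∧ PolyTimeFun₂ O g ∧ ∀ x : List Bool,
        (∀ x' : List Bool, Wn x.length x'.length →
          ∃ y : List Bool, y.length ≤ p.eval x'.length ∧ R x' y = true) →
        ∀ y, T.IsSol (f x) y → (g x y).length ≤ p.eval x.length ∧ R x (g x y) = true := by
  obtain ⟨T, hT⟩ := up_core hS hST hva hvaT hcd hcdT hb hcS (Wn := fun _ _ => Wn) hinj h
  refine ⟨T, fun R p hR => ?_⟩
  obtain ⟨i, k, hsnd, hcmp⟩ := exists_index_mono hR p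
  obtain ⟨s, Kf, KT, hK1, hK2, hK3⟩ := hex i k
  exact hT R p i k hsnd hcmp s Kf KT hK1 hK2 hK3

/-- windows are the strings of the same length -/
theorem up_length (h : ∀ L : Set (List Bool), (∀ w ∈ L, ∃ n : ℕ, w = List.replicate n true) →
      InPi2 O L → InNP O Lᶜ) :
    ∃ T : TFNP O, ∀ (R : List Bool → List Bool → Bool) (p : Polynomial ℕ), PolyTimeRel O R →
      ∃ (f : List Bool → List Bool) (g : List Bool → List Bool → List Bool),
        PolyTimeFun O f ∧ PolyTimeFun₂ O g ∧ ∀ x : List Bool,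
        (∀ x' : List Bool, x'.length = x.length →
          ∃ y : List Bool, y.length ≤ p.eval x'.length ∧ R x' y = true) →
        ∀ y, T.IsSol (f x) y → (g x y).length ≤ p.eval x.length ∧ R x (g x y) = true := by
  refine up_general (Wn := fun n n' => n' = n) (S := Set.univ) (ST := fun _ => tt)
    (fun v => by simp) (fun F hF => FP.const' tt)
    (va := fun _ _ _ _ => True) (vaT := fun _ _ _ _ => tt) (fun _ _ _ _ => by simp)
    (fun _ _ _ _ _ _ _ _ => FP.const' tt) (cd := cde) (cdT := cdeT)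
    (fun K s i n => cdeT_eq K s i n) (fun F G H J hF hG hH hJ => FP.cdeT' hF hG hH hJ)
    (fun K s i n _ => ?_) (fun _ _ _ _ _ => trivial)
    (fun K s i n K' s' i' n' _ _ he => ?_) (fun i k => ?_)
    (fun L hL => h L (fun w hw => by obtain ⟨n, _, hn⟩ := hL w hw; exact ⟨n, hn⟩))
  · unfold cde
    have h1 := Nat.left_le_pair K (Nat.pair s (Nat.pair i n))
    have h2 := Nat.right_le_pair K (Nat.pair s (Nat.pair i n))
    have h3 := Nat.left_le_pair s (Nat.pair i n)
    have h4 := Nat.right_le_pair s (Nat.pair i n)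
    have h5 := Nat.left_le_pair i n
    have h6 := Nat.right_le_pair i n
    omega
  · obtain ⟨h1, h2, h3, h4⟩ := cde_inj he
    exact ⟨h1, h3, h4.symm⟩
  · obtain ⟨P, hP1, hP2⟩ := exists_polyT k
    refine ⟨0, fun n => k.eval n, P, hP1, hP2 O, fun n => ⟨trivial, fun s' n' _ he => ?_⟩⟩
    obtain ⟨_, _, _, h4⟩ := cde_inj he
    rw [h4]

/-- the block of a length -/
def blk (n : ℕ) : ℕ := Nat.log 2 (n + 1)

theorem blk_bounds (n : ℕ) : 2 ^ blk n ≤ n + 1 ∧ n + 1 < 2 * 2 ^ blk n := by
  have h1 := Nat.pow_log_le_self 2 (x := n + 1) (by omega)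
  have h2 := Nat.lt_pow_succ_log_self (b := 2) (by norm_num) (n + 1)
  rw [Nat.succ_eq_add_one, pow_succ] at h2
  unfold blk
  omega

theorem blk_window {n n' : ℕ} (h : blk n = blk n') : n ≤ 2 * n' ∧ n' ≤ 2 * n := by
  have h1 := blk_bounds n
  have h2 := blk_bounds n'
  rw [← h] at h2
  omega

/-- the code of the exponent -/
def cdw (s i n : ℕ) : ℕ := 2 ^ Nat.pair s i * (2 * blk n + 1)

theorem cdw_inj {s i n s' i' n' : ℕ} (h : cdw s i n = cdw s' i' n') :
    s = s' ∧ i = i' ∧ blk n = blk n' := by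
  have key : ∀ {e e' b b' : ℕ}, e < e' → 2 ^ e * (2 * b + 1) ≠ 2 ^ e' * (2 * b' + 1) := by
    intro e e' b b' hlt he
    obtain ⟨t, rfl⟩ : ∃ t, e' = e + 1 + t := ⟨e' - (e + 1), by omega⟩
    have h1 : 2 ^ e * (2 * b + 1) = 2 ^ e * (2 * (2 ^ t * (2 * b' + 1))) := by
      rw [he, pow_add, pow_add]; ring
    have h2 := Nat.eq_of_mul_eq_mul_left (by positivity) h1
    omega
  unfold cdw at h
  rcases lt_trichotomy (Nat.pair s i) (Nat.pair s' i') with h1 | h1 | h1
  · exact absurd h (key h1)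
  · rw [h1] at h
    have h2 := Nat.eq_of_mul_eq_mul_left (by positivity) h
    have h3 := Nat.pair_eq_pair.mp h1
    exact ⟨h3.1, h3.2, by omega⟩
  · exact absurd h.symm (key h1)

theorem cdw_pow (s i n : ℕ) :
    (2 * (2 ^ blk n * 2 ^ blk n)) ^ (2 ^ Nat.pair s i) = 2 ^ cdw s i n := by
  have e : 2 * (2 ^ blk n * 2 ^ blk n) = 2 ^ (2 * blk n + 1) := by
    rw [pow_succ, show 2 * blk n = blk n + blk n by ring, pow_add]; ring
  rw [e, ← pow_mul, cdw, mul_comm]

/-- program for the block length -/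
def blT (n : Tr) : Tr := lpT (node leaf n)

theorem blT_eq (n : Tr) : blT n = num (2 ^ blk (len n)) := by
  rw [blT, lpT_eq]; rfl

/-- program for twice the square of the block length -/
def bqT (n : Tr) : Tr := mulU (num 2) (mulU (blT n) (blT n))

theorem bqT_eq (n : Tr) : bqT n = num (2 * (2 ^ blk (len n) * 2 ^ blk (len n))) := by
  rw [bqT, mulU_eq, mulU_eq, blT_eq, len_num, len_num, len_num]

theorem FP.bqT' {F : Tr → Tr} (hF : FP O F) : FP O (fun v => bqT (F v)) := by
  have h1 := FP.lpT' (FP.node' FP.leaf' hF)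
  exact FP.mulU' (FP.const' _) (FP.mulU' h1 h1)

/-- windows are the strings of the same length, up to a factor two -/
theorem up_factor (h : ∀ L : Set (List Bool),
      (∀ w ∈ L, ∃ i : ℕ, w = List.replicate (2 ^ i) true) → InPi2 O L → InNP O Lᶜ) :
    ∃ T : TFNP O, ∀ (R : List Bool → List Bool → Bool) (p : Polynomial ℕ), PolyTimeRel O R →
      ∃ (f : List Bool → List Bool) (g : List Bool → List Bool → List Bool),
        PolyTimeFun O f ∧ PolyTimeFun₂ O g ∧ ∀ x : List Bool,
        (∀ x' : List Bool, x.length ≤ 2 * x'.length → x'.length ≤ 2 * x.length →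
          ∃ y : List Bool, y.length ≤ p.eval x'.length ∧ R x' y = true) →
        ∀ y, T.IsSol (f x) y → (g x y).length ≤ p.eval x.length ∧ R x (g x y) = true := by
  have hmain : ∃ T : TFNP O, ∀ (R : List Bool → List Bool → Bool) (p : Polynomial ℕ),
      PolyTimeRel O R →
      ∃ (f : List Bool → List Bool) (g : List Bool → List Bool → List Bool),
        PolyTimeFun O f ∧ PolyTimeFun₂ O g ∧ ∀ x : List Bool,
        (∀ x' : List Bool, blk x.length = blk x'.length →
          ∃ y : List Bool, y.length ≤ p.eval x'.length ∧ R x' y = true) →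
        ∀ y, T.IsSol (f x) y → (g x y).length ≤ p.eval x.length ∧ R x (g x y) = true := by
    refine up_general (O := O) (Wn := fun n n' => blk n = blk n')
      (S := {n | ∃ i, n = 2 ^ i}) (ST := p2T) (fun v => p2T_spec v) (fun F hF => FP.p2T' hF)
      (va := fun K s i n => (2 * (2 ^ blk n * 2 ^ blk n)) ^ (2 ^ Nat.pair s i) = K)
      (vaT := fun K s i n => sqT (bqT n) (pairU s i) K)
      (fun K s i n => by rw [sqT_spec, bqT_eq, pairU_eq, len_num, len_num])
      (fun F G H J hF hG hH hJ => FP.sqT' (FP.bqT' hJ) (FP.pairU' hG hH) hF)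
      (cd := fun K _ _ _ => K) (cdT := fun K _ _ _ => ulen K) (fun K s i n => ulen_eq K)
      (fun F G H J hF hG hH hJ => FP.ulen' hF)
      (fun K s i n hv => ?_) (fun K s i n hv => ?_) (fun K s i n K' s' i' n' hv hv' he => ?_)
      (fun i k => ?_)
      (fun L hL => h L (fun w hw => by
        obtain ⟨n, ⟨i, hi⟩, hn⟩ := hL w hw
        exact ⟨i, by rw [hn, hi]⟩))
    · -- bounds
      replace hv : (2 * (2 ^ blk n * 2 ^ blk n)) ^ (2 ^ Nat.pair s i) = K := hv
      show K + s + i + n ≤ 4 * K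
      rw [cdw_pow] at hv
      have h1 : cdw s i n < K := by rw [← hv]; exact Nat.lt_two_pow_self
      have h2 : Nat.pair s i < 2 ^ Nat.pair s i := Nat.lt_two_pow_self
      have h3 : 2 ^ Nat.pair s i ≤ cdw s i n := Nat.le_mul_of_pos_right _ (by omega)
      have h4 := Nat.left_le_pair s i
      have h5 := Nat.right_le_pair s i
      have h6 := (blk_bounds n).2
      have h7 : 2 * blk n + 1 ≤ cdw s i n := Nat.le_mul_of_pos_left _ (by positivity)
      have h8 : 2 ^ (blk n + 1) ≤ K := by
        rw [← hv]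
        exact Nat.pow_le_pow_right (by norm_num) (by omega)
      rw [pow_succ] at h8
      omega
    · replace hv : (2 * (2 ^ blk n * 2 ^ blk n)) ^ (2 ^ Nat.pair s i) = K := hv
      show ∃ j, K = 2 ^ j
      rw [cdw_pow] at hv
      exact ⟨_, hv.symm⟩
    · replace hv : (2 * (2 ^ blk n * 2 ^ blk n)) ^ (2 ^ Nat.pair s i) = K := hv
      replace hv' : (2 * (2 ^ blk n' * 2 ^ blk n')) ^ (2 ^ Nat.pair s' i') = K' := hv'
      replace he : K = K' := he
      rw [cdw_pow] at hv hv'
      rw [← hv, ← hv'] at he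
      have h1 := Nat.pow_right_injective le_rfl he
      obtain ⟨_, h2, h3⟩ := cdw_inj h1
      exact ⟨by rw [← hv, ← hv']; exact he, h2, h3⟩
    · obtain ⟨d, hd⟩ := exists_pow_bound (k.comp (2 * Polynomial.X + 2))
      refine ⟨d, fun n => (2 * (2 ^ blk n * 2 ^ blk n)) ^ (2 ^ Nat.pair d i),
        fun v => powU (2 ^ Nat.pair d i) (bqT v), fun v => by
        show powU (2 ^ Nat.pair d i) (bqT v) = _
        rw [powU_eq, bqT_eq, len_num],
        fun F hF => FP.powU' _ (FP.bqT' hF), fun n => ⟨rfl, fun s' n' hv he => ?_⟩⟩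
      replace hv : (2 * (2 ^ blk n' * 2 ^ blk n')) ^ (2 ^ Nat.pair s' i) =
        (2 * (2 ^ blk n * 2 ^ blk n)) ^ (2 ^ Nat.pair d i) := hv
      show k.eval n' ≤ (2 * (2 ^ blk n * 2 ^ blk n)) ^ (2 ^ Nat.pair d i)
      have hbb : blk n' = blk n := by
        rw [cdw_pow, cdw_pow] at hv
        exact (cdw_inj (Nat.pow_right_injective le_rfl hv)).2.2
      have h1 := blk_bounds n'
      rw [hbb] at h1
      set B := 2 ^ blk n with hB
      have hB1 : 1 ≤ B := Nat.one_le_two_pow
      have h2 := hd (2 ^ Nat.pair d i) (by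
        have a1 := Nat.left_le_pair d i
        have a2 : Nat.pair d i < 2 ^ Nat.pair d i := Nat.lt_two_pow_self
        omega) (B - 1)
      rw [Polynomial.eval_comp] at h2
      simp only [Polynomial.eval_add, Polynomial.eval_mul, Polynomial.eval_ofNat,
        Polynomial.eval_X] at h2
      calc k.eval n' ≤ k.eval (2 * (B - 1) + 2) := poly_mono k (by omega)
        _ ≤ ell (2 ^ Nat.pair d i) (B - 1) := h2
        _ ≤ (2 * (B * B)) ^ (2 ^ Nat.pair d i) := by
          unfold ell
          apply Nat.pow_le_pow_left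
          have : B ≤ B * B := Nat.le_mul_of_pos_left _ hB1
          omega
  obtain ⟨T, hT⟩ := hmain
  refine ⟨T, fun R p hR => ?_⟩
  obtain ⟨f, g, h1, h2, h3⟩ := hT R p hR
  exact ⟨f, g, h1, h2, fun x hx => h3 x (fun x' hx' =>
    hx x' (blk_window hx').1 (blk_window hx').2)⟩

end Pool.Agent.H40.EL
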