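import Pool.Agent.H13.EL.Defs
import Pool.Agent.H40.EL.Up
import Pool.Agent.H40.EL.Bad

set_option autoImplicit false

/-!
# The levels: windows with one point, of the same length, of nearly the same length
-/

namespace Pool.Agent.H40.EL

open Pool.Agent.H88.RO Pool.Agent.H88.RO.Tr Pool.Agent.H65.TS Pool.Agent.H65.NU
open Pool.Agent.H13.EL

variable {O : List Bool → Bool}

/-- A Turing reduction relative to windows gives a set in NP which separates the instances with
solvable windows from the unsolvable instances. -/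
theorem bad_of_turing {S : Search O} {T : TFNP O} {W : List Bool → Set (List Bool)}
    (h : S.TuringReduces T W) : ∃ B : Set (List Bool), InNP O B ∧ ∀ x : List Bool,
      (S.SolvableOn (W x) → x ∉ B) ∧ ((∀ y, ¬ S.IsSol x y) → x ∈ B) := by
  obtain ⟨cf, cg, r, s, hred⟩ := h
  exact exists_bad T S.polyTime S.p (G := fun x => S.SolvableOn (W x))
    (cf := cf) (cg := cg) (r := r) (s := s) (fun x hx => hred x hx)

/-! ### windows with one point -/

/-- the instances with a solution -/
def Slv (O : List Bool → Bool) : Set (List Bool) :=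
  {u | ∃ y, Usol O (zi u) (zK u) (zN u) (zx u) y}

open Classical in
theorem inNP_Slv : InNP O (Slv O) := by
  refine ⟨fun u y => decide (Usol O (zi u) (zK u) (zN u) (zx u) y), Polynomial.X, ?_,
    fun u => ?_⟩
  · have hz : FP O (fun v => fst v) := FP.fst' FP.id'
    have hy : FP O (fun v => snd v) := FP.snd' FP.id'
    refine polyTimeRel_of_FP (FP.usT' (FP.ti' hz) (FP.tK' hz) (FP.tN' hz) (FP.tx' hz) hy)
      (fun x y => ?_)
    rw [fst_node, snd_node, ti_enc, tK_enc, tN_enc, tx_enc, usT_spec, decide_eq_true_eq]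
    simp only [len_num]
  · simp only [Slv, Set.mem_ofPred_eq, Polynomial.eval_X, decide_eq_true_eq]
    constructor
    · rintro ⟨y, hy⟩
      refine ⟨y, ?_, hy⟩
      have h1 := hy.1
      have h2 := z_le u
      omega
    · rintro ⟨y, _, hy⟩; exact ⟨y, hy⟩

open Classical in
theorem up1 (h : ∀ L, InNP O L → InNP O Lᶜ) : ∃ T : TFNP O, ∀ S : Search O, S.Reduces T point := by
  have hV : PolyTimeRel O (fun z y => decide (Usol O (zi z) (zK z) (zK z) (zx z) y)) := by
    have hz : FP O (fun v => fst v) := FP.fst' FP.id'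
    have hy : FP O (fun v => snd v) := FP.snd' FP.id'
    refine polyTimeRel_of_FP (FP.usT' (FP.ti' hz) (FP.tK' hz) (FP.tK' hz) (FP.tx' hz) hy)
      (fun x y => ?_)
    rw [fst_node, snd_node, ti_enc, tK_enc, tx_enc, usT_spec, decide_eq_true_eq]
    simp only [len_num]
  obtain ⟨T, hT⟩ := exists_TFNP (O := O) (c := fun z => ins (zK z) (zK z) (zi z) (zx z))
    (cT := fun z => insT (tK z) (tK z) (ti z) (tx z)) hV Polynomial.X
    (fun z => by rw [tK_enc, ti_enc, tx_enc, insT_eq, len_num, len_num])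
    (fun F hF => FP.insT' (FP.tK' hF) (FP.tK' hF) (FP.ti' hF) (FP.tx' hF))
    (h _ inNP_Slv)
    (fun z hz => by
      obtain ⟨y, hy⟩ := hz
      rw [zi_ins, zK_ins, zN_ins, zx_ins] at hy
      refine ⟨y, ?_, by rw [decide_eq_true_eq]; exact hy⟩
      rw [Polynomial.eval_X]
      have h1 := hy.1
      have h2 := z_le z
      omega)
  refine ⟨T, fun S => ?_⟩
  obtain ⟨i, k, hsnd, hcmp⟩ := exists_index_mono S.polyTime S.p
  refine ⟨fun x => ins (k.eval x.length) (k.eval x.length) i x, fun _ y => y.tail,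
    polyTimeFun_ins i k k, ?_, fun x hx y hy => ?_⟩
  · exact polyTimeFun₂_of_FP (F := fun v => snd (snd v)) (FP.snd' (FP.snd' FP.id'))
      (fun x y => by rw [snd_node, snd_enc])
  · obtain ⟨y', hy1, hy2⟩ := hx x rfl
    have hmem : ins (zK (ins (k.eval x.length) (k.eval x.length) i x))
        (zK (ins (k.eval x.length) (k.eval x.length) i x))
        (zi (ins (k.eval x.length) (k.eval x.length) i x))
        (zx (ins (k.eval x.length) (k.eval x.length) i x)) ∈ Slv O := by
      rw [zK_ins, zi_ins, zx_ins]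
      refine ⟨y', ?_⟩
      rw [zi_ins, zK_ins, zN_ins, zx_ins]
      exact hcmp _ _ _ le_rfl hy1 hy2
    obtain ⟨_, h2⟩ := hT _ y hy hmem
    rw [decide_eq_true_eq, zi_ins, zK_ins, zx_ins] at h2
    exact hsnd _ _ _ h2

theorem down1 (h : ∀ S : Search O, ∃ T : TFNP O, S.TuringReduces T point) :
    ∀ L, InNP O L → InNP O Lᶜ := by
  rintro L ⟨R, p, hR, hL⟩
  obtain ⟨T, hT⟩ := h ⟨R, p, hR⟩
  obtain ⟨B, hB, hB2⟩ := bad_of_turing hT
  have e : Lᶜ = B := by
    ext x
    rw [Set.mem_compl_iff]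
    constructor
    · intro hx
      exact (hB2 x).2 (fun y hy => hx ((hL x).mpr ⟨y, hy⟩))
    · intro hx hxL
      refine (hB2 x).1 ?_ hx
      rintro x' rfl
      exact (hL x').mp hxL
  rw [e]
  exact hB

/-! ### windows with the strings of the same length -/

theorem up2 (h : ∀ L, IsTally L → InPi2 O L → InNP O Lᶜ) :
    ∃ T : TFNP O, ∀ S : Search O, S.Reduces T sameLength := by
  obtain ⟨T, hT⟩ := up_length (O := O) h
  refine ⟨T, fun S => ?_⟩
  obtain ⟨f, g, hf, hg, hfg⟩ := hT S.R S.p S.polyTime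
  exact ⟨f, g, hf, hg, fun x hx => hfg x hx⟩

theorem down2 (h : ∀ S : Search O, ∃ T : TFNP O, S.TuringReduces T sameLength) :
    ∀ L, IsTally L → InPi2 O L → InNP O Lᶜ := by
  intro L hL1 hL2
  refine down_length (O := O) (fun R p hR => ?_) hL1 hL2
  obtain ⟨T, hT⟩ := h ⟨R, p, hR⟩
  exact bad_of_turing hT

/-! ### windows with the strings of nearly the same length -/

theorem up3 (h : ∀ L, IsPowerTally L → InPi2 O L → InNP O Lᶜ) :
    ∃ T : TFNP O, ∀ S : Search O, S.Reduces T (near 2) := by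
  obtain ⟨T, hT⟩ := up_factor (O := O) h
  refine ⟨T, fun S => ?_⟩
  obtain ⟨f, g, hf, hg, hfg⟩ := hT S.R S.p S.polyTime
  exact ⟨f, g, hf, hg, fun x hx => hfg x (fun x' h1 h2 => hx x' ⟨h1, h2⟩)⟩

theorem down3 (C : ℕ) (h : ∀ S : Search O, ∃ T : TFNP O, S.TuringReduces T (near C)) :
    ∀ L, IsPowerTally L → InPi2 O L → InNP O Lᶜ := by
  intro L hL1 hL2
  refine down_factor (O := O) C (fun R p hR => ?_) hL1 hL2
  obtain ⟨T, hT⟩ := h ⟨R, p, hR⟩
  obtain ⟨B, h1, h2⟩ := bad_of_turing hT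
  exact ⟨B, h1, fun x => ⟨fun h3 => (h2 x).1 (fun x' hx' => h3 x' hx'.1 hx'.2), (h2 x).2⟩⟩

end Pool.Agent.H40.EL
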