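import Pool.Agent.H40.EL.Levels
import Pool.Agent.H40.EL.Arith2

set_option autoImplicit false

/-!
# The level of polynomial windows
-/

namespace Pool.Agent.H40.EL

open Pool.Agent.H88.RO Pool.Agent.H88.RO.Tr Pool.Agent.H65.TS Pool.Agent.H65.NU
open Pool.Agent.H13.EL

variable {O : List Bool → Bool}

/-! ### finite intersections of sets in NP -/

theorem inNP_univ : InNP O Set.univ :=
  ⟨fun _ _ => true, 0, polyTimeRel_of_FP (FP.const' tt) (fun _ _ => by simp), fun x => by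
    simp only [Set.mem_univ, Polynomial.eval_zero, and_true, true_iff]
    exact ⟨[], by simp⟩⟩

open Classical in
theorem inNP_inter {A B : Set (List Bool)} (hA : InNP O A) (hB : InNP O B) :
    InNP O (A ∩ B) := by
  obtain ⟨RA, pA, hRA, hA⟩ := hA
  obtain ⟨RB, pB, hRB, hB⟩ := hB
  obtain ⟨PA, hA1, hA2⟩ := exists_polyT pA
  obtain ⟨PB, hB1, hB2⟩ := exists_polyT pB
  refine ⟨fun x z => decide (((un1 z).length ≤ pA.eval x.length ∧ RA x (un1 z) = true) ∧
    ((un2 z).length ≤ pB.eval x.length ∧ RB x (un2 z) = true)), 2 * pA + 1 + pB, ?_,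
    fun x => ?_⟩
  · have hx : FP O (fun v => fst v) := FP.fst' FP.id'
    have hz : FP O (fun v => snd v) := FP.snd' FP.id'
    have h1 := FP.andT' (FP.qT' hRA (hA2 O) hx (FP.un1T' hz)) (FP.qT' hRB (hB2 O) hx (FP.un2T' hz))
    refine polyTimeRel_of_FP h1 (fun x z => ?_)
    simp only [fst_node, snd_node]
    rw [andT_spec, un1T_enc, un2T_enc, qT_spec hA1, qT_spec hB1, dec_enc, dec_enc, dec_enc,
      decide_eq_true_eq]
  · simp only [Set.mem_inter_iff, decide_eq_true_eq, Polynomial.eval_add, Polynomial.eval_mul,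
      Polynomial.eval_ofNat, Polynomial.eval_one]
    constructor
    · rintro ⟨h1, h2⟩
      obtain ⟨y, hy⟩ := (hA x).mp h1
      obtain ⟨z, hz⟩ := (hB x).mp h2
      refine ⟨pr y z, ?_, ?_⟩
      · rw [pr_length]
        omega
      · rw [un1_pr, un2_pr]
        exact ⟨hy, hz⟩
    · rintro ⟨z, _, h1, h2⟩
      exact ⟨(hA x).mpr ⟨_, h1⟩, (hB x).mpr ⟨_, h2⟩⟩

theorem inNP_all (A : ℕ → Set (List Bool)) (q : ℕ) (h : ∀ r < q, InNP O (A r)) :
    InNP O {w | ∀ r < q, w ∈ A r} := by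
  induction q with
  | zero =>
    have e : {w : List Bool | ∀ r < 0, w ∈ A r} = Set.univ := by ext w; simp
    rw [e]
    exact inNP_univ
  | succ q ih =>
    have e : {w : List Bool | ∀ r < q + 1, w ∈ A r} = {w | ∀ r < q, w ∈ A r} ∩ A q := by
      ext w
      simp only [Set.mem_ofPred_eq, Set.mem_inter_iff]
      constructor
      · intro h1
        exact ⟨fun r hr => h1 r (by omega), h1 q (by omega)⟩
      · rintro ⟨h1, h2⟩ r hr
        rcases Nat.lt_or_ge r q with h3 | h3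
        · exact h1 r h3
        · have : r = q := by omega
          rw [this]
          exact h2
    rw [e]
    exact inNP_inter (ih (fun r hr => h r (by omega))) (h q (by omega))

/-! ### down -/

/-- the numbers `2^(2^a)` with `a` in a residue class -/
def SR (q r : ℕ) : Set ℕ := {m | ∃ a, m = 2 ^ 2 ^ a ∧ a % q = r}

/-- program for `SR` -/
def srT (q r : ℕ) (m : Tr) : Tr := andT (ppT m) (eqL (mdT (lgT (lgT m)) (num q)) (num r))

theorem srT_spec {q : ℕ} (hq : q ≠ 0) (r : ℕ) (m : Tr) : srT q r m ≠ leaf ↔ len m ∈ SR q r := by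
  rw [srT, andT_spec, ppT_spec, eqL_spec, mdT_eq _ _ (by rw [len_num]; exact hq), lgT_eq, lgT_eq]
  simp only [len_num]
  constructor
  · rintro ⟨⟨l, hl⟩, h⟩
    rw [hl, log_log] at h
    exact ⟨l, hl, h⟩
  · rintro ⟨l, hl, h⟩
    rw [hl, log_log]
    exact ⟨⟨l, rfl⟩, h⟩

theorem FP.srT' (q r : ℕ) {F : Tr → Tr} (hF : FP O F) : FP O (fun v => srT q r (F v)) :=
  FP.andT' (FP.ppT' hF) (FP.eqL' (FP.mdT' (FP.lgT' (FP.lgT' hF)) (FP.const' _)) (FP.const' _))

theorem ell_far_pow {k q d a a' : ℕ} (hq : 4 * k ≤ 2 ^ q) (hd : 1 ≤ d) (haa : a + q ≤ a') :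
    (ell d (2 ^ 2 ^ a) + 2) ^ k < ell d (2 ^ 2 ^ a') := by
  set n := 2 ^ 2 ^ a with hn
  set n' := 2 ^ 2 ^ a' with hn'
  have hn2 : 2 ≤ n := by
    rw [hn]
    calc 2 = 2 ^ 1 := rfl
      _ ≤ 2 ^ 2 ^ a := Nat.pow_le_pow_right (by norm_num) Nat.one_le_two_pow
  have h1 : 2 * (n + 1) ≤ n ^ 3 := by
    have e : n ^ 3 = n * n * n := by ring
    rw [e]
    have h2 : 4 * n ≤ n * n * n := Nat.mul_le_mul_right n (Nat.mul_le_mul hn2 hn2)
    omega
  have h2 : ell d n ≤ n ^ (3 * d) := by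
    unfold ell
    rw [pow_mul]
    exact Nat.pow_le_pow_left h1 d
  have h3 : n ≤ n ^ (3 * d) := Nat.le_self_pow (by omega) n
  have h4 : ell d n + 2 ≤ n ^ (3 * d + 1) := by
    have e : n ^ (3 * d + 1) = n ^ (3 * d) * n := pow_succ _ _
    have h5 : n ^ (3 * d) * 2 ≤ n ^ (3 * d) * n := Nat.mul_le_mul_left _ hn2
    omega
  have h5 : n ^ (2 ^ q) ≤ n' := by
    rw [hn, hn', ← pow_mul, ← pow_add]
    exact Nat.pow_le_pow_right (by norm_num) (Nat.pow_le_pow_right (by norm_num) haa)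
  have h6 : (3 * d + 1) * k ≤ 2 ^ q * d := by
    calc (3 * d + 1) * k ≤ (4 * d) * k := Nat.mul_le_mul_right _ (by omega)
      _ = (4 * k) * d := by ring
      _ ≤ 2 ^ q * d := Nat.mul_le_mul_right _ hq
  calc (ell d n + 2) ^ k ≤ (n ^ (3 * d + 1)) ^ k := Nat.pow_le_pow_left h4 k
    _ = n ^ ((3 * d + 1) * k) := by rw [← pow_mul]
    _ ≤ n ^ (2 ^ q * d) := Nat.pow_le_pow_right (by omega) h6
    _ = (n ^ (2 ^ q)) ^ d := pow_mul _ _ _
    _ ≤ n' ^ d := Nat.pow_le_pow_left h5 d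
    _ < (2 * (n' + 1)) ^ d := Nat.pow_lt_pow_left (by omega) (by omega)

theorem residue_gap {q a a' : ℕ} (h : a % q = a' % q) (haa : a < a') :
    a + q ≤ a' := by
  have h1 := Nat.div_add_mod a q
  have h2 := Nat.div_add_mod a' q
  have h3 : a / q < a' / q := by
    by_contra hcon
    push Not at hcon
    have := Nat.mul_le_mul_left q hcon
    omega
  have h4 := Nat.mul_le_mul_left q (show a / q + 1 ≤ a' / q from h3)
  rw [Nat.mul_add, Nat.mul_one] at h4
  omega

theorem down4 (k : ℕ) (h : ∀ S : Search O, ∃ T : TFNP O, S.TuringReduces T (nearPow k)) :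
    ∀ L, IsSuperTally L → InPi2 O L → InNP O Lᶜ := by
  intro L hL1 hL2
  set q := 4 * k + 1 with hq
  have hq2 : 4 * k ≤ 2 ^ q := by
    have : q < 2 ^ q := Nat.lt_two_pow_self
    omega
  have hr : ∀ r < q, InNP O {w | ¬ (w ∈ L ∧ w = List.replicate w.length true ∧
      w.length ∈ SR q r)} := by
    intro r _
    refine down_core (W := nearPow k) (fun R p hR => ?_) (S := SR q r) (ST := srT q r)
      (fun v => srT_spec (by omega) r v) (fun F hF => FP.srT' q r hF)
      ⟨1, fun d hd n hn n' hn' x x' hx hx' hxx => ?_⟩ hL2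
    · obtain ⟨T, hT⟩ := h ⟨R, p, hR⟩
      exact bad_of_turing hT
    · obtain ⟨a, rfl, ha⟩ := hn
      obtain ⟨a', rfl, ha'⟩ := hn'
      obtain ⟨h1, h2⟩ := hxx
      rw [hx, hx'] at h1 h2
      rcases lt_trichotomy a a' with h3 | h3 | h3
      · have := ell_far_pow hq2 hd (residue_gap (ha.trans ha'.symm) h3)
        omega
      · rw [h3]
      · have := ell_far_pow hq2 hd (residue_gap (ha'.trans ha.symm) h3)
        omega
  have e : Lᶜ = {w | ∀ r < q, w ∈ {w | ¬ (w ∈ L ∧ w = List.replicate w.length true ∧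
      w.length ∈ SR q r)}} := by
    ext w
    simp only [Set.mem_compl_iff, Set.mem_ofPred_eq]
    constructor
    · intro h1 r _ h2
      exact h1 h2.1
    · intro h1 h2
      obtain ⟨i, hi⟩ := hL1 w h2
      have hlen : w.length = 2 ^ 2 ^ i := by rw [hi, List.length_replicate]
      refine h1 (i % q) (Nat.mod_lt _ (by omega)) ⟨h2, by rw [hlen]; exact hi, i, hlen, rfl⟩
  rw [e]
  exact inNP_all _ q hr

/-! ### up -/

/-- the clocks `2^(2^l)` for a double logarithm `l` -/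
def kpT (lT : Tr → Tr) (D : ℕ) (v : Tr) : Tr :=
  pow2cap (pow2cap (lT v) (powU D (node leaf (node leaf v)))) (powU D (node leaf (node leaf v)))

theorem kpT_eq {lT : Tr → Tr} {l : ℕ → ℕ} (hl : ∀ v, lT v = num (l (len v))) {D : ℕ}
    (hD : ∀ n, 2 ^ 2 ^ l n ≤ (n + 2) ^ D) (v : Tr) : kpT lT D v = num (2 ^ 2 ^ l (len v)) := by
  have h1 := hD (len v)
  have h2 : 2 ^ l (len v) < 2 ^ 2 ^ l (len v) := Nat.lt_two_pow_self
  have e : len (powU D (node leaf (node leaf v))) = (len v + 2) ^ D := by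
    rw [powU_eq, len_num]
    rfl
  rw [kpT, pow2cap_eq, pow2cap_eq, e, hl]
  simp only [len_num]
  rw [min_eq_left (show 2 ^ l (len v) ≤ (len v + 2) ^ D + 1 by omega),
    min_eq_left (show 2 ^ 2 ^ l (len v) ≤ (len v + 2) ^ D + 1 by omega)]

theorem FP_kpT {lT : Tr → Tr} (hl : ∀ F, FP O F → FP O (fun v => lT (F v))) (D : ℕ)
    {F : Tr → Tr} (hF : FP O F) : FP O (fun v => kpT lT D (F v)) :=
  FP.pow2cap' (FP.pow2cap' (hl _ hF) (FP.powU' D (FP.node' FP.leaf' (FP.node' FP.leaf' hF))))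
    (FP.powU' D (FP.node' FP.leaf' (FP.node' FP.leaf' hF)))

theorem pow2_lam_le (n c : ℕ) : 2 ^ 2 ^ (lam n + c) ≤ (n + 2) ^ (2 ^ c) := by
  rw [pow_add, pow_mul]
  exact Nat.pow_le_pow_left (lam_bounds n).1 _

theorem lt_pow2_lam (n c : ℕ) : (n + 2) ^ (2 ^ c) ≤ 2 ^ 2 ^ (lam n + 1 + c) := by
  rw [pow_add (2 : ℕ) (lam n + 1) c, pow_mul]
  exact Nat.pow_le_pow_left (lam_bounds n).2.le _

theorem le_pow2_pow2 (l : ℕ) : l < 2 ^ 2 ^ l :=
  Nat.lt_two_pow_self.trans Nat.lt_two_pow_self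

theorem pow2_pow2_inj {l l' : ℕ} (h : 2 ^ 2 ^ l = 2 ^ 2 ^ l') : l = l' :=
  Nat.pow_right_injective le_rfl (Nat.pow_right_injective le_rfl h)

theorem up4 (h : ∀ L, IsSuperTally L → InPi2 O L → InNP O Lᶜ) :
    ∀ S : Search O, ∃ T : TFNP O, S.Reduces T (nearPow 2) := by
  intro S
  obtain ⟨i0, k, hsnd, hcmp⟩ := exists_index_mono S.polyTime S.p
  obtain ⟨d, hd⟩ := exists_pow_bound' k
  set c := d + i0 + 1 with hc
  have hcore : ∃ T : TFNP O, ∀ (R : List Bool → List Bool → Bool) (p : Polynomial ℕ) (i : ℕ)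
      (k : Polynomial ℕ),
      (∀ (K : ℕ) (x y : List Bool), Usol O i K K x y → y.length ≤ p.eval x.length ∧ R x y = true) →
      (∀ (K : ℕ) (x y : List Bool), k.eval x.length ≤ K →
        y.length ≤ p.eval x.length → R x y = true → Usol O i K K x y) →
      ∀ (s : ℕ) (Kf : ℕ → ℕ) (KT : Tr → Tr),
      (∀ v, KT v = num (Kf (len v))) → (∀ F, FP O F → FP O (fun v => KT (F v))) →
      (∀ n, (Kf n = 2 ^ 2 ^ (lam n + c) ∧ s = 0 ∧ i = i0) ∧ ∀ s' n',
        (Kf n = 2 ^ 2 ^ (lam n' + c) ∧ s' = 0 ∧ i = i0) → Kf n = Kf n → k.eval n' ≤ Kf n) →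
      ∃ (f : List Bool → List Bool) (g : List Bool → List Bool → List Bool),
        PolyTimeFun O f ∧ PolyTimeFun₂ O g ∧ ∀ x : List Bool,
        (∀ x' : List Bool, lam x.length = lam x'.length →
          ∃ y : List Bool, y.length ≤ p.eval x'.length ∧ R x' y = true) →
        ∀ y, T.IsSol (f x) y → (g x y).length ≤ p.eval x.length ∧ R x (g x y) = true := by
    refine up_core (O := O) (S := {m | ∃ l, m = 2 ^ 2 ^ l}) (ST := ppT) (fun v => ppT_spec v)
      (fun F hF => FP.ppT' hF)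
      (va := fun K s i n => K = 2 ^ 2 ^ (lam n + c) ∧ s = 0 ∧ i = i0)
      (vaT := fun K s i n => andT (andT (ppT K) (eqL (lgT (lgT K)) (addU (num c) (lamT n))))
        (andT (eqL s leaf) (eqL i (num i0)))) (fun K s i n => ?_)
      (fun F G H J hF hG hH hJ => FP.andT' (FP.andT' (FP.ppT' hF)
        (FP.eqL' (FP.lgT' (FP.lgT' hF)) (FP.addU' (FP.const' _) (FP.lamT' hJ))))
        (FP.andT' (FP.eqL' hG FP.leaf') (FP.eqL' hH (FP.const' _))))
      (cd := fun K _ _ _ => K) (cdT := fun K _ _ _ => ulen K) (fun K s i n => ulen_eq K)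
      (fun F G H J hF hG hH hJ => FP.ulen' hF)
      (fun K s i n hv => ?_) (fun K s i n hv => ⟨_, hv.1⟩)
      (Wn := fun _ _ n n' => lam n = lam n')
      (fun K s i n K' s' i' n' hv hv' he => ?_)
      (fun L hL => h L (fun w hw => by
        obtain ⟨n, ⟨l, hl⟩, hn⟩ := hL w hw
        exact ⟨l, by rw [hn, hl]⟩))
    · rw [andT_spec, andT_spec, andT_spec, ppT_spec, eqL_spec, eqL_spec, eqL_spec, lgT_eq, lgT_eq,
        lamT_eq, addU_num]
      simp only [len_num, len]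
      constructor
      · rintro ⟨⟨⟨l, hl⟩, h1⟩, h2⟩
        rw [hl, log_log] at h1
        exact ⟨by rw [hl, h1, add_comm], h2⟩
      · rintro ⟨h1, h2⟩
        rw [h1, log_log]
        exact ⟨⟨⟨_, rfl⟩, add_comm _ _⟩, h2⟩
    · obtain ⟨rfl, rfl, rfl⟩ := hv
      have h1 := le_pow2_pow2 (lam n + c)
      have h2 := (lam_bounds n).2
      have h3 : 2 ^ 2 ^ (lam n + 1) ≤ 2 ^ 2 ^ (lam n + c) :=
        Nat.pow_le_pow_right (by norm_num) (Nat.pow_le_pow_right (by norm_num) (by omega))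
      show 2 ^ 2 ^ (lam n + c) + 0 + i + n ≤ 4 * 2 ^ 2 ^ (lam n + c)
      omega
    · obtain ⟨h1, _, h3⟩ := hv
      obtain ⟨h1', _, h3'⟩ := hv'
      replace he : K = K' := he
      refine ⟨he, by rw [h3, h3'], ?_⟩
      rw [h1, h1'] at he
      have := pow2_pow2_inj he
      show lam n = lam n'
      omega
  obtain ⟨T, hT⟩ := hcore
  have hD : ∀ n, 2 ^ 2 ^ (c + lam n) ≤ (n + 2) ^ (2 ^ c) := fun n => by
    rw [add_comm c]; exact pow2_lam_le n c
  obtain ⟨f, g, hf, hg, hfg⟩ := hT S.R S.p i0 k hsnd hcmp 0 (fun n => 2 ^ 2 ^ (c + lam n))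
    (kpT (fun v => addU (num c) (lamT v)) (2 ^ c))
    (fun v => kpT_eq (l := fun n => c + lam n) (fun v => by rw [lamT_eq, addU_num]) hD v)
    (fun F hF => FP_kpT (fun F hF => FP.addU' (F := fun _ => num c)
      (G := fun v => lamT (F v)) (FP.const' _) (FP.lamT' hF)) _ hF)
    (fun n => ⟨⟨by rw [add_comm c], rfl, rfl⟩, fun s' n' hv _ => by
      have h1 : 2 ^ 2 ^ (c + lam n) = 2 ^ 2 ^ (lam n' + c) := hv.1
      show k.eval n' ≤ 2 ^ 2 ^ (c + lam n)
      rw [h1]
      refine (hd (2 ^ (d + i0)) ?_ n').trans ?_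
      · have : d + i0 < 2 ^ (d + i0) := Nat.lt_two_pow_self
        omega
      · have h2 := lt_pow2_lam n' (d + i0)
        rw [show lam n' + 1 + (d + i0) = lam n' + c by rw [hc]; ring] at h2
        exact h2⟩)
  refine ⟨T, f, g, hf, hg, fun x hx => hfg x (fun x' hx' => hx x' ?_)⟩
  have hw : ∀ n n', lam n = lam n' → n ≤ (n' + 2) ^ 2 := by
    intro n n' hnn
    have h1 := (lam_bounds n).2
    have h2 := pow2_lam_le n' 1
    rw [hnn] at h1
    rw [pow_one] at h2
    omega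
  exact ⟨hw _ _ hx', hw _ _ hx'.symm⟩

theorem two_pow_odd_inj {e e' b b' : ℕ} (h : 2 ^ e * (2 * b + 1) = 2 ^ e' * (2 * b' + 1)) :
    e = e' ∧ b = b' := by
  have key : ∀ {e e' b b' : ℕ}, e < e' → 2 ^ e * (2 * b + 1) ≠ 2 ^ e' * (2 * b' + 1) := by
    intro e e' b b' hlt he
    obtain ⟨t, rfl⟩ : ∃ t, e' = e + 1 + t := ⟨e' - (e + 1), by omega⟩
    have h1 : 2 ^ e * (2 * b + 1) = 2 ^ e * (2 * (2 ^ t * (2 * b' + 1))) := by
      rw [he, pow_add, pow_add]; ring
    have h2 := Nat.eq_of_mul_eq_mul_left (by positivity) h1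
    omega
  rcases lt_trichotomy e e' with h1 | h1 | h1
  · exact absurd h (key h1)
  · rw [h1] at h
    have h2 := Nat.eq_of_mul_eq_mul_left (by positivity) h
    exact ⟨h1, by omega⟩
  · exact absurd h.symm (key h1)

/-- the double logarithm of the item of machine `e` for length `n` -/
def Lx (e n : ℕ) : ℕ := 3 * 2 ^ e + (lam n - lam n % (2 * 2 ^ e))

theorem Lx_eq (e n : ℕ) : Lx e n = 2 ^ e * (2 * (lam n / (2 * 2 ^ e) + 1) + 1) := by
  have h1 := Nat.div_add_mod (lam n) (2 * 2 ^ e)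
  have h2 : lam n - lam n % (2 * 2 ^ e) = 2 * 2 ^ e * (lam n / (2 * 2 ^ e)) := by omega
  rw [Lx, h2]
  ring

theorem Lx_inj {e n e' n' : ℕ} (h : Lx e n = Lx e' n') :
    e = e' ∧ lam n / (2 * 2 ^ e) = lam n' / (2 * 2 ^ e) := by
  rw [Lx_eq, Lx_eq] at h
  obtain ⟨h1, h2⟩ := two_pow_odd_inj h
  subst h1
  exact ⟨rfl, by omega⟩

theorem Lx_bounds (e n : ℕ) : lam n + 1 + 2 ^ e ≤ Lx e n ∧ Lx e n ≤ lam n + 3 * 2 ^ e := by
  have h1 := Nat.mod_lt (lam n) (show 0 < 2 * 2 ^ e by positivity)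
  unfold Lx
  omega

/-- program for the double logarithm of the item; `P` is `2^e` -/
def lxT (P n : Tr) : Tr :=
  addU (mulU (num 3) P) (dropU (mdT (lamT n) (mulU (num 2) P)) (lamT n))

theorem lxT_len (P n : Tr) (hP : len P ≠ 0) :
    len (lxT P n) = 3 * len P + (lam (len n) - lam (len n) % (2 * len P)) := by
  rw [lxT, mdT_eq _ _ (by rw [mulU_eq, len_num, len_num]; omega), lamT_eq, mulU_eq, mulU_eq]
  simp only [len_num]
  rw [Lazy.len_addU, dropU, len_snd_iter]
  simp only [len_num]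

theorem FP.lxT' {F G : Tr → Tr} (hF : FP O F) (hG : FP O G) : FP O (fun v => lxT (F v) (G v)) :=
  FP.addU' (FP.mulU' (FP.const' _) hF)
    (FP.dropU' (FP.mdT' (FP.lamT' hG) (FP.mulU' (FP.const' _) hF)) (FP.lamT' hG))

/-- The machines have their own blocks of lengths. -/
theorem up4u (h : ∀ L, IsSuperTally L → InPi2 O L → InNP O Lᶜ) :
    ∃ T : TFNP O, ∀ S : Search O, ∃ k, S.Reduces T (nearPow k) := by
  have hcore : ∃ T : TFNP O, ∀ (R : List Bool → List Bool → Bool) (p : Polynomial ℕ) (i : ℕ)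
      (k : Polynomial ℕ),
      (∀ (K : ℕ) (x y : List Bool), Usol O i K K x y → y.length ≤ p.eval x.length ∧ R x y = true) →
      (∀ (K : ℕ) (x y : List Bool), k.eval x.length ≤ K →
        y.length ≤ p.eval x.length → R x y = true → Usol O i K K x y) →
      ∀ (s : ℕ) (Kf : ℕ → ℕ) (KT : Tr → Tr),
      (∀ v, KT v = num (Kf (len v))) → (∀ F, FP O F → FP O (fun v => KT (F v))) →
      (∀ n, (Kf n = 2 ^ 2 ^ Lx (Nat.pair s i) n) ∧ ∀ s' n',
        (Kf n = 2 ^ 2 ^ Lx (Nat.pair s' i) n') → Kf n = Kf n → k.eval n' ≤ Kf n) →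
      ∃ (f : List Bool → List Bool) (g : List Bool → List Bool → List Bool),
        PolyTimeFun O f ∧ PolyTimeFun₂ O g ∧ ∀ x : List Bool,
        (∀ x' : List Bool, lam x.length / (2 * 2 ^ Nat.pair s i) =
            lam x'.length / (2 * 2 ^ Nat.pair s i) →
          ∃ y : List Bool, y.length ≤ p.eval x'.length ∧ R x' y = true) →
        ∀ y, T.IsSol (f x) y → (g x y).length ≤ p.eval x.length ∧ R x (g x y) = true := by
    refine up_core (O := O) (S := {m | ∃ l, m = 2 ^ 2 ^ l}) (ST := ppT) (fun v => ppT_spec v)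
      (fun F hF => FP.ppT' hF)
      (va := fun K s i n => K = 2 ^ 2 ^ Lx (Nat.pair s i) n)
      (vaT := fun K s i n => andT (ppT K) (eqL (lgT (lgT K))
        (lxT (pow2cap (pairU s i) (lgT (lgT K))) n))) (fun K s i n => ?_)
      (fun F G H J hF hG hH hJ => FP.andT' (FP.ppT' hF) (FP.eqL' (FP.lgT' (FP.lgT' hF))
        (FP.lxT' (FP.pow2cap' (FP.pairU' hG hH) (FP.lgT' (FP.lgT' hF))) hJ)))
      (cd := fun K _ _ _ => K) (cdT := fun K _ _ _ => ulen K) (fun K s i n => ulen_eq K)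
      (fun F G H J hF hG hH hJ => FP.ulen' hF)
      (fun K s i n hv => ?_) (fun K s i n hv => ⟨_, hv⟩)
      (Wn := fun s i n n' => lam n / (2 * 2 ^ Nat.pair s i) = lam n' / (2 * 2 ^ Nat.pair s i))
      (fun K s i n K' s' i' n' hv hv' he => ?_)
      (fun L hL => h L (fun w hw => by
        obtain ⟨n, ⟨l, hl⟩, hn⟩ := hL w hw
        exact ⟨l, by rw [hn, hl]⟩))
    · -- the test
      have hP0 : len (pow2cap (pairU s i) (lgT (lgT K))) ≠ 0 := by
        rw [pow2cap_eq, len_num]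
        have : 0 < 2 ^ len (pairU s i) := by positivity
        omega
      rw [andT_spec, ppT_spec, eqL_spec, lxT_len _ _ hP0, pow2cap_eq, pairU_eq, lgT_eq, lgT_eq]
      simp only [len_num]
      set e := Nat.pair (len s) (len i) with he
      set l0 := Nat.log 2 (Nat.log 2 (len K)) with hl0
      constructor
      · rintro ⟨⟨l, hl⟩, h1⟩
        have hll : l0 = l := by rw [hl0, hl, log_log]
        rw [hll] at h1
        rcases Nat.lt_or_ge (l + 1) (2 ^ e) with h2 | h2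
        · rw [min_eq_right h2.le] at h1
          omega
        · rw [min_eq_left h2] at h1
          rw [hl]
          congr 2
      · intro h1
        have hll : l0 = Lx e (len n) := by rw [hl0, h1, log_log]
        refine ⟨⟨_, h1⟩, ?_⟩
        rw [hll]
        have h2 := (Lx_bounds e (len n)).1
        rw [min_eq_left (by omega)]
        rfl
    · replace hv : K = 2 ^ 2 ^ Lx (Nat.pair s i) n := hv
      show K + s + i + n ≤ 4 * K
      have h1 := le_pow2_pow2 (Lx (Nat.pair s i) n)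
      have h2 := (Lx_bounds (Nat.pair s i) n).1
      have h3 := Nat.left_le_pair s i
      have h4 := Nat.right_le_pair s i
      have h5 : Nat.pair s i < 2 ^ Nat.pair s i := Nat.lt_two_pow_self
      have h6 := (lam_bounds n).2
      have h7 : 2 ^ 2 ^ (lam n + 1) ≤ 2 ^ 2 ^ Lx (Nat.pair s i) n :=
        Nat.pow_le_pow_right (by norm_num) (Nat.pow_le_pow_right (by norm_num) (by omega))
      rw [← hv] at h1 h7
      omega
    · replace hv : K = 2 ^ 2 ^ Lx (Nat.pair s i) n := hv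
      replace hv' : K' = 2 ^ 2 ^ Lx (Nat.pair s' i') n' := hv'
      replace he : K = K' := he
      have h1 := he
      rw [hv, hv'] at h1
      obtain ⟨h2, h3⟩ := Lx_inj (pow2_pow2_inj h1)
      exact ⟨he, (Nat.pair_eq_pair.mp h2).2, h3⟩
  obtain ⟨T, hT⟩ := hcore
  refine ⟨T, fun S => ?_⟩
  obtain ⟨i, k, hsnd, hcmp⟩ := exists_index_mono S.polyTime S.p
  obtain ⟨d, hd⟩ := exists_pow_bound' k
  set e := Nat.pair d i with he
  have hD : ∀ n, 2 ^ 2 ^ Lx e n ≤ (n + 2) ^ (2 ^ (3 * 2 ^ e)) := fun n =>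
    (Nat.pow_le_pow_right (by norm_num) (Nat.pow_le_pow_right (by norm_num)
      (Lx_bounds e n).2)).trans (pow2_lam_le n _)
  have hlx : ∀ n : Tr, lxT (num (2 ^ e)) n = num (Lx e (len n)) := by
    intro n
    have h1 : (2 * 2 ^ e) ≠ 0 := by positivity
    rw [lxT, mdT_eq _ _ (by rw [mulU_eq, len_num, len_num, len_num]; exact h1), lamT_eq,
      mulU_eq, mulU_eq]
    simp only [len_num]
    have h2 : ∀ a b, dropU (num a) (num b) = num (b - a) := by
      intro a
      induction a with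
      | zero => intro b; rfl
      | succ a ih =>
        intro b
        cases b with
        | zero =>
          have h3 := ih 0
          rw [dropU, len_num] at h3 ⊢
          rw [Function.iterate_succ_apply]
          show snd^[a] (num 0) = _
          rw [h3]
          simp
        | succ b =>
          have h3 := ih b
          rw [dropU, len_num] at h3 ⊢
          rw [Function.iterate_succ_apply]
          show snd^[a] (num b) = _
          rw [h3]
          congr 1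
          omega
    rw [h2, addU_num]
    rfl
  obtain ⟨f, g, hf, hg, hfg⟩ := hT S.R S.p i k hsnd hcmp d (fun n => 2 ^ 2 ^ Lx e n)
    (kpT (fun v => lxT (num (2 ^ e)) v) (2 ^ (3 * 2 ^ e)))
    (fun v => kpT_eq (l := fun n => Lx e n) (fun v => hlx v) hD v)
    (fun F hF => FP_kpT (fun F hF => FP.lxT' (F := fun _ => num (2 ^ e)) (G := F)
      (FP.const' _) hF) _ hF)
    (fun n => ⟨rfl, fun s' n' hv _ => by
      have h1 : 2 ^ 2 ^ Lx e n = 2 ^ 2 ^ Lx (Nat.pair s' i) n' := hv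
      obtain ⟨h2, _⟩ := Lx_inj (pow2_pow2_inj h1)
      show k.eval n' ≤ 2 ^ 2 ^ Lx e n
      rw [h1, ← h2]
      refine (hd (2 ^ 2 ^ e) ?_ n').trans ((lt_pow2_lam n' (2 ^ e)).trans ?_)
      · have h3 := le_pow2_pow2 e
        have h4 := Nat.left_le_pair d i
        omega
      · exact Nat.pow_le_pow_right (by norm_num) (Nat.pow_le_pow_right (by norm_num)
          (Lx_bounds e n').1)⟩)
  refine ⟨2 ^ (2 * 2 ^ e), f, g, hf, hg, fun x hx => hfg x (fun x' hx' => hx x' ?_)⟩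
  have hw : ∀ n n', lam n / (2 * 2 ^ e) = lam n' / (2 * 2 ^ e) →
      n ≤ (n' + 2) ^ (2 ^ (2 * 2 ^ e)) := by
    intro n n' hnn
    have h1 := (lam_bounds n).2
    have h2 := pow2_lam_le n' (2 * 2 ^ e)
    have h3 := Nat.div_add_mod (lam n) (2 * 2 ^ e)
    have h4 := Nat.div_add_mod (lam n') (2 * 2 ^ e)
    have h5 := Nat.mod_lt (lam n) (show 0 < 2 * 2 ^ e by positivity)
    rw [hnn] at h3
    have h6 : 2 ^ 2 ^ (lam n + 1) ≤ 2 ^ 2 ^ (lam n' + 2 * 2 ^ e) :=
      Nat.pow_le_pow_right (by norm_num) (Nat.pow_le_pow_right (by norm_num) (by omega))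
    omega
  exact ⟨hw _ _ hx', hw _ _ hx'.symm⟩

end Pool.Agent.H40.EL
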