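import Pool.Agent.H40.EL.Up
import Pool.Agent.H40.EL.Arith2
import Pool.Agent.H13.EL.OrbT

set_option autoImplicit false

/-!
# The step up for windows given by a growth function
-/

namespace Pool.Agent.H40.EL

open Pool.Agent.H88.RO Pool.Agent.H88.RO.Tr Pool.Agent.H65.TS Pool.Agent.H65.NU
open Pool.Agent.H13.EL hiding lam

variable {O : List Bool → Bool} {F : ℕ → ℕ}

/-- the index of the block of `m` in the orbit -/
abbrev lm (F : ℕ → ℕ) (m : ℕ) : ℕ := Pool.Agent.H13.EL.lam F m

theorem iter_pow (hF : Nice O F) (q : ℕ) {n d : ℕ} (hn : 2 ≤ n) (hd : 1 ≤ d) :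
    2 ≤ F^[q] n ∧ F^[q] (n ^ d) ≤ (F^[q] n) ^ d := by
  induction q with
  | zero => exact ⟨hn, le_rfl⟩
  | succ q ih =>
    obtain ⟨h1, h2⟩ := ih
    rw [Function.iterate_succ_apply', Function.iterate_succ_apply']
    refine ⟨?_, (hF.mono h2).trans (hF.pow _ _ h1 hd)⟩
    have := hF.lt _ h1
    omega

theorem iter_mono (hF : Nice O F) (q : ℕ) : Monotone (F^[q]) := hF.mono.iterate q

theorem orb_add (i q : ℕ) : orb F (i + q) = F^[q] (orb F i) := by
  unfold orb
  rw [add_comm, Function.iterate_add_apply]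

theorem two_le_pow {m d : ℕ} (hm : 2 ≤ m) (hd : 1 ≤ d) : 2 ≤ m ^ d := by
  calc 2 ≤ m := hm
    _ = m ^ 1 := (pow_one m).symm
    _ ≤ m ^ d := Nat.pow_le_pow_right (by omega) hd

/-- blocks of powers give windows -/
theorem block_window (hF : Nice O F) {q m m' d : ℕ} (hm : 2 ≤ m) (hd : 1 ≤ d)
    (h : lm F (m' ^ d) < lm F (m ^ d) + q) : m' < F^[q] m := by
  have hmd := two_le_pow hm hd
  have h1 := lt_orb_lam hF (m' ^ d)
  have h2 : orb F (lm F (m' ^ d) + 1) ≤ orb F (lm F (m ^ d) + q) :=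
    (orb_strictMono hF).monotone (by unfold lm at h ⊢; omega)
  have h3 : orb F (lm F (m ^ d) + q) ≤ F^[q] (m ^ d) := by
    rw [orb_add]
    exact iter_mono hF q (orb_lam_le hmd)
  have h4 := (iter_pow hF q hm hd).2
  by_contra hcon
  push Not at hcon
  have h5 : (F^[q] m) ^ d ≤ m' ^ d := Nat.pow_le_pow_left hcon d
  unfold lm at h1 h2 h3
  omega

/-! ### one problem -/

/-- the clock -/
def KF (F : ℕ → ℕ) (d n : ℕ) : ℕ := orb F (lm F ((n + 2) ^ d) + 1)

/-- program for the clock -/
def kfT (F : ℕ → ℕ) (d : ℕ) (n : Tr) : Tr :=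
  unF F (fst (lamP F (powU d (node leaf (node leaf n)))))

theorem kfT_eq (hF : Nice O F) (d : ℕ) (n : Tr) : kfT F d n = num (KF F d (len n)) := by
  rw [kfT, lamP_eq hF, fst_node, unF, powU_eq, len_num, len_num, KF, orb_succ]
  rfl

theorem FP_kfT (hF : Nice O F) (d : ℕ) {G : Tr → Tr} (hG : FP O G) :
    FP O (fun v => kfT F d (G v)) :=
  FP.unF' hF (FP.fst' (FP.lamP' hF (FP.powU' d (FP.node' FP.leaf' (FP.node' FP.leaf' hG)))))

theorem lt_KF (hF : Nice O F) (d n : ℕ) : (n + 2) ^ d < KF F d n := lt_orb_lam hF _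

theorem KF_inj (hF : Nice O F) {d n n' : ℕ} (h : KF F d n = KF F d n') :
    lm F ((n + 2) ^ d) = lm F ((n' + 2) ^ d) := by
  have := (orb_strictMono hF).injective h
  omega

theorem upF (hF : Nice O F) (h : ∀ L, IsOrbit F L → InPi2 O L → InNP O Lᶜ) :
    ∀ S : Search O, ∃ T : TFNP O, S.Reduces T (window F) := by
  intro S
  obtain ⟨i0, k, hsnd, hcmp⟩ := exists_index_mono S.polyTime S.p
  obtain ⟨d0, hd0⟩ := exists_pow_bound' k
  set d := d0 + i0 + 1 with hd
  have hcore : ∃ T : TFNP O, ∀ (R : List Bool → List Bool → Bool) (p : Polynomial ℕ) (i : ℕ)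
      (k : Polynomial ℕ),
      (∀ (K : ℕ) (x y : List Bool), Usol O i K K x y → y.length ≤ p.eval x.length ∧ R x y = true) →
      (∀ (K : ℕ) (x y : List Bool), k.eval x.length ≤ K →
        y.length ≤ p.eval x.length → R x y = true → Usol O i K K x y) →
      ∀ (s : ℕ) (Kf : ℕ → ℕ) (KT : Tr → Tr),
      (∀ v, KT v = num (Kf (len v))) → (∀ F, FP O F → FP O (fun v => KT (F v))) →
      (∀ n, (Kf n = KF F d n ∧ s = 0 ∧ i = i0) ∧ ∀ s' n',
        (Kf n = KF F d n' ∧ s' = 0 ∧ i = i0) → Kf n = Kf n → k.eval n' ≤ Kf n) →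
      ∃ (f : List Bool → List Bool) (g : List Bool → List Bool → List Bool),
        PolyTimeFun O f ∧ PolyTimeFun₂ O g ∧ ∀ x : List Bool,
        (∀ x' : List Bool, lm F ((x.length + 2) ^ d) = lm F ((x'.length + 2) ^ d) →
          ∃ y : List Bool, y.length ≤ p.eval x'.length ∧ R x' y = true) →
        ∀ y, T.IsSol (f x) y → (g x y).length ≤ p.eval x.length ∧ R x (g x y) = true := by
    refine up_core (O := O) (S := Set.range (orb F)) (ST := orbT F) (fun v => orbT_spec hF v)
      (fun _ hG => FP.orbT' hF hG)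
      (va := fun K s i n => K = KF F d n ∧ s = 0 ∧ i = i0)
      (vaT := fun K s i n => andT (eqL K (kfT F d n)) (andT (eqL s leaf) (eqL i (num i0))))
      (fun K s i n => ?_)
      (fun F G H J hF' hG hH hJ => FP.andT' (FP.eqL' hF' (FP_kfT hF d hJ))
        (FP.andT' (FP.eqL' hG FP.leaf') (FP.eqL' hH (FP.const' _))))
      (cd := fun K _ _ _ => K) (cdT := fun K _ _ _ => ulen K) (fun K s i n => ulen_eq K)
      (fun F G H J hF hG hH hJ => FP.ulen' hF)
      (fun K s i n hv => ?_) (fun K s i n hv => ⟨_, hv.1.symm⟩)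
      (Wn := fun _ _ n n' => lm F ((n + 2) ^ d) = lm F ((n' + 2) ^ d))
      (fun K s i n K' s' i' n' hv hv' he => ?_)
      (fun L hL => h L (fun w hw => by
        obtain ⟨n, ⟨l, hl⟩, hn⟩ := hL w hw
        exact ⟨l, by rw [hn, ← hl]; rfl⟩))
    · rw [andT_spec, andT_spec, eqL_spec, eqL_spec, eqL_spec, kfT_eq hF]
      simp only [len_num, len]
    · obtain ⟨rfl, rfl, rfl⟩ := hv
      have h1 := lt_KF hF d n
      have h2 : d ≤ (n + 2) ^ d := by
        have h3 : d < 2 ^ d := Nat.lt_two_pow_self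
        have h4 : 2 ^ d ≤ (n + 2) ^ d := Nat.pow_le_pow_left (by omega) d
        omega
      have h3 : n + 2 ≤ (n + 2) ^ d := Nat.le_self_pow (by omega) _
      show KF F d n + 0 + i + n ≤ 4 * KF F d n
      omega
    · obtain ⟨h1, _, h3⟩ := hv
      obtain ⟨h1', _, h3'⟩ := hv'
      replace he : K = K' := he
      refine ⟨he, by rw [h3, h3'], ?_⟩
      rw [h1, h1'] at he
      exact KF_inj hF he
  obtain ⟨T, hT⟩ := hcore
  obtain ⟨f, g, hf, hg, hfg⟩ := hT S.R S.p i0 k hsnd hcmp 0 (KF F d) (kfT F d)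
    (fun v => kfT_eq hF d v) (fun _ hG => FP_kfT hF d hG)
    (fun n => ⟨⟨rfl, rfl, rfl⟩, fun s' n' hv _ => by
      rw [hv.1]
      exact (hd0 d (by omega) n').trans (lt_KF hF d n').le⟩)
  refine ⟨T, f, g, hf, hg, fun x hx => hfg x (fun x' hx' => hx x' ?_)⟩
  have h1 := block_window hF (q := 1) (m := x.length + 2) (m' := x'.length + 2) (d := d)
    (by omega) (by omega) (by omega)
  have h2 := block_window hF (q := 1) (m := x'.length + 2) (m' := x.length + 2) (d := d)
    (by omega) (by omega) (by omega)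
  exact ⟨h1, h2⟩

/-! ### all problems -/

theorem two_pow_odd_inj' {e e' b b' : ℕ} (h : 2 ^ e * (2 * b + 1) = 2 ^ e' * (2 * b' + 1)) :
    e = e' ∧ b = b' := by
  have key : ∀ {e e' b b' : ℕ}, e < e' → 2 ^ e * (2 * b + 1) ≠ 2 ^ e' * (2 * b' + 1) := by
    intro e e' b b' hlt he
    obtain ⟨t, rfl⟩ : ∃ t, e' = e + 1 + t := ⟨e' - (e + 1), by omega⟩
    have h1 : 2 ^ e * (2 * b + 1) = 2 ^ e * (2 * (2 ^ t * (2 * b' + 1))) := by
      rw [he, pow_add, pow_add]; ring
    have h2 := Nat.eq_of_mul_eq_mul_left (by positivity) h1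
    omega
  rcases lt_trichotomy e e' with h1 | h1 | h1
  · exact absurd h (key h1)
  · rw [h1] at h
    have h2 := Nat.eq_of_mul_eq_mul_left (by positivity) h
    exact ⟨h1, by omega⟩
  · exact absurd h.symm (key h1)

/-- the number with two-adic valuation `e` next to `μ` (here `P = 2^e`) -/
def jx (P μ : ℕ) : ℕ := P + (μ + P - (μ + P) % (2 * P))

theorem jx_eq (P μ : ℕ) : jx P μ = P * (2 * ((μ + P) / (2 * P)) + 1) := by
  have h1 := Nat.div_add_mod (μ + P) (2 * P)
  have h2 : μ + P - (μ + P) % (2 * P) = 2 * P * ((μ + P) / (2 * P)) := by omega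
  rw [jx, h2]
  ring

theorem jx_bounds {P : ℕ} (hP : 0 < P) (μ : ℕ) : μ < jx P μ ∧ jx P μ ≤ μ + 2 * P := by
  have h1 := Nat.mod_lt (μ + P) (show 0 < 2 * P by omega)
  have h2 := Nat.mod_le (μ + P) (2 * P)
  unfold jx
  omega

theorem le_jx (P μ : ℕ) : P ≤ jx P μ := Nat.le_add_right _ _

/-- program for `jx` -/
def jxT (P μ : Tr) : Tr := addU P (dropU (mdT (addU μ P) (mulU (num 2) P)) (addU (ulen μ) P))

theorem jxT_len (P μ : Tr) (hP : len P ≠ 0) : len (jxT P μ) = jx (len P) (len μ) := by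
  rw [jxT, mdT_eq _ _ (by rw [mulU_eq, len_num, len_num]; omega), mulU_eq, ulen_eq]
  rw [Lazy.len_addU, dropU, len_snd_iter]
  simp only [len_num, Lazy.len_addU]
  rfl

theorem FP.jxT' {G H : Tr → Tr} (hG : FP O G) (hH : FP O H) : FP O (fun v => jxT (G v) (H v)) :=
  FP.addU' hG (FP.dropU' (FP.mdT' (FP.addU' hH hG) (FP.mulU' (FP.const' _) hG))
    (FP.addU' (FP.ulen' hH) hG))

/-- the index of the item of machine `e` for length `n` -/
def jF (F : ℕ → ℕ) (e n : ℕ) : ℕ := jx (2 ^ e) (lm F ((n + 2) ^ (2 ^ e)))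

/-- the test `K = orb F (jF F e n)` -/
def tsF (F : ℕ → ℕ) (K e n : Tr) : Tr :=
  andT (orbT F K) (eqL (snd (lamP F K)) (jxT (pow2cap e (snd (lamP F K)))
    (snd (lamP F (fst (sqst^[len e] (node (node leaf (node leaf n)) K)))))))

theorem tsF_spec (hF : Nice O F) (K e n : Tr) :
    tsF F K e n ≠ leaf ↔ len K = orb F (jF F (len e) (len n)) := by
  have hP0 : len (pow2cap e (snd (lamP F K))) ≠ 0 := by
    rw [pow2cap_eq, len_num]
    have : 0 < 2 ^ len e := by positivity
    omega
  obtain ⟨m, h1, h2⟩ := sqst_iter (node leaf (node leaf n)) K (len e)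
  have e1 : len (node leaf (node leaf n)) = len n + 2 := rfl
  rw [e1] at h2
  rw [tsF, andT_spec, orbT_spec hF, eqL_spec, jxT_len _ _ hP0, h1, fst_node]
  rw [lamP_eq hF, lamP_eq hF, snd_node, snd_node, pow2cap_eq]
  simp only [len_num]
  set M := (len n + 2) ^ (2 ^ len e) with hM
  set j' := lm F (len K) with hj'
  have hj'' : Pool.Agent.H13.EL.lam F (len K) = j' := rfl
  rw [hj'']
  have hM2 : 2 ≤ M := two_le_pow (by omega) Nat.one_le_two_pow
  constructor
  · rintro ⟨⟨l, hl⟩, h3⟩
    have hll : j' = l := by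
      rw [hj', ← hl]
      exact lam_eq hF le_rfl (orb_strictMono hF (Nat.lt_succ_self l))
    have hPle : 2 ^ len e ≤ j' + 1 := by
      by_contra hcon
      push Not at hcon
      rw [min_eq_right hcon.le] at h3
      have := le_jx (j' + 1) (Pool.Agent.H13.EL.lam F (len m))
      omega
    rw [min_eq_left hPle] at h3
    have hK2 : 2 ≤ len K := by rw [← hl]; exact two_le_orb hF l
    have hmK : len m < len K + 1 := by
      by_contra hcon
      push Not at hcon
      have h4 : Pool.Agent.H13.EL.lam F (len K) ≤ Pool.Agent.H13.EL.lam F (len m) :=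
        lam_mono hF hK2 (by omega)
      have h5 := (jx_bounds (P := 2 ^ len e) (by positivity)
        (Pool.Agent.H13.EL.lam F (len m))).1
      rw [hj''] at h4
      omega
    have hmM : len m = M := by
      rw [min_eq_left hmK.le] at h2
      rcases Nat.lt_or_ge M (len K + 1) with h4 | h4
      · rw [min_eq_left h4.le] at h2
        exact h2
      · rw [min_eq_right h4] at h2
        omega
    rw [hmM] at h3
    rw [← hl, ← hll, h3]
    rfl
  · intro h3
    have hll : j' = jF F (len e) (len n) := by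
      rw [hj', h3]
      exact lam_eq hF le_rfl (orb_strictMono hF (Nat.lt_succ_self _))
    have hb := jx_bounds (P := 2 ^ len e) (by positivity) (lm F M)
    have hPle : 2 ^ len e ≤ j' + 1 := by
      have := le_jx (2 ^ len e) (lm F M)
      rw [hll]
      unfold jF
      rw [← hM]
      omega
    rw [min_eq_left hPle]
    have hMK : M < len K := by
      have h4 := lt_orb_lam hF M
      have h5 : orb F (lm F M + 1) ≤ orb F (jF F (len e) (len n)) :=
        (orb_strictMono hF).monotone (by unfold jF; rw [← hM]; omega)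
      rw [h3]
      exact h4.trans_le h5
    have hmM : len m = M := by
      rw [min_eq_left (show M ≤ len K + 1 by omega)] at h2
      rcases Nat.lt_or_ge (len m) (len K + 1) with h4 | h4
      · rw [min_eq_left h4.le] at h2
        exact h2
      · rw [min_eq_right h4] at h2
        omega
    rw [hmM]
    exact ⟨⟨_, h3.symm⟩, hll⟩

theorem FP_tsF (hF : Nice O F) {G H J : Tr → Tr} (hG : FP O G) (hH : FP O H) (hJ : FP O J) :
    FP O (fun v => tsF F (G v) (H v) (J v)) := by
  have hsq : FP O (fun v => sqst^[len (H v)] (node (node leaf (node leaf (J v))) (G v))) := by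
    have hd : FP O sqst := by
      have h1 : FP O (fun v => fst v) := FP.fst' FP.id'
      have h2 : FP O (fun v => snd v) := FP.snd' FP.id'
      have h3 := FP.cs' (FP.dropU' h2 (FP.mulU' h1 h1)) (FP.node' (FP.mulU' h1 h1) h2)
        (FP.node' (FP.node' FP.leaf' (FP.ulen' h2)) h2)
      exact h3
    refine FP.iterate' hd hH (FP.node' (FP.node' FP.leaf' (FP.node' FP.leaf' hJ)) hG)
      ⟨3 * Polynomial.X + 10, fun n x i _ => ?_⟩
    simp only [Polynomial.eval_add, Polynomial.eval_mul, Polynomial.eval_ofNat,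
      Polynomial.eval_X]
    have key : ∀ i, snd (sqst^[i] x) = snd x ∧ (sqst^[i] x = x ∨ ∃ m, m ≤ len (snd x) + 1 ∧
        sqst^[i] x = node (num m) (snd x)) := by
      intro i
      induction i with
      | zero => exact ⟨rfl, Or.inl rfl⟩
      | succ i ih =>
        obtain ⟨h1, _⟩ := ih
        rw [Function.iterate_succ_apply', sqst_def, h1]
        by_cases h : dropU (snd x) (mulU (fst (sqst^[i] x)) (fst (sqst^[i] x))) = leaf
        · rw [cs_pos _ _ h]
          refine ⟨rfl, Or.inr ⟨len (fst (sqst^[i] x)) * len (fst (sqst^[i] x)), ?_, ?_⟩⟩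
          · rw [dropU_eq_leaf, mulU_eq, len_num] at h
            omega
          · rw [mulU_eq]
        · rw [cs_neg _ _ h]
          refine ⟨rfl, Or.inr ⟨len (snd x) + 1, le_rfl, ?_⟩⟩
          rw [ulen_eq]
          rfl
    rcases (key i).2 with h | ⟨m, hm, h⟩
    · rw [h]; omega
    · rw [h]
      simp only [size, size_num]
      have h3 := size_snd_le x
      have h4 := len_le_size (snd x)
      omega
  have hl := FP.snd' (FP.lamP' hF hG)
  exact FP.andT' (FP.orbT' hF hG) (FP.eqL' hl (FP.jxT' (FP.pow2cap' hH hl)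
    (FP.snd' (FP.lamP' hF (FP.fst' hsq)))))

/-- one step along the orbit, up to the index `j`; states are `node (node N i) j` -/
def upstep (F : ℕ → ℕ) (s : Tr) : Tr :=
  cs (dropU (snd (fst s)) (snd s)) s
    (node (node (unF F (fst (fst s))) (node leaf (snd (fst s)))) (snd s))

theorem upstep_iter (a j t : ℕ) (haj : a ≤ j) :
    (upstep F)^[t] (node (node (num (orb F a)) (num a)) (num j)) =
      node (node (num (orb F (min (a + t) j))) (num (min (a + t) j))) (num j) := by
  induction t with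
  | zero => rw [Function.iterate_zero, id, Nat.add_zero, min_eq_left haj]
  | succ t ih =>
    rw [Function.iterate_succ_apply', ih, upstep]
    simp only [fst_node, snd_node]
    rcases Nat.lt_or_ge (a + t) j with h | h
    · rw [min_eq_left h.le, min_eq_left (show a + (t + 1) ≤ j by omega)]
      rw [cs_neg _ _ (by rw [ne_eq, dropU_eq_leaf, len_num, len_num]; omega), unF, len_num,
        show a + (t + 1) = (a + t) + 1 from rfl, orb_succ]
      rfl
    · rw [min_eq_right h, min_eq_right (show j ≤ a + (t + 1) by omega)]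
      rw [cs_pos _ _ (by rw [dropU_eq_leaf])]

theorem FP_upstep (hF : Nice O F) {G : Tr → Tr} (hG : FP O G) :
    FP O (fun v => upstep F (G v)) :=
  FP.cs' (FP.dropU' (FP.snd' (FP.fst' hG)) (FP.snd' hG)) hG
    (FP.node' (FP.node' (FP.unF' hF (FP.fst' (FP.fst' hG)))
      (FP.node' FP.leaf' (FP.snd' (FP.fst' hG)))) (FP.snd' hG))

theorem FP_upstep_iter (hF : Nice O F) (q : ℕ) {G : Tr → Tr} (hG : FP O G) :
    FP O (fun v => (upstep F)^[q] (G v)) := by
  induction q generalizing G with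
  | zero => exact hG
  | succ q ih => exact ih (FP_upstep hF hG)

/-- program for the clock of machine `e` -/
def kuT (F : ℕ → ℕ) (e : ℕ) (n : Tr) : Tr :=
  fst (fst ((upstep F)^[2 * 2 ^ e] (node (lamP F (powU (2 ^ e) (node leaf (node leaf n))))
    (jxT (num (2 ^ e)) (snd (lamP F (powU (2 ^ e) (node leaf (node leaf n)))))))))

theorem dropU_num (a b : ℕ) : dropU (num a) (num b) = num (b - a) := by
  induction a generalizing b with
  | zero => rfl
  | succ a ih =>
    cases b with
    | zero =>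
      have h3 := ih 0
      rw [dropU, len_num] at h3 ⊢
      rw [Function.iterate_succ_apply]
      show snd^[a] (num 0) = _
      rw [h3]
      simp
    | succ b =>
      have h3 := ih b
      rw [dropU, len_num] at h3 ⊢
      rw [Function.iterate_succ_apply]
      show snd^[a] (num b) = _
      rw [h3]
      congr 1
      omega

theorem kuT_eq (hF : Nice O F) (e : ℕ) (n : Tr) :
    kuT F e n = num (orb F (jF F e (len n))) := by
  have hP : 0 < 2 ^ e := by positivity
  have h1 : jxT (num (2 ^ e)) (num (lm F ((len n + 2) ^ 2 ^ e))) =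
      num (jF F e (len n)) := by
    rw [jxT, mdT_eq _ _ (by rw [mulU_eq, len_num, len_num, len_num]; omega), mulU_eq, ulen_eq,
      addU_num, len_num, len_num, len_num, len_num, len_num, addU_num, dropU_num, addU_num]
    rfl
  have h2 : len (powU (2 ^ e) (node leaf (node leaf n))) = (len n + 2) ^ 2 ^ e := by
    rw [powU_eq, len_num]
    rfl
  have hb := jx_bounds hP (lm F ((len n + 2) ^ 2 ^ e))
  have hj : jF F e (len n) = jx (2 ^ e) (lm F ((len n + 2) ^ 2 ^ e)) := rfl
  rw [kuT, lamP_eq hF, snd_node, h2]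
  rw [show num (Pool.Agent.H13.EL.lam F ((len n + 2) ^ 2 ^ e)) =
    num (lm F ((len n + 2) ^ 2 ^ e)) from rfl, h1, upstep_iter _ _ _ (by rw [hj]; exact hb.1.le),
    fst_node, fst_node, min_eq_right (by rw [hj]; exact hb.2)]

theorem FP_kuT (hF : Nice O F) (e : ℕ) {G : Tr → Tr} (hG : FP O G) :
    FP O (fun v => kuT F e (G v)) := by
  have h1 := FP.lamP' hF (FP.powU' (2 ^ e) (FP.node' FP.leaf' (FP.node' FP.leaf' hG)))
  exact FP.fst' (FP.fst' (FP_upstep_iter hF (2 * 2 ^ e)
    (FP.node' h1 (FP.jxT' (FP.const' (num (2 ^ e))) (FP.snd' h1)))))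

theorem lt_orb_jF (hF : Nice O F) (e n : ℕ) : (n + 2) ^ (2 ^ e) < orb F (jF F e n) := by
  have h1 := lt_orb_lam hF ((n + 2) ^ 2 ^ e)
  have h2 := (jx_bounds (P := 2 ^ e) (by positivity) (lm F ((n + 2) ^ 2 ^ e))).1
  exact h1.trans_le ((orb_strictMono hF).monotone h2)

theorem jF_inj {e n e' n' : ℕ} (h : jF F e n = jF F e' n') : e = e' ∧
    lm F ((n' + 2) ^ 2 ^ e) < lm F ((n + 2) ^ 2 ^ e) + 2 * 2 ^ e := by
  have h0 := h
  unfold jF at h
  rw [jx_eq, jx_eq] at h
  obtain ⟨h1, _⟩ := two_pow_odd_inj' h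
  subst h1
  refine ⟨rfl, ?_⟩
  have h2 := jx_bounds (P := 2 ^ e) (by positivity) (lm F ((n + 2) ^ 2 ^ e))
  have h3 := jx_bounds (P := 2 ^ e) (by positivity) (lm F ((n' + 2) ^ 2 ^ e))
  unfold jF at h0
  omega

/-- The machines have their own blocks of lengths. -/
theorem upFu (hF : Nice O F) (h : ∀ L, IsOrbit F L → InPi2 O L → InNP O Lᶜ) :
    ∃ T : TFNP O, ∀ S : Search O, ∃ q, S.Reduces T (window (F^[q])) := by
  have hcore : ∃ T : TFNP O, ∀ (R : List Bool → List Bool → Bool) (p : Polynomial ℕ) (i : ℕ)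
      (k : Polynomial ℕ),
      (∀ (K : ℕ) (x y : List Bool), Usol O i K K x y → y.length ≤ p.eval x.length ∧ R x y = true) →
      (∀ (K : ℕ) (x y : List Bool), k.eval x.length ≤ K →
        y.length ≤ p.eval x.length → R x y = true → Usol O i K K x y) →
      ∀ (s : ℕ) (Kf : ℕ → ℕ) (KT : Tr → Tr),
      (∀ v, KT v = num (Kf (len v))) → (∀ F, FP O F → FP O (fun v => KT (F v))) →
      (∀ n, (Kf n = orb F (jF F (Nat.pair s i) n)) ∧ ∀ s' n',
        (Kf n = orb F (jF F (Nat.pair s' i) n')) → Kf n = Kf n → k.eval n' ≤ Kf n) →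
      ∃ (f : List Bool → List Bool) (g : List Bool → List Bool → List Bool),
        PolyTimeFun O f ∧ PolyTimeFun₂ O g ∧ ∀ x : List Bool,
        (∀ x' : List Bool, (x'.length + 2 < F^[2 * 2 ^ Nat.pair s i] (x.length + 2) ∧
            x.length + 2 < F^[2 * 2 ^ Nat.pair s i] (x'.length + 2)) →
          ∃ y : List Bool, y.length ≤ p.eval x'.length ∧ R x' y = true) →
        ∀ y, T.IsSol (f x) y → (g x y).length ≤ p.eval x.length ∧ R x (g x y) = true := by
    refine up_core (O := O) (S := Set.range (orb F)) (ST := orbT F) (fun v => orbT_spec hF v)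
      (fun _ hG => FP.orbT' hF hG)
      (va := fun K s i n => K = orb F (jF F (Nat.pair s i) n))
      (vaT := fun K s i n => tsF F K (pairU s i) n) (fun K s i n => ?_)
      (fun _ G H J hF' hG hH hJ => FP_tsF hF hF' (FP.pairU' hG hH) hJ)
      (cd := fun K _ _ _ => K) (cdT := fun K _ _ _ => ulen K) (fun K s i n => ulen_eq K)
      (fun F G H J hF hG hH hJ => FP.ulen' hF)
      (fun K s i n hv => ?_) (fun K s i n hv => ⟨_, hv.symm⟩)
      (Wn := fun s i n n' => n' + 2 < F^[2 * 2 ^ Nat.pair s i] (n + 2) ∧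
        n + 2 < F^[2 * 2 ^ Nat.pair s i] (n' + 2))
      (fun K s i n K' s' i' n' hv hv' he => ?_)
      (fun L hL => h L (fun w hw => by
        obtain ⟨n, ⟨l, hl⟩, hn⟩ := hL w hw
        exact ⟨l, by rw [hn, ← hl]; rfl⟩))
    · rw [tsF_spec hF, pairU_eq, len_num]
    · replace hv : K = orb F (jF F (Nat.pair s i) n) := hv
      show K + s + i + n ≤ 4 * K
      have h1 := lt_orb_jF hF (Nat.pair s i) n
      rw [← hv] at h1
      have h3 := Nat.left_le_pair s i
      have h4 := Nat.right_le_pair s i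
      have h5 : Nat.pair s i < 2 ^ Nat.pair s i := Nat.lt_two_pow_self
      have h6 : n + 2 ≤ (n + 2) ^ (2 ^ Nat.pair s i) :=
        Nat.le_self_pow (by positivity) _
      have h7 : 2 ^ Nat.pair s i < 2 ^ 2 ^ Nat.pair s i := Nat.lt_two_pow_self
      have h8 : 2 ^ 2 ^ Nat.pair s i ≤ (n + 2) ^ (2 ^ Nat.pair s i) :=
        Nat.pow_le_pow_left (by omega) _
      omega
    · replace hv : K = orb F (jF F (Nat.pair s i) n) := hv
      replace hv' : K' = orb F (jF F (Nat.pair s' i') n') := hv'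
      replace he : K = K' := he
      have h1 := he
      rw [hv, hv'] at h1
      have h2 := (orb_strictMono hF).injective h1
      obtain ⟨h3, h4⟩ := jF_inj h2
      have h5 := jF_inj h2.symm
      rw [← h3] at h5
      exact ⟨he, (Nat.pair_eq_pair.mp h3).2,
        block_window hF (by omega) Nat.one_le_two_pow h4,
        block_window hF (by omega) Nat.one_le_two_pow h5.2⟩
  obtain ⟨T, hT⟩ := hcore
  refine ⟨T, fun S => ?_⟩
  obtain ⟨i, k, hsnd, hcmp⟩ := exists_index_mono S.polyTime S.p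
  obtain ⟨d, hd⟩ := exists_pow_bound' k
  set e := Nat.pair d i with he
  obtain ⟨f, g, hf, hg, hfg⟩ := hT S.R S.p i k hsnd hcmp d (fun n => orb F (jF F e n))
    (kuT F e) (fun v => kuT_eq hF e v) (fun _ hG => FP_kuT hF e hG)
    (fun n => ⟨rfl, fun s' n' hv _ => by
      have h1 : orb F (jF F e n) = orb F (jF F (Nat.pair s' i) n') := hv
      obtain ⟨h2, _⟩ := jF_inj ((orb_strictMono hF).injective h1)
      show k.eval n' ≤ orb F (jF F e n)
      rw [h1, ← h2]
      refine (hd (2 ^ e) ?_ n').trans (lt_orb_jF hF e n').le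
      have h3 : e < 2 ^ e := Nat.lt_two_pow_self
      have h4 := Nat.left_le_pair d i
      omega⟩)
  exact ⟨2 * 2 ^ e, f, g, hf, hg, fun x hx => hfg x (fun x' hx' => hx x' hx')⟩

end Pool.Agent.H40.EL
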