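import Pool.Agent.H40.EL.UpF

set_option autoImplicit false

/-!
# Slow growth functions: one total problem for all search problems, with the same windows
-/

namespace Pool.Agent.H40.EL

open Pool.Agent.H88.RO Pool.Agent.H88.RO.Tr Pool.Agent.H65.TS Pool.Agent.H65.NU
open Pool.Agent.H13.EL hiding lam

variable {O : List Bool → Bool} {F : ℕ → ℕ}

theorem orb_two_pow {c : ℕ} (hc : ∀ i, orb F (2 * i) ≤ orb F i ^ c) (t i : ℕ) :
    orb F (2 ^ t * i) ≤ orb F i ^ (c ^ t) := by
  induction t with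
  | zero => simp
  | succ t ih =>
    have e1 : 2 ^ (t + 1) * i = 2 * (2 ^ t * i) := by rw [pow_succ]; ring
    rw [e1]
    refine (hc _).trans ?_
    rw [pow_succ, pow_mul]
    exact Nat.pow_le_pow_left ih c

/-! ### walking to a given index, with a cap -/

/-- one step along the orbit; states are `node (node N i) (node j cap)` -/
def cwstep (F : ℕ → ℕ) (s : Tr) : Tr :=
  cs (dropU (snd (fst s)) (fst (snd s))) s
    (cs (dropU (snd (snd s)) (unF F (fst (fst s))))
      (node (node (unF F (fst (fst s))) (node leaf (snd (fst s)))) (snd s)) s)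

theorem cwstep_iter (hF : Nice O F) (j t : ℕ) (C : Tr) (hC : orb F j ≤ len C) :
    (cwstep F)^[t] (node (node (num (orb F 0)) (num 0)) (node (num j) C)) =
      node (node (num (orb F (min t j))) (num (min t j))) (node (num j) C) := by
  induction t with
  | zero => rw [Function.iterate_zero, id, Nat.zero_min]
  | succ t ih =>
    rw [Function.iterate_succ_apply', ih, cwstep]
    simp only [fst_node, snd_node]
    rcases Nat.lt_or_ge t j with h | h
    · rw [min_eq_left h.le, min_eq_left (show t + 1 ≤ j by omega)]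
      have h1 : orb F (t + 1) ≤ orb F j := (orb_strictMono hF).monotone h
      rw [orb_succ] at h1
      rw [cs_neg _ _ (by rw [ne_eq, dropU_eq_leaf, len_num, len_num]; omega),
        cs_pos _ _ (by rw [dropU_eq_leaf, unF, len_num, len_num]; omega), unF, len_num,
        orb_succ]
      rfl
    · rw [min_eq_right h, min_eq_right (show j ≤ t + 1 by omega)]
      rw [cs_pos _ _ (by rw [dropU_eq_leaf])]

theorem cwstep_bound (x : Tr) (i : ℕ) : snd ((cwstep F)^[i] x) = snd x ∧
    size (snd (fst ((cwstep F)^[i] x))) ≤ size x + 2 * i ∧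
    ((cwstep F)^[i] x = x ∨ ∃ a w, a ≤ len (snd (snd x)) ∧ size w ≤ size x + 2 * i ∧
      (cwstep F)^[i] x = node (node (num a) w) (snd x)) := by
  induction i with
  | zero =>
    refine ⟨rfl, ?_, Or.inl rfl⟩
    have h1 := size_fst_le x
    have h2 := size_snd_le (fst x)
    simp only [Function.iterate_zero, id]
    omega
  | succ i ih =>
    obtain ⟨h1, h2, h3⟩ := ih
    have hkeep : snd ((cwstep F)^[i] x) = snd x ∧
        size (snd (fst ((cwstep F)^[i] x))) ≤ size x + 2 * (i + 1) ∧
        ((cwstep F)^[i] x = x ∨ ∃ a w, a ≤ len (snd (snd x)) ∧ size w ≤ size x + 2 * (i + 1) ∧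
          (cwstep F)^[i] x = node (node (num a) w) (snd x)) := by
      refine ⟨h1, by omega, ?_⟩
      rcases h3 with h3 | ⟨a, w, h4, h5, h6⟩
      · exact Or.inl h3
      · exact Or.inr ⟨a, w, h4, by omega, h6⟩
    rw [Function.iterate_succ_apply', cwstep]
    by_cases h : dropU (snd (fst ((cwstep F)^[i] x))) (fst (snd ((cwstep F)^[i] x))) = leaf
    · rw [cs_pos _ _ h]
      exact hkeep
    · rw [cs_neg _ _ h]
      by_cases h' : dropU (snd (snd ((cwstep F)^[i] x)))
          (unF F (fst (fst ((cwstep F)^[i] x)))) = leaf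
      · rw [cs_pos _ _ h', h1]
        refine ⟨rfl, ?_, Or.inr ⟨F (len (fst (fst ((cwstep F)^[i] x)))),
          node leaf (snd (fst ((cwstep F)^[i] x))), ?_, ?_, rfl⟩⟩
        · simp only [fst_node, snd_node, size]
          omega
        · rw [dropU_eq_leaf, unF, len_num, h1] at h'
          exact h'
        · simp only [size]
          omega
      · rw [cs_neg _ _ h']
        exact hkeep

/-- the number `orb F j`, for `j` in unary, if it is at most the cap `C` -/
def owT (F : ℕ → ℕ) (j C : Tr) : Tr :=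
  fst (fst ((cwstep F)^[len j] (node (node (num 2) leaf) (node j C))))

theorem owT_eq (hF : Nice O F) (j : ℕ) (C : Tr) (hC : orb F j ≤ len C) :
    owT F (num j) C = num (orb F j) := by
  have h := cwstep_iter hF j j C hC
  rw [min_self] at h
  rw [owT, len_num]
  have e : node (node (num 2) leaf) (node (num j) C) =
    node (node (num (orb F 0)) (num 0)) (node (num j) C) := rfl
  rw [e, h, fst_node, fst_node]

theorem FP_owT (hF : Nice O F) {G H : Tr → Tr} (hG : FP O G) (hH : FP O H) :
    FP O (fun v => owT F (G v) (H v)) := by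
  have hd : FP O (cwstep F) := by
    have h1 : FP O (fun v => snd (fst v)) := FP.snd' (FP.fst' FP.id')
    have h2 : FP O (fun v => fst (snd v)) := FP.fst' (FP.snd' FP.id')
    have h3 : FP O (fun v => snd (snd v)) := FP.snd' (FP.snd' FP.id')
    have h4 : FP O (fun v => fst (fst v)) := FP.fst' (FP.fst' FP.id')
    have h5 : FP O (fun v => snd v) := FP.snd' FP.id'
    exact FP.cs' (FP.dropU' h1 h2) FP.id' (FP.cs' (FP.dropU' h3 (FP.unF' hF h4))
      (FP.node' (FP.node' (FP.unF' hF h4) (FP.node' FP.leaf' h1)) h5) FP.id')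
  refine FP.fst' (FP.fst' (FP.iterate' hd hG (FP.node' (FP.node' (FP.const' _) FP.leaf')
    (FP.node' hG hH)) ⟨6 * Polynomial.X + 10, fun n x i hi => ?_⟩))
  simp only [Polynomial.eval_add, Polynomial.eval_mul, Polynomial.eval_ofNat, Polynomial.eval_X]
  have h0 := len_le_size n
  rcases (cwstep_bound (F := F) x i).2.2 with h | ⟨a, w, h1, h2, h⟩
  · rw [h]; omega
  · rw [h]
    simp only [size, size_num]
    have h3 := size_snd_le x
    have h4 := len_le_size (snd (snd x))
    have h5 := size_snd_le (snd x)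
    omega

/-! ### the items -/

/-- the end of the block of `n` -/
def ob (F : ℕ → ℕ) (n : ℕ) : ℕ := orb F (lm F (n + 2) + 1)

/-- the index of the item of machine `e` for length `n` -/
def jS (F : ℕ → ℕ) (e n : ℕ) : ℕ := 2 ^ e * (2 * (lm F (ob F n ^ (2 ^ e)) + 1) + 1)

theorem two_le_ob (hF : Nice O F) (n : ℕ) : 2 ≤ ob F n := two_le_orb hF _

theorem lt_ob (hF : Nice O F) (n : ℕ) : n + 2 < ob F n := lt_orb_lam hF _

theorem ob_window (hF : Nice O F) {n n' : ℕ} (h : lm F (n + 2) = lm F (n' + 2)) :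
    n' + 2 < F (n + 2) := by
  have h1 := lt_ob hF n'
  have h2 : ob F n' = F (orb F (lm F (n + 2))) := by
    rw [ob, ← h, orb_succ]
  have h3 : F (orb F (lm F (n + 2))) ≤ F (n + 2) := hF.mono (orb_lam_le (by omega))
  omega

theorem jS_inj (hF : Nice O F) {e n e' n' : ℕ} (h : jS F e n = jS F e' n') :
    e = e' ∧ lm F (n + 2) = lm F (n' + 2) := by
  unfold jS at h
  obtain ⟨h1, h2⟩ := two_pow_odd_inj' h
  subst h1
  refine ⟨rfl, ?_⟩
  have key : ∀ b b', b < b' → lm F (orb F (b + 1) ^ 2 ^ e) < lm F (orb F (b' + 1) ^ 2 ^ e) := by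
    intro b b' hb
    have hP : 1 ≤ 2 ^ e := Nat.one_le_two_pow
    have h3 := two_le_pow (two_le_orb hF (b + 1)) hP
    have h4 : orb F (lm F (orb F (b + 1) ^ 2 ^ e) + 1) ≤ orb F (b' + 1) ^ 2 ^ e := by
      rw [orb_succ]
      calc F (orb F (lm F (orb F (b + 1) ^ 2 ^ e))) ≤ F (orb F (b + 1) ^ 2 ^ e) :=
            hF.mono (orb_lam_le h3)
        _ ≤ F (orb F (b + 1)) ^ 2 ^ e := hF.pow _ _ (two_le_orb hF _) hP
        _ = orb F (b + 1 + 1) ^ 2 ^ e := by rw [orb_succ (b + 1)]
        _ ≤ orb F (b' + 1) ^ 2 ^ e :=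
            Nat.pow_le_pow_left ((orb_strictMono hF).monotone (by omega)) _
    have h5 := lt_orb_lam hF (orb F (b' + 1) ^ 2 ^ e)
    have h6 := (orb_strictMono hF).lt_iff_lt.mp (h4.trans_lt h5)
    unfold lm at h6 ⊢
    omega
  unfold ob at h2
  rcases lt_trichotomy (lm F (n + 2)) (lm F (n' + 2)) with h3 | h3 | h3
  · have := key _ _ h3
    omega
  · exact h3
  · have := key _ _ h3
    omega

theorem lt_orb_jS (hF : Nice O F) (e n : ℕ) : ob F n ^ (2 ^ e) < orb F (jS F e n) := by
  have h1 := lt_orb_lam hF (ob F n ^ (2 ^ e))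
  refine h1.trans_le ((orb_strictMono hF).monotone ?_)
  unfold jS lm
  have h2 : 1 ≤ 2 ^ e := Nat.one_le_two_pow
  have h3 : 1 * (2 * (Pool.Agent.H13.EL.lam F (ob F n ^ 2 ^ e) + 1) + 1) ≤
    2 ^ e * (2 * (Pool.Agent.H13.EL.lam F (ob F n ^ 2 ^ e) + 1) + 1) :=
    Nat.mul_le_mul_right _ h2
  omega

/-- the test `K = orb F (jS F e n)` -/
def tsS (F : ℕ → ℕ) (K e n : Tr) : Tr :=
  andT (orbT F K) (eqL (snd (lamP F K)) (mulU (pow2cap e (snd (lamP F K)))
    (node leaf (mulU (num 2) (node leaf (snd (lamP F (fst (sqst^[len e]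
      (node (unF F (fst (lamP F (node leaf (node leaf n))))) K))))))))))

theorem tsS_spec (hF : Nice O F) (K e n : Tr) :
    tsS F K e n ≠ leaf ↔ len K = orb F (jS F (len e) (len n)) := by
  obtain ⟨m, h1, h2⟩ := sqst_iter (unF F (fst (lamP F (node leaf (node leaf n))))) K (len e)
  have e1 : len (unF F (fst (lamP F (node leaf (node leaf n))))) = ob F (len n) := by
    rw [lamP_eq hF, fst_node, unF, len_num, len_num, ob, orb_succ]
    rfl
  rw [e1] at h2
  rw [tsS, andT_spec, orbT_spec hF, eqL_spec, mulU_eq, h1, fst_node]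
  rw [lamP_eq hF, lamP_eq hF, snd_node, snd_node, pow2cap_eq]
  simp only [len, mulU_eq, len_num]
  set M := (ob F (len n)) ^ (2 ^ len e) with hM
  set j' := lm F (len K) with hj'
  have hj'' : Pool.Agent.H13.EL.lam F (len K) = j' := rfl
  rw [hj'']
  have hM2 : 2 ≤ M := two_le_pow (two_le_ob hF _) Nat.one_le_two_pow
  constructor
  · rintro ⟨⟨l, hl⟩, h3⟩
    have hll : j' = l := by
      rw [hj', ← hl]
      exact lam_eq hF le_rfl (orb_strictMono hF (Nat.lt_succ_self l))
    have hge : ∀ A B : ℕ, A ≤ A * (B + 1) := fun A B => Nat.le_mul_of_pos_right _ (by omega)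
    have hPle : 2 ^ len e ≤ j' + 1 := by
      by_contra hcon
      push Not at hcon
      rw [min_eq_right hcon.le] at h3
      have := hge (j' + 1) (2 * (Pool.Agent.H13.EL.lam F (len m) + 1))
      omega
    rw [min_eq_left hPle] at h3
    have hK2 : 2 ≤ len K := by rw [← hl]; exact two_le_orb hF l
    have hmK : len m < len K + 1 := by
      by_contra hcon
      push Not at hcon
      have h4 : Pool.Agent.H13.EL.lam F (len K) ≤ Pool.Agent.H13.EL.lam F (len m) :=
        lam_mono hF hK2 (by omega)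
      have h5 : 1 * (2 * (Pool.Agent.H13.EL.lam F (len m) + 1) + 1) ≤
          2 ^ len e * (2 * (Pool.Agent.H13.EL.lam F (len m) + 1) + 1) :=
        Nat.mul_le_mul_right _ Nat.one_le_two_pow
      rw [hj''] at h4
      omega
    have hmM : len m = M := by
      rw [min_eq_left hmK.le] at h2
      rcases Nat.lt_or_ge M (len K + 1) with h4 | h4
      · rw [min_eq_left h4.le] at h2
        exact h2
      · rw [min_eq_right h4] at h2
        omega
    rw [hmM] at h3
    rw [← hl, ← hll, h3]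
    rfl
  · intro h3
    have hll : j' = jS F (len e) (len n) := by
      rw [hj', h3]
      exact lam_eq hF le_rfl (orb_strictMono hF (Nat.lt_succ_self _))
    have hPle : 2 ^ len e ≤ j' + 1 := by
      rw [hll]
      unfold jS
      have := Nat.le_mul_of_pos_right (2 ^ len e)
        (show 0 < 2 * (lm F (ob F (len n) ^ (2 ^ len e)) + 1) + 1 by omega)
      omega
    rw [min_eq_left hPle]
    have hMK : M < len K := by
      rw [h3]
      exact lt_orb_jS hF _ _
    have hmM : len m = M := by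
      rw [min_eq_left (show M ≤ len K + 1 by omega)] at h2
      rcases Nat.lt_or_ge (len m) (len K + 1) with h4 | h4
      · rw [min_eq_left h4.le] at h2
        exact h2
      · rw [min_eq_right h4] at h2
        omega
    rw [hmM]
    exact ⟨⟨_, h3.symm⟩, hll⟩

theorem FP_sqst_iter {G H J : Tr → Tr} (hG : FP O G) (hH : FP O H) (hJ : FP O J) :
    FP O (fun v => sqst^[len (H v)] (node (J v) (G v))) := by
  have hd : FP O sqst := by
    have h1 : FP O (fun v => fst v) := FP.fst' FP.id'
    have h2 : FP O (fun v => snd v) := FP.snd' FP.id'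
    have h3 := FP.cs' (FP.dropU' h2 (FP.mulU' h1 h1)) (FP.node' (FP.mulU' h1 h1) h2)
      (FP.node' (FP.node' FP.leaf' (FP.ulen' h2)) h2)
    exact h3
  refine FP.iterate' hd hH (FP.node' hJ hG) ⟨3 * Polynomial.X + 10, fun n x i _ => ?_⟩
  simp only [Polynomial.eval_add, Polynomial.eval_mul, Polynomial.eval_ofNat,
    Polynomial.eval_X]
  have key : ∀ i, snd (sqst^[i] x) = snd x ∧ (sqst^[i] x = x ∨ ∃ m, m ≤ len (snd x) + 1 ∧
      sqst^[i] x = node (num m) (snd x)) := by
    intro i
    induction i with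
    | zero => exact ⟨rfl, Or.inl rfl⟩
    | succ i ih =>
      obtain ⟨h1, _⟩ := ih
      rw [Function.iterate_succ_apply', sqst_def, h1]
      by_cases h : dropU (snd x) (mulU (fst (sqst^[i] x)) (fst (sqst^[i] x))) = leaf
      · rw [cs_pos _ _ h]
        refine ⟨rfl, Or.inr ⟨len (fst (sqst^[i] x)) * len (fst (sqst^[i] x)), ?_, ?_⟩⟩
        · rw [dropU_eq_leaf, mulU_eq, len_num] at h
          omega
        · rw [mulU_eq]
      · rw [cs_neg _ _ h]
        refine ⟨rfl, Or.inr ⟨len (snd x) + 1, le_rfl, ?_⟩⟩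
        rw [ulen_eq]
        rfl
  rcases (key i).2 with h | ⟨m, hm, h⟩
  · rw [h]; omega
  · rw [h]
    simp only [size, size_num]
    have h3 := size_snd_le x
    have h4 := len_le_size (snd x)
    omega

theorem FP_tsS (hF : Nice O F) {G H J : Tr → Tr} (hG : FP O G) (hH : FP O H) (hJ : FP O J) :
    FP O (fun v => tsS F (G v) (H v) (J v)) := by
  have hl := FP.snd' (FP.lamP' hF hG)
  have hN := FP.unF' hF (FP.fst' (FP.lamP' hF (FP.node' FP.leaf' (FP.node' FP.leaf' hJ))))
  have hsq := FP_sqst_iter hG hH hN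
  exact FP.andT' (FP.orbT' hF hG) (FP.eqL' hl (FP.mulU' (FP.pow2cap' hH hl)
    (FP.node' FP.leaf' (FP.mulU' (FP.const' (num 2)) (FP.node' FP.leaf'
      (FP.snd' (FP.lamP' hF (FP.fst' hsq))))))))

/-- program for the power of the end of the block -/
def obT (F : ℕ → ℕ) (e : ℕ) (n : Tr) : Tr :=
  powU (2 ^ e) (unF F (fst (lamP F (node leaf (node leaf n)))))

theorem obT_eq (hF : Nice O F) (e : ℕ) (n : Tr) : obT F e n = num (ob F (len n) ^ 2 ^ e) := by
  rw [obT, powU_eq, lamP_eq hF, fst_node, unF, len_num, len_num, ob, orb_succ]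
  rfl

/-- program for the clock of machine `e` -/
def ksT (F : ℕ → ℕ) (c e : ℕ) (n : Tr) : Tr :=
  owT F (mulU (num (2 ^ e)) (node leaf (mulU (num 2) (node leaf (snd (lamP F (obT F e n)))))))
    (powU (c ^ (e + 2)) (unF F (fst (lamP F (obT F e n)))))

theorem ksT_eq (hF : Nice O F) {c : ℕ} (hc : ∀ i, orb F (2 * i) ≤ orb F i ^ c) (e : ℕ) (n : Tr) :
    ksT F c e n = num (orb F (jS F e (len n))) := by
  have h1 : mulU (num (2 ^ e)) (node leaf (mulU (num 2) (node leaf (snd (lamP F (obT F e n)))))) =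
      num (jS F e (len n)) := by
    rw [obT_eq hF, lamP_eq hF, snd_node, mulU_eq, mulU_eq]
    simp only [len, len_num]
    rfl
  rw [ksT, h1, owT_eq hF]
  rw [powU_eq, len_num, obT_eq hF, lamP_eq hF, fst_node, unF, len_num, len_num, len_num]
  have h3 : F (orb F (Pool.Agent.H13.EL.lam F (ob F (len n) ^ 2 ^ e))) =
    orb F (lm F (ob F (len n) ^ 2 ^ e) + 1) := (orb_succ _).symm
  rw [h3]
  set μ := lm F (ob F (len n) ^ 2 ^ e) with hμ
  have h2 : jS F e (len n) ≤ 2 ^ (e + 2) * (μ + 1) := by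
    unfold jS
    rw [← hμ, pow_add]
    calc 2 ^ e * (2 * (μ + 1) + 1) ≤ 2 ^ e * (2 ^ 2 * (μ + 1)) :=
          Nat.mul_le_mul_left _ (by omega)
      _ = 2 ^ e * 2 ^ 2 * (μ + 1) := by ring
  exact ((orb_strictMono hF).monotone h2).trans (orb_two_pow hc (e + 2) (μ + 1))

theorem FP_ksT (hF : Nice O F) (c e : ℕ) {G : Tr → Tr} (hG : FP O G) :
    FP O (fun v => ksT F c e (G v)) := by
  have h0 : FP O (fun v => obT F e (G v)) := FP.powU' (2 ^ e) (FP.unF' hF (FP.fst'
    (FP.lamP' hF (FP.node' FP.leaf' (FP.node' FP.leaf' hG)))))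
  exact FP_owT hF (FP.mulU' (FP.const' (num (2 ^ e))) (FP.node' FP.leaf'
    (FP.mulU' (FP.const' (num 2)) (FP.node' FP.leaf' (FP.snd' (FP.lamP' hF h0))))))
    (FP.powU' _ (FP.unF' hF (FP.fst' (FP.lamP' hF h0))))

/-- **For slow growth functions there is one total problem for all search problems.** -/
theorem upFs (hF : Nice O F) (c : ℕ) (hc : ∀ i, orb F (2 * i) ≤ orb F i ^ c)
    (h : ∀ L, IsOrbit F L → InPi2 O L → InNP O Lᶜ) :
    ∃ T : TFNP O, ∀ S : Search O, S.Reduces T (window F) := by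
  have hcore : ∃ T : TFNP O, ∀ (R : List Bool → List Bool → Bool) (p : Polynomial ℕ) (i : ℕ)
      (k : Polynomial ℕ),
      (∀ (K : ℕ) (x y : List Bool), Usol O i K K x y → y.length ≤ p.eval x.length ∧ R x y = true) →
      (∀ (K : ℕ) (x y : List Bool), k.eval x.length ≤ K →
        y.length ≤ p.eval x.length → R x y = true → Usol O i K K x y) →
      ∀ (s : ℕ) (Kf : ℕ → ℕ) (KT : Tr → Tr),
      (∀ v, KT v = num (Kf (len v))) → (∀ F, FP O F → FP O (fun v => KT (F v))) →
      (∀ n, (Kf n = orb F (jS F (Nat.pair s i) n)) ∧ ∀ s' n',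
        (Kf n = orb F (jS F (Nat.pair s' i) n')) → Kf n = Kf n → k.eval n' ≤ Kf n) →
      ∃ (f : List Bool → List Bool) (g : List Bool → List Bool → List Bool),
        PolyTimeFun O f ∧ PolyTimeFun₂ O g ∧ ∀ x : List Bool,
        (∀ x' : List Bool, (x'.length + 2 < F (x.length + 2) ∧
            x.length + 2 < F (x'.length + 2)) →
          ∃ y : List Bool, y.length ≤ p.eval x'.length ∧ R x' y = true) →
        ∀ y, T.IsSol (f x) y → (g x y).length ≤ p.eval x.length ∧ R x (g x y) = true := by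
    refine up_core (O := O) (S := Set.range (orb F)) (ST := orbT F) (fun v => orbT_spec hF v)
      (fun _ hG => FP.orbT' hF hG)
      (va := fun K s i n => K = orb F (jS F (Nat.pair s i) n))
      (vaT := fun K s i n => tsS F K (pairU s i) n) (fun K s i n => ?_)
      (fun _ G H J hF' hG hH hJ => FP_tsS hF hF' (FP.pairU' hG hH) hJ)
      (cd := fun K _ _ _ => K) (cdT := fun K _ _ _ => ulen K) (fun K s i n => ulen_eq K)
      (fun F G H J hF hG hH hJ => FP.ulen' hF)
      (fun K s i n hv => ?_) (fun K s i n hv => ⟨_, hv.symm⟩)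
      (Wn := fun _ _ n n' => n' + 2 < F (n + 2) ∧ n + 2 < F (n' + 2))
      (fun K s i n K' s' i' n' hv hv' he => ?_)
      (fun L hL => h L (fun w hw => by
        obtain ⟨n, ⟨l, hl⟩, hn⟩ := hL w hw
        exact ⟨l, by rw [hn, ← hl]; rfl⟩))
    · rw [tsS_spec hF, pairU_eq, len_num]
    · replace hv : K = orb F (jS F (Nat.pair s i) n) := hv
      show K + s + i + n ≤ 4 * K
      have h1 := lt_orb_jS hF (Nat.pair s i) n
      rw [← hv] at h1
      have h3 := Nat.left_le_pair s i
      have h4 := Nat.right_le_pair s i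
      have h5 : Nat.pair s i < 2 ^ Nat.pair s i := Nat.lt_two_pow_self
      have h6 : ob F n ≤ (ob F n) ^ (2 ^ Nat.pair s i) :=
        Nat.le_self_pow (by positivity) _
      have h7 : 2 ^ Nat.pair s i < 2 ^ 2 ^ Nat.pair s i := Nat.lt_two_pow_self
      have h8 : 2 ^ 2 ^ Nat.pair s i ≤ (ob F n) ^ (2 ^ Nat.pair s i) :=
        Nat.pow_le_pow_left (two_le_ob hF n) _
      have h9 := lt_ob hF n
      omega
    · replace hv : K = orb F (jS F (Nat.pair s i) n) := hv
      replace hv' : K' = orb F (jS F (Nat.pair s' i') n') := hv'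
      replace he : K = K' := he
      have h1 := he
      rw [hv, hv'] at h1
      obtain ⟨h3, h4⟩ := jS_inj hF ((orb_strictMono hF).injective h1)
      exact ⟨he, (Nat.pair_eq_pair.mp h3).2, ob_window hF h4, ob_window hF h4.symm⟩
  obtain ⟨T, hT⟩ := hcore
  refine ⟨T, fun S => ?_⟩
  obtain ⟨i, k, hsnd, hcmp⟩ := exists_index_mono S.polyTime S.p
  obtain ⟨d, hd⟩ := exists_pow_bound' k
  set e := Nat.pair d i with he
  obtain ⟨f, g, hf, hg, hfg⟩ := hT S.R S.p i k hsnd hcmp d (fun n => orb F (jS F e n))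
    (ksT F c e) (fun v => ksT_eq hF hc e v) (fun _ hG => FP_ksT hF c e hG)
    (fun n => ⟨rfl, fun s' n' hv _ => by
      have h1 : orb F (jS F e n) = orb F (jS F (Nat.pair s' i) n') := hv
      obtain ⟨h2, _⟩ := jS_inj hF ((orb_strictMono hF).injective h1)
      show k.eval n' ≤ orb F (jS F e n)
      rw [h1, ← h2]
      refine (hd (2 ^ e) ?_ n').trans ((Nat.pow_le_pow_left (lt_ob hF n').le _).trans
        (lt_orb_jS hF e n').le)
      have h3 : e < 2 ^ e := Nat.lt_two_pow_self
      have h4 := Nat.left_le_pair d i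
      omega⟩)
  exact ⟨f, g, hf, hg, fun x hx => hfg x (fun x' hx' => hx x' hx')⟩

end Pool.Agent.H40.EL
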